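import Mathlib

set_option autoImplicit false

namespace Pool.Agent.MP_c60df9_co.H39

/-- binary trees whose leaves carry finite sets -/
inductive BT (α : Type) : Type
  | leaf : Finset α → BT α
  | node : BT α → BT α → BT α

variable {α : Type} [DecidableEq α]

/-- the set displayed by a tree -/
def BT.set : BT α → Finset α
  | .leaf F => F
  | .node l r => l.set ∪ r.set

/-- branch decomposition of width at most `W` for the set function `lam` -/
def BT.Valid (lam : Finset α → ℕ) (W : ℕ) : BT α → Prop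
  | .leaf F => F.card ≤ 1 ∧ lam F ≤ W
  | .node l r => Disjoint l.set r.set ∧ lam (l.set ∪ r.set) ≤ W ∧ l.Valid lam W ∧ r.Valid lam W

/-- child relation -/
def BT.Ch (t u : BT α) : Prop := ∃ l r, t = .node l r ∧ (u = l ∨ u = r)

/-- linked and without empty children -/
def BT.Linked (lam : Finset α → ℕ) (T : BT α) : Prop :=
  ∀ t, Relation.ReflTransGen BT.Ch T t →
    (∀ u, BT.Ch t u → u.set.Nonempty) ∧
    ∀ u, Relation.ReflTransGen (fun a b => BT.Ch a b ∧ lam t.set ≤ lam b.set) t u →
      ∀ Y, u.set ⊆ Y → Y ⊆ t.set → lam t.set ≤ lam Y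

/-- item A: a submodular and posimodular set function has linked branch decompositions -/
def ItemA : Prop :=
  ∀ (α : Type) [DecidableEq α] (lam : Finset α → ℕ) (W : ℕ),
    (∀ X Y, lam (X ∩ Y) + lam (X ∪ Y) ≤ lam X + lam Y) →
    (∀ X Y, lam (X \ Y) + lam (Y \ X) ≤ lam X + lam Y) →
    ∀ T : BT α, T.Valid lam W → ∃ T' : BT α, T'.set = T.set ∧ T'.Valid lam W ∧ T'.Linked lam

/-- item B: an abstract forest with bounded additive values, monotone along linked chains,
has bounded size -/
def ItemB : Prop :=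
  ∀ (N : Type 1) (ch : N → Option (N × N)) (ord : N → ℕ) (val : N → ℝ) (sz : N → ℕ)
    (W c : ℕ) (R : Finset ℝ) (C : ℝ),
    (∀ v, ord v ≤ W) → (∀ v, 0 ≤ val v ∧ val v ≤ C) →
    (∀ v, ch v = none → val v ∈ R ∧ sz v ≤ c) →
    (∀ v l r, ch v = some (l, r) →
      val v - val l - val r ∈ R ∧ sz l < sz v ∧ sz r < sz v ∧ sz v ≤ sz l + sz r + c) →
    (∀ v u, Relation.ReflTransGen
        (fun a b => (∃ l r, ch a = some (l, r) ∧ (b = l ∨ b = r)) ∧ ord v ≤ ord b) v u →
      ord u = ord v → val u ≤ val v ∧ (val u = val v → sz v ≤ sz u + c)) →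
    ∃ K, ∀ v, sz v ≤ K

end Pool.Agent.MP_c60df9_co.H39
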