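import Pool.Agent.MP_c60df9_co.H39.Basic

set_option autoImplicit false

namespace Pool.Agent.MP_c60df9_co.H39

variable {V : Type} {G : SimpleGraph V}

/-- `S` separates `A` from the rest -/
structure Cut (G : SimpleGraph V) (A S : Set V) : Prop where
  sub : S ⊆ A
  cl : ∀ u ∈ A, u ∉ S → ∀ v, G.Adj u v → v ∈ A

/-- nested cuts -/
structure Nest (A S A' S' : Set V) : Prop where
  sub : A ⊆ A'
  bd : ∀ v ∈ S', v ∈ A → v ∈ S

/-- a linkage from `S` into `S'` between the two cuts -/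
def Lk (G : SimpleGraph V) (A S A' S' : Set V) (τ : V → V) : Prop :=
  ∃ Q : V → Set V,
    (∀ u ∈ S, Conn G (Q u) ∧ u ∈ Q u ∧ τ u ∈ Q u ∧ τ u ∈ S' ∧ Q u ⊆ (A' \ A) ∪ S) ∧
    ∀ u ∈ S, ∀ v ∈ S, u ≠ v → Disjoint (Q u) (Q v)

lemma Nest.refl (A S : Set V) : Nest A S A S := ⟨subset_rfl, fun _ h _ => h⟩

lemma Nest.trans {A S A' S' A'' S'' : Set V} (h : Nest A S A' S') (h' : Nest A' S' A'' S'') :
    Nest A S A'' S'' :=
  ⟨h.sub.trans h'.sub, fun v hv hA => h.bd v (h'.bd v hv (h.sub hA)) hA⟩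

lemma Cut.monoG {G' : SimpleGraph V} {A S : Set V} (h : Cut G A S) (hG : G' ≤ G) : Cut G' A S :=
  ⟨h.sub, fun u hu hS v huv => h.cl u hu hS v (hG huv)⟩

lemma Lk.monoG {G' : SimpleGraph V} {A S A' S' : Set V} {τ : V → V} (h : Lk G A S A' S' τ)
    (hG : G ≤ G') : Lk G' A S A' S' τ := by
  obtain ⟨Q, h1, h2⟩ := h
  exact ⟨Q, fun u hu => ⟨(h1 u hu).1.monoG hG, (h1 u hu).2⟩, h2⟩

lemma Lk.injOn {A S A' S' : Set V} {τ : V → V} (h : Lk G A S A' S' τ) : Set.InjOn τ S := by
  obtain ⟨Q, h1, h2⟩ := h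
  intro u hu v hv huv
  by_contra hne
  exact Set.disjoint_left.1 (h2 u hu v hv hne) (h1 u hu).2.2.1 (huv ▸ (h1 v hv).2.2.1)

lemma Lk.image [Finite V] {A S A' S' : Set V} {τ : V → V} (h : Lk G A S A' S' τ)
    (hc : S'.ncard ≤ S.ncard) : τ '' S = S' := by
  refine Set.eq_of_subset_of_ncard_le ?_ ?_ (Set.toFinite _)
  · obtain ⟨Q, h1, h2⟩ := h
    rintro _ ⟨u, hu, rfl⟩
    exact (h1 u hu).2.2.2.1
  · rwa [h.injOn.ncard_image]

lemma Lk.refl (G : SimpleGraph V) (A S : Set V) : Lk G A S A S id :=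
  ⟨fun u => {u}, fun u hu => ⟨Conn.singleton _ _, rfl, rfl, hu, fun v hv => Or.inr (hv ▸ hu)⟩,
    fun u _ v _ h => by simpa using h⟩

lemma Lk.trans {A S A' S' A'' S'' : Set V} {τ τ' : V → V} (h : Lk G A S A' S' τ)
    (h' : Lk G A' S' A'' S'' τ') (hn : Nest A S A' S') (hn' : A' ⊆ A'') (hS : S ⊆ A)
    (hS' : S' ⊆ A') (him : τ '' S = S') : Lk G A S A'' S'' (τ' ∘ τ) := by
  have hi := h.injOn
  obtain ⟨Q, h1, h2⟩ := h
  obtain ⟨Q', h1', h2'⟩ := h'
  have cross : ∀ u ∈ S, ∀ w ∈ S, u ≠ w → Disjoint (Q u) (Q' (τ w)) := by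
    intro u hu w hw huw
    rw [Set.disjoint_left]
    intro v hv hv'
    have hvA : v ∈ A' := by
      rcases (h1 u hu).2.2.2.2 hv with h | h
      · exact h.1
      · exact hn.sub (hS h)
    have hvS : v ∈ S' := by
      rcases (h1' _ (h1 w hw).2.2.2.1).2.2.2.2 hv' with h | h
      · exact absurd hvA h.2
      · exact h
    obtain ⟨z, hz, rfl⟩ := him ▸ hvS
    have : z = u := by
      by_contra hne
      exact Set.disjoint_left.1 (h2 z hz u hu hne) (h1 z hz).2.2.1 hv
    subst this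
    exact Set.disjoint_left.1 (h2' _ (h1 z hz).2.2.2.1 _ (h1 w hw).2.2.2.1
      (fun h => huw (hi hz hw h))) (h1' _ (h1 z hz).2.2.2.1).2.1 hv'
  refine ⟨fun u => Q u ∪ Q' (τ u), fun u hu => ?_, fun u hu v hv huv => ?_⟩
  · obtain ⟨a1, a2, a3, a4, a5⟩ := h1 u hu
    obtain ⟨b1, b2, b3, b4, b5⟩ := h1' _ a4
    refine ⟨a1.union b1 a3 b2, Or.inl a2, Or.inr b3, b4, ?_⟩
    rintro v (hv | hv)
    · rcases a5 hv with h | h
      · exact Or.inl ⟨hn' h.1, h.2⟩
      · exact Or.inr h
    · rcases b5 hv with h | h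
      · exact Or.inl ⟨h.1, fun h' => h.2 (hn.sub h')⟩
      · by_cases hA : v ∈ A
        · exact Or.inr (hn.bd v h hA)
        · exact Or.inl ⟨hn' (hS' h), hA⟩
  · rw [Set.disjoint_union_left, Set.disjoint_union_right, Set.disjoint_union_right]
    exact ⟨⟨h2 u hu v hv huv, cross u hu v hv huv⟩, (cross v hv u hu huv.symm).symm,
      h2' _ (h1 u hu).2.2.2.1 _ (h1 v hv).2.2.2.1 (fun h => huv (hi hu hv h))⟩

theorem menger_aux [Finite V] (k n : ℕ) : ∀ (G : SimpleGraph V) (A S A' S' : Set V), dn G < n →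
    Cut G A S → Cut G A' S' → Nest A S A' S' → S.ncard = k → S'.ncard = k →
    (∀ D Z, Cut G D Z → Nest A S D Z → Nest D Z A' S' → k ≤ Z.ncard) → ∃ τ, Lk G A S A' S' τ := by
  classical
  induction n with
  | zero => intro G A S A' S' h; omega
  | succ n ih =>
    intro G A S A' S' hn hc hc' hne hk hk' hmin
    by_cases hE : ∃ x ∈ (A' \ A) ∪ S, ∃ y ∈ (A' \ A) ∪ S, G.Adj x y
    swap
    · have h1 := hmin A (S ∩ S') ⟨fun v hv => hc.sub hv.1, ?_⟩
        ⟨subset_rfl, fun v hv _ => hv.1⟩ ⟨hne.sub, fun v hv hA => ⟨hne.bd v hv hA, hv⟩⟩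
      · have h2 : S ∩ S' = S := Set.eq_of_subset_of_ncard_le Set.inter_subset_left (hk ▸ h1)
        refine ⟨id, fun u => {u}, fun u hu => ⟨Conn.singleton _ _, rfl, rfl, ?_,
          fun v hv => Or.inr (hv ▸ hu)⟩, fun u _ v _ h => by simpa using h⟩
        rw [← h2] at hu; exact hu.2
      · intro u hu hS v huv
        by_cases huS : u ∈ S
        · by_contra hv
          exact hE ⟨u, Or.inr huS, v,
            Or.inl ⟨hc'.cl u (hne.sub hu) (fun h => hS ⟨huS, h⟩) v huv, hv⟩, huv⟩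
        · exact hc.cl u hu huS v huv
    obtain ⟨x0, hx0, y0, hy0, hxy0⟩ := hE
    let G' := G.deleteEdges {s(x0, y0)}
    have hG' : G' ≤ G := SimpleGraph.deleteEdges_le _
    have hdn : dn G' < n := by
      have : dn G' < dn G := by
        refine Set.ncard_lt_ncard ⟨fun p hp => hG' hp, fun h => ?_⟩ (Set.toFinite _)
        have := h (a := (x0, y0)) hxy0
        simp [G'] at this
      omega
    by_cases hsm : ∀ D Z, Cut G' D Z → Nest A S D Z → Nest D Z A' S' → k ≤ Z.ncard
    · obtain ⟨τ, h⟩ := ih G' A S A' S' hdn (hc.monoG hG') (hc'.monoG hG') hne hk hk' hsm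
      exact ⟨τ, h.monoG hG'⟩
    push Not at hsm
    obtain ⟨D, Y, hD, hn1, hn2, hY⟩ := hsm
    have hnc : ¬ Cut G D Y := fun h => absurd (hmin D Y h hn1 hn2) (by omega)
    obtain ⟨x, y, hxD, hxY, hxy, hyD⟩ : ∃ x y, x ∈ D ∧ x ∉ Y ∧ G.Adj x y ∧ y ∉ D := by
      by_contra h
      push Not at h
      exact hnc ⟨hD.sub, fun u hu hS v huv => h u v hu hS huv⟩
    have he : s(x, y) = s(x0, y0) := by
      by_contra h
      exact hyD (hD.cl x hxD hxY y (by simp only [G', SimpleGraph.deleteEdges_adj]; exact ⟨hxy, h⟩))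
    have hxr : x ∈ (A' \ A) ∪ S ∧ y ∈ (A' \ A) ∪ S := by
      rcases Sym2.eq_iff.1 he with ⟨rfl, rfl⟩ | ⟨rfl, rfl⟩
      · exact ⟨hx0, hy0⟩
      · exact ⟨hy0, hx0⟩
    have hadj : ∀ u v, G.Adj u v → G'.Adj u v ∨ (u = x ∧ v = y) ∨ (u = y ∧ v = x) := by
      intro u v huv
      by_cases h : s(u, v) = s(x, y)
      · exact Or.inr (Sym2.eq_iff.1 h)
      · left
        simp only [G', SimpleGraph.deleteEdges_adj]
        exact ⟨huv, fun h' => h (he ▸ h')⟩
    have hyA' : y ∈ A' := by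
      rcases hxr.2 with h | h
      · exact h.1
      · exact hne.sub (hc.sub h)
    have hyY : y ∉ Y := fun h => hyD (hD.sub h)
    have c1 : Cut G D (insert x Y) := by
      refine ⟨Set.insert_subset hxD hD.sub, fun u hu hS v huv => ?_⟩
      rcases hadj u v huv with h | ⟨rfl, rfl⟩ | ⟨rfl, rfl⟩
      · exact hD.cl u hu (fun h => hS (Or.inr h)) v h
      · exact absurd (Set.mem_insert _ _) hS
      · exact hxD
    have c2 : Cut G (insert y D) (insert y Y) := by
      refine ⟨Set.insert_subset_insert hD.sub, fun u hu hS v huv => ?_⟩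
      rcases hadj u v huv with h | ⟨rfl, rfl⟩ | ⟨rfl, rfl⟩
      · rcases hu with rfl | hu
        · exact absurd (Set.mem_insert _ _) hS
        · exact Or.inr (hD.cl u hu (fun h => hS (Or.inr h)) v h)
      · exact Set.mem_insert _ _
      · exact absurd (Set.mem_insert _ _) hS
    have n1 : Nest A S D (insert x Y) := by
      refine ⟨hn1.sub, ?_⟩
      rintro v (rfl | hv) hA
      · rcases hxr.1 with h | h
        · exact absurd hA h.2
        · exact h
      · exact hn1.bd v hv hA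
    have n12 : Nest D (insert x Y) (insert y D) (insert y Y) := by
      refine ⟨Set.subset_insert _ _, ?_⟩
      rintro v (rfl | hv) hA
      · exact absurd hA hyD
      · exact Or.inr hv
    have n2 : Nest (insert y D) (insert y Y) A' S' := by
      refine ⟨Set.insert_subset hyA' hn2.sub, ?_⟩
      rintro v hv (rfl | hA)
      · exact Set.mem_insert _ _
      · exact Or.inr (hn2.bd v hv hA)
    have k1 : (insert x Y).ncard = k := by
      have := hmin _ _ c1 n1 (n12.trans n2)
      rw [Set.ncard_insert_of_notMem hxY] at this ⊢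
      omega
    have k2 : (insert y Y).ncard = k := by
      rw [Set.ncard_insert_of_notMem hxY] at k1
      rw [Set.ncard_insert_of_notMem hyY, k1]
    obtain ⟨τ1, l1⟩ := ih G' A S D (insert x Y) hdn (hc.monoG hG') (c1.monoG hG') n1 hk k1 (by
      intro E Z hE m1 m2
      refine hmin E Z ⟨hE.sub, fun u hu hS v huv => ?_⟩ m1 (m2.trans (n12.trans n2))
      rcases hadj u v huv with h | ⟨rfl, rfl⟩ | ⟨rfl, rfl⟩
      · exact hE.cl u hu hS v h
      · exact absurd (m2.bd u (Set.mem_insert _ _) hu) hS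
      · exact absurd (m2.sub hu) hyD)
    obtain ⟨τ2, l2⟩ := ih G' (insert y D) (insert y Y) A' S' hdn (c2.monoG hG') (hc'.monoG hG')
      n2 k2 hk' (by
      intro E Z hE m1 m2
      refine hmin E Z ⟨hE.sub, fun u hu hS v huv => ?_⟩ ((n1.trans n12).trans m1) m2
      rcases hadj u v huv with h | ⟨rfl, rfl⟩ | ⟨rfl, rfl⟩
      · exact hE.cl u hu hS v h
      · exact m1.sub (Set.mem_insert _ _)
      · exact m1.sub (Or.inr hxD))
    have l12 : Lk G D (insert x Y) (insert y D) (insert y Y) (fun v => if v = x then y else v) := by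
      refine ⟨fun v => if v = x then {x, y} else {v}, ?_, ?_⟩
      · intro u hu
        by_cases hux : u = x
        · subst hux
          simp only [if_true]
          refine ⟨(Conn.singleton G u).union_adj (Conn.singleton G y) rfl rfl hxy, Or.inl rfl,
            Or.inr rfl, Set.mem_insert _ _, ?_⟩
          rintro v (rfl | rfl)
          · exact Or.inr hu
          · exact Or.inl ⟨Set.mem_insert _ _, hyD⟩
        · simp only [if_neg hux]
          exact ⟨Conn.singleton _ _, rfl, rfl, Or.inr (hu.resolve_left hux),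
            fun v hv => Or.inr (hv ▸ hu)⟩
      · have key : ∀ v ∈ insert x Y, v ≠ x → Disjoint ({x, y} : Set V) {v} := by
          intro v hv hvx
          rw [Set.disjoint_right]
          rintro w rfl (h | h)
          · exact hvx h
          · exact hyY (h ▸ hv.resolve_left hvx)
        intro u hu v hv huv
        by_cases hux : u = x
        · subst hux
          simp only [if_true, if_neg huv.symm]
          exact key v hv huv.symm
        · by_cases hvx : v = x
          · subst hvx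
            simp only [if_true, if_neg hux]
            exact (key u hu hux).symm
          · simpa [if_neg hux, if_neg hvx] using huv
    have l1' := l1.monoG hG'
    have t1 := l1'.trans l12 n1 (Set.subset_insert _ _) hc.sub c1.sub (l1'.image (by omega))
    exact ⟨_, t1.trans (l2.monoG hG') (n1.trans n12) n2.sub hc.sub c2.sub (t1.image (by omega))⟩

/-- Menger's theorem for nested cuts of the same order -/
theorem menger [Finite V] {A S A' S' : Set V} (hc : Cut G A S) (hc' : Cut G A' S')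
    (hn : Nest A S A' S') (hk : S'.ncard = S.ncard)
    (h : ∀ D Z, Cut G D Z → Nest A S D Z → Nest D Z A' S' → S.ncard ≤ Z.ncard) :
    ∃ τ, Lk G A S A' S' τ ∧ τ '' S = S' := by
  obtain ⟨τ, h⟩ := menger_aux S.ncard (dn G + 1) G A S A' S' (by omega) hc hc' hn rfl hk h
  exact ⟨τ, h, h.image hk.le⟩

end Pool.Agent.MP_c60df9_co.H39
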