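import Pool.Agent.MP_c60df9_co.H39.Spec
import Pool.Agent.MP_c60df9_co.H39.Menger

set_option autoImplicit false

namespace Pool.Agent.MP_c60df9_co.H39

/-- number of vertices met by the dart set `F` that lie in `Z` or are met by a dart outside `F` -/
noncomputable def lam {V : Type} (G : SimpleGraph V) (Z : Set V) (F : Finset (V × V)) : ℕ :=
  {v | (∃ p ∈ F, v = p.1 ∨ v = p.2) ∧
    (v ∈ Z ∨ ∃ p : V × V, G.Adj p.1 p.2 ∧ p ∉ F ∧ (v = p.1 ∨ v = p.2))}.ncard

/-- the darts of `G` have a branch decomposition of width at most `W` -/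
def BW {V : Type} [DecidableEq V] (G : SimpleGraph V) (W : ℕ) : Prop :=
  ∃ T : BT (V × V), (∀ p, p ∈ T.set ↔ G.Adj p.1 p.2) ∧ T.Valid (lam G ∅) W

/-- item C: a graph has bounded branch-width or a minor with `k+2` vertices and `3k-1` edges -/
def ItemC : Prop :=
  ∀ k : ℕ, ∃ W : ℕ, ∀ (V : Type) [Finite V] [DecidableEq V] (G : SimpleGraph V),
    BW G W ∨ ∃ H : SimpleGraph (Fin (k + 2)), IsMinor H G ∧ 6 * k ≤ dn H + 2

end Pool.Agent.MP_c60df9_co.H39
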