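import Mathlib

set_option autoImplicit false

namespace Pool.Agent.MP_c60df9_co.H39

open Relation

variable {V W J : Type}

/-- reachability inside a set -/
def Rch (G : SimpleGraph V) (S : Set V) (u v : V) : Prop :=
  ReflTransGen (fun a b => G.Adj a b ∧ b ∈ S) u v

/-- nonempty connected vertex set -/
def Conn (G : SimpleGraph V) (S : Set V) : Prop :=
  S.Nonempty ∧ ∀ u ∈ S, ∀ v ∈ S, Rch G S u v

variable {G : SimpleGraph V}

lemma Rch.refl (S : Set V) (u : V) : Rch G S u u := ReflTransGen.refl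

lemma Rch.trans {S : Set V} {u v w : V} (h : Rch G S u v) (h' : Rch G S v w) : Rch G S u w :=
  ReflTransGen.trans h h'

lemma Rch.tail {S : Set V} {u v w : V} (h : Rch G S u v) (h' : G.Adj v w) (hw : w ∈ S) :
    Rch G S u w := ReflTransGen.tail h ⟨h', hw⟩

lemma Rch.mono {S T : Set V} {u v : V} (h : Rch G S u v) (hST : S ⊆ T) : Rch G T u v := by
  induction h with
  | refl => exact Rch.refl _ _
  | tail _ h ih => exact ih.tail h.1 (hST h.2)

lemma Rch.monoG {G' : SimpleGraph V} {S : Set V} {u v : V} (h : Rch G S u v) (hG : G ≤ G') :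
    Rch G' S u v := by
  induction h with
  | refl => exact Rch.refl _ _
  | tail _ h ih => exact ih.tail (hG h.1) h.2

lemma Rch.mem {S : Set V} {u v : V} (h : Rch G S u v) (hu : u ∈ S) : v ∈ S := by
  induction h with
  | refl => exact hu
  | tail _ h _ => exact h.2

lemma Rch.symm {S : Set V} {u v : V} (h : Rch G S u v) (hu : u ∈ S) : Rch G S v u := by
  induction h with
  | refl => exact Rch.refl _ _
  | tail h1 h2 ih =>
    exact ReflTransGen.head ⟨h2.1.symm, Rch.mem h1 hu⟩ ih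

lemma Conn.of_root {S : Set V} {r : V} (hr : r ∈ S) (h : ∀ v ∈ S, Rch G S r v) : Conn G S :=
  ⟨⟨r, hr⟩, fun u hu v hv => ((h u hu).symm hr).trans (h v hv)⟩

lemma Conn.singleton (G : SimpleGraph V) (v : V) : Conn G {v} :=
  Conn.of_root (r := v) rfl (fun w hw => by rw [hw]; exact Rch.refl _ _)

lemma Conn.monoG {G' : SimpleGraph V} {S : Set V} (h : Conn G S) (hG : G ≤ G') : Conn G' S :=
  ⟨h.1, fun u hu v hv => (h.2 u hu v hv).monoG hG⟩

lemma Conn.of_cover {S : Set V} {r : V} (hr : r ∈ S)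
    (h : ∀ v ∈ S, ∃ T, T ⊆ S ∧ Conn G T ∧ r ∈ T ∧ v ∈ T) : Conn G S := by
  refine Conn.of_root hr fun v hv => ?_
  obtain ⟨T, hT, hc, h1, h2⟩ := h v hv
  exact (hc.2 r h1 v h2).mono hT

lemma Conn.union {S T : Set V} (hS : Conn G S) (hT : Conn G T) {x : V} (hx : x ∈ S)
    (hx' : x ∈ T) : Conn G (S ∪ T) := by
  refine Conn.of_cover (r := x) (Or.inl hx) fun v hv => ?_
  rcases hv with hv | hv
  · exact ⟨S, Set.subset_union_left, hS, hx, hv⟩
  · exact ⟨T, Set.subset_union_right, hT, hx', hv⟩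

lemma Conn.union_adj {S T : Set V} (hS : Conn G S) (hT : Conn G T) {x y : V} (hx : x ∈ S)
    (hy : y ∈ T) (hxy : G.Adj x y) : Conn G (S ∪ T) := by
  refine Conn.of_root (r := x) (Or.inl hx) fun v hv => ?_
  rcases hv with hv | hv
  · exact (hS.2 x hx v hv).mono Set.subset_union_left
  · exact ((Rch.refl _ x).tail hxy (Or.inr hy)).trans
      ((hT.2 y hy v hv).mono Set.subset_union_right)

/-- the set of vertices reachable inside `S` is connected -/
lemma conn_reach (S : Set V) (r : V) : Conn G {v | Rch G S r v} := by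
  refine Conn.of_root (r := r) (Rch.refl _ _) fun v hv => ?_
  have hv' : Rch G S r v := hv
  induction hv' with
  | refl => exact Rch.refl _ _
  | tail h1 h2 ih => exact (ih h1).tail h2.1 (Rch.tail h1 h2.1 h2.2)

/-- an invariant of adjacency inside a connected set propagates -/
lemma Conn.ind {S : Set V} (h : Conn G S) {P : V → Prop} {u : V} (hu : u ∈ S) (hP : P u)
    (step : ∀ a ∈ S, ∀ b ∈ S, G.Adj a b → P a → P b) : ∀ v ∈ S, P v := by
  intro v hv
  have := h.2 u hu v hv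
  induction this with
  | refl => exact hP
  | tail h1 h2 ih => exact step _ (Rch.mem h1 hu) _ h2.2 h2.1 (ih (Rch.mem h1 hu))

lemma Conn.image {H : SimpleGraph W} {S : Set V} (h : Conn G S) (f : V → W)
    (hf : ∀ a ∈ S, ∀ b ∈ S, G.Adj a b → H.Adj (f a) (f b) ∨ f a = f b) : Conn H (f '' S) := by
  obtain ⟨r, hr⟩ := h.1
  refine Conn.of_root (r := f r) ⟨r, hr, rfl⟩ ?_
  rintro _ ⟨v, hv, rfl⟩
  refine h.ind (P := fun v => Rch H (f '' S) (f r) (f v)) hr (Rch.refl _ _) ?_ v hv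
  intro a ha b hb hab h1
  rcases hf a ha b hb hab with h2 | h2
  · exact h1.tail h2 ⟨b, hb, rfl⟩
  · show Rch H _ _ (f b)
    rw [← h2]; exact h1

/-- two sets joined by an edge -/
def Touch (G : SimpleGraph V) (S T : Set V) : Prop := ∃ x ∈ S, ∃ y ∈ T, G.Adj x y

lemma Touch.symm {S T : Set V} (h : Touch G S T) : Touch G T S := by
  obtain ⟨x, hx, y, hy, h⟩ := h
  exact ⟨y, hy, x, hx, h.symm⟩

lemma Touch.mono {S T S' T' : Set V} (h : Touch G S T) (h1 : S ⊆ S') (h2 : T ⊆ T') :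
    Touch G S' T' := by
  obtain ⟨x, hx, y, hy, h⟩ := h
  exact ⟨x, h1 hx, y, h2 hy, h⟩

lemma Conn.union_touch {S T : Set V} (hS : Conn G S) (hT : Conn G T) (h : Touch G S T) :
    Conn G (S ∪ T) := by
  obtain ⟨x, hx, y, hy, h⟩ := h
  exact hS.union_adj hT hx hy h

lemma Conn.biUnion {H : SimpleGraph W} {S : Set W} (h : Conn H S) (C : W → Set V)
    (hC : ∀ w ∈ S, Conn G (C w))
    (ht : ∀ a ∈ S, ∀ b ∈ S, H.Adj a b → Touch G (C a) (C b)) : Conn G (⋃ w ∈ S, C w) := by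
  obtain ⟨r, hr⟩ := h.1
  obtain ⟨x, hx⟩ := (hC r hr).1
  have hsub : ∀ w ∈ S, C w ⊆ ⋃ w ∈ S, C w := fun w hw y hy => Set.mem_biUnion hw hy
  refine Conn.of_root (r := x) (hsub r hr hx) ?_
  have key := h.ind (P := fun w => ∀ y ∈ C w, Rch G (⋃ w ∈ S, C w) x y) hr
    (fun y hy => ((hC r hr).2 x hx y hy).mono (hsub r hr)) (by
      intro a ha b hb hab h1 y hy
      obtain ⟨p, hp, q, hq, hpq⟩ := ht a ha b hb hab
      exact ((h1 p hp).tail hpq (hsub b hb hq)).trans
        (((hC b hb).2 q hq y hy).mono (hsub b hb)))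
  intro v hv
  obtain ⟨w, hw, hv⟩ := Set.mem_iUnion₂.1 hv
  exact key w hw v hv

lemma conn_iff_induce (S : Set V) : Conn G S ↔ (G.induce S).Connected := by
  constructor
  · intro h
    obtain ⟨r, hr⟩ := h.1
    have : Nonempty S := ⟨⟨r, hr⟩⟩
    refine ⟨fun u v => ?_⟩
    have key := h.ind (P := fun w => ∀ hw : w ∈ S, (G.induce S).Reachable u ⟨w, hw⟩) u.2
      (fun _ => SimpleGraph.Reachable.refl _) (by
        intro a ha b hb hab h1 hb'
        exact (h1 ha).trans (SimpleGraph.Adj.reachable (by simpa using hab)))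
    exact key v.1 v.2 v.2
  · intro h
    obtain ⟨⟨r, hr⟩⟩ := h.nonempty
    refine Conn.of_root hr fun v hv => ?_
    have := h.preconnected ⟨r, hr⟩ ⟨v, hv⟩
    rw [SimpleGraph.reachable_iff_reflTransGen] at this
    have key : ∀ w : S, ReflTransGen (G.induce S).Adj ⟨r, hr⟩ w → Rch G S r w.1 := by
      intro w hw
      induction hw with
      | refl => exact Rch.refl _ _
      | tail _ h2 ih => exact ih.tail (by simpa using h2) (Subtype.prop _)
    exact key _ this

/-- extend disjoint connected seeds to a partition of `S` into connected sets -/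
lemma voronoi {ι : Type} [Finite ι] (G : SimpleGraph V) (S : Set V) (M : ι → Set V)
    (hM : ∀ i, Conn G (M i)) (hMS : ∀ i, M i ⊆ S) (hd : ∀ i j, i ≠ j → Disjoint (M i) (M j))
    (hr : ∀ v ∈ S, ∃ i, ∃ y ∈ M i, Rch G S y v) :
    ∃ K : ι → Set V, (∀ i, M i ⊆ K i ∧ K i ⊆ S ∧ Conn G (K i)) ∧
      (∀ i j, i ≠ j → Disjoint (K i) (K j)) ∧ ∀ v ∈ S, ∃ i, v ∈ K i := by
  classical
  obtain ⟨n, ⟨e⟩⟩ := Finite.exists_equiv_fin ι
  let R : ι → V → Prop := fun i v => ∃ y ∈ M i, Rch G (S \ ⋃ i, M i) y v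
  let K : ι → Set V := fun i => {v | R i v ∧ ∀ j, R j v → e i ≤ e j}
  have hMK : ∀ i, M i ⊆ K i := by
    intro i y hy
    refine ⟨⟨y, hy, Rch.refl _ _⟩, ?_⟩
    rintro j ⟨z, hz, h⟩
    rcases ReflTransGen.cases_tail h with h | ⟨c, _, h⟩
    · subst h
      by_cases hij : i = j
      · rw [hij]
      · exact absurd hz (Set.disjoint_left.1 (hd i j hij) hy)
    · exact absurd (Set.mem_iUnion.2 ⟨i, hy⟩) h.2.2
  refine ⟨K, fun i => ⟨hMK i, ?_, ?_⟩, ?_, ?_⟩
  · rintro v ⟨⟨y, hy, h⟩, -⟩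
    exact (h.mono Set.sdiff_subset).mem (hMS i hy)
  · obtain ⟨r, hr⟩ := (hM i).1
    refine Conn.of_root (hMK i hr) ?_
    rintro v ⟨⟨y, hy, h⟩, h2⟩
    refine (((hM i).2 r hr y hy).mono (hMK i)).trans ?_
    induction h with
    | refl => exact Rch.refl _ _
    | @tail a b h1 h3 ih =>
      refine (ih ?_).tail h3.1 ⟨⟨y, hy, Rch.tail h1 h3.1 h3.2⟩, h2⟩
      rintro j ⟨z, hz, h4⟩
      exact h2 j ⟨z, hz, h4.tail h3.1 h3.2⟩
  · intro i j hij
    rw [Set.disjoint_left]
    rintro v ⟨h1, h2⟩ ⟨h3, h4⟩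
    exact hij (e.injective (le_antisymm (h2 j h3) (h4 i h1)))
  · intro v hv
    have h1 : ∃ i, R i v := by
      obtain ⟨i, y, hy, h⟩ := hr v hv
      clear hv
      induction h with
      | refl => exact ⟨i, y, hy, Rch.refl _ _⟩
      | @tail a b h1 h3 ih =>
        by_cases hb : b ∈ ⋃ i, M i
        · obtain ⟨j, hj⟩ := Set.mem_iUnion.1 hb
          exact ⟨j, b, hj, Rch.refl _ _⟩
        · obtain ⟨j, z, hz, h4⟩ := ih
          exact ⟨j, z, hz, h4.tail h3.1 ⟨h3.2, hb⟩⟩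
    obtain ⟨i, hi, hmin⟩ := Set.exists_min_image {i | R i v} e (Set.toFinite _) h1
    exact ⟨i, hi, hmin⟩

/-- a finite connected set has a connected section along a map with edge lifting -/
lemma exists_section {H : SimpleGraph W} (p : W → V) (hp : Function.Surjective p)
    (hl : ∀ a b, G.Adj (p a) b → ∃ c, H.Adj a c ∧ p c = b) {S : Set V} (hS : Conn G S)
    (hf : S.Finite) : ∃ s : V → W, (∀ v ∈ S, p (s v) = v) ∧ Conn H (s '' S) := by
  classical
  obtain ⟨r, hr⟩ := hS.1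
  obtain ⟨r', hr'⟩ := hp r
  have hfin : {T | T ⊆ S ∧ r ∈ T ∧ ∃ s : V → W, (∀ v ∈ T, p (s v) = v) ∧ Conn H (s '' T)}.Finite :=
    hf.finite_subsets.subset fun T hT => hT.1
  obtain ⟨T, ⟨hTS, hrT, s, hs, hc⟩, hmax⟩ := hfin.exists_maximal ⟨{r}, by simpa using hr, rfl,
    fun _ => r', by simpa using hr', by simpa using Conn.singleton H r'⟩
  have hall : ∀ v ∈ S, v ∈ T := by
    refine hS.ind hr hrT ?_
    intro a _ b hb hab ha
    by_contra hbT
    obtain ⟨c, hc1, hc2⟩ := hl (s a) b (by rw [hs a ha]; exact hab)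
    have himg : Function.update s b c '' T = s '' T := by
      apply Set.image_congr
      intro v hv
      exact Function.update_of_ne (fun h : v = b => hbT (h ▸ hv)) _ _
    have : insert b T ⊆ T := by
      refine hmax ⟨Set.insert_subset hb hTS, Or.inr hrT, Function.update s b c, ?_, ?_⟩
        (Set.subset_insert _ _)
      · rintro v (rfl | hv)
        · simp [hc2]
        · rw [Function.update_of_ne (fun h : v = b => hbT (h ▸ hv))]; exact hs v hv
      · rw [Set.image_insert_eq, himg, Function.update_self, Set.insert_eq]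
        exact (Conn.singleton H c).union_adj hc rfl ⟨a, ha, rfl⟩ hc1.symm
    exact hbT (this (Set.mem_insert _ _))
  have : T = S := Set.Subset.antisymm hTS hall
  subst this
  exact ⟨s, hs, hc⟩

/-- disjoint connected branch sets indexed by `T` -/
structure ModelOn (G : SimpleGraph V) (T : Set J) (B : J → Set V) : Prop where
  conn : ∀ j ∈ T, Conn G (B j)
  disj : ∀ i ∈ T, ∀ j ∈ T, i ≠ j → Disjoint (B i) (B j)

/-- `H` is a minor of `G` -/
def IsMinor (H : SimpleGraph W) (G : SimpleGraph V) : Prop :=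
  ∃ B : W → Set V, ModelOn G Set.univ B ∧ ∀ i j, H.Adj i j → Touch G (B i) (B j)

lemma IsMinor.trans {U : Type} {K : SimpleGraph U} {H : SimpleGraph W} (h1 : IsMinor K H)
    (h2 : IsMinor H G) : IsMinor K G := by
  obtain ⟨B, hB, hB2⟩ := h1
  obtain ⟨C, hC, hC2⟩ := h2
  refine ⟨fun i => ⋃ w ∈ B i, C w, ⟨fun i hi => ?_, fun i hi j hj hij => ?_⟩, fun i j hij => ?_⟩
  · exact (hB.conn i hi).biUnion C (fun w _ => hC.conn w trivial) fun a _ b _ h => hC2 a b h
  · rw [Set.disjoint_left]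
    intro v hv hv'
    obtain ⟨w, hw, hv⟩ := Set.mem_iUnion₂.1 hv
    obtain ⟨w', hw', hv'⟩ := Set.mem_iUnion₂.1 hv'
    by_cases h : w = w'
    · subst h; exact Set.disjoint_left.1 (hB.disj i hi j hj hij) hw hw'
    · exact Set.disjoint_left.1 (hC.disj w trivial w' trivial h) hv hv'
  · obtain ⟨x, hx, y, hy, h⟩ := hB2 i j hij
    exact (hC2 x y h).mono (fun v hv => Set.mem_biUnion hx hv) (fun v hv => Set.mem_biUnion hy hv)

lemma IsMinor.of_inj {H : SimpleGraph W} (f : W → V) (hf : Function.Injective f)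
    (h : ∀ a b, H.Adj a b → G.Adj (f a) (f b)) : IsMinor H G :=
  ⟨fun w => {f w}, ⟨fun _ _ => Conn.singleton _ _, fun i _ j _ hij => by
    simpa using fun h => hij (hf h)⟩, fun i j hij => ⟨_, rfl, _, rfl, h i j hij⟩⟩

/-- the graph of touching branch sets -/
def tg (G : SimpleGraph V) (B : J → Set V) : SimpleGraph J where
  Adj i j := i ≠ j ∧ Touch G (B i) (B j)
  symm := ⟨fun _ _ h => ⟨h.1.symm, h.2.symm⟩⟩
  loopless := ⟨fun _ h => h.1 rfl⟩

lemma tg_minor {B : J → Set V} (h : ModelOn G Set.univ B) : IsMinor (tg G B) G :=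
  ⟨B, h, fun _ _ h => h.2⟩

/-- number of ordered adjacent pairs -/
noncomputable def dn (G : SimpleGraph V) : ℕ := {p : V × V | G.Adj p.1 p.2}.ncard

lemma dn_eq [Finite V] (G : SimpleGraph V) : dn G = 2 * Nat.card G.edgeSet := by
  classical
  have := Fintype.ofFinite V
  have h := G.dart_card_eq_twice_card_edges
  rw [SimpleGraph.edgeFinset_card, ← Nat.card_eq_fintype_card, ← Nat.card_eq_fintype_card] at h
  rw [← h, dn, ← Nat.card_coe_set_eq]
  exact Nat.card_congr ⟨fun p => ⟨p.1, p.2⟩, fun d => ⟨d.toProd, d.adj⟩, fun _ => rfl, fun _ => rfl⟩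

/-- ordered touching pairs of branch sets -/
def tp (G : SimpleGraph V) (T : Set J) (B : J → Set V) : Set (J × J) :=
  {p | p.1 ∈ T ∧ p.2 ∈ T ∧ p.1 ≠ p.2 ∧ Touch G (B p.1) (B p.2)}

lemma dn_tg_sub (T : Set J) (B : J → Set V) :
    dn (tg G (fun j : T => B j)) = (tp G T B).ncard := by
  rw [dn, ← Set.ncard_image_of_injective _
    (f := fun p : T × T => ((p.1 : J), (p.2 : J)))
    (Subtype.val_injective.prodMap Subtype.val_injective)]
  congr 1
  ext ⟨a, b⟩
  constructor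
  · rintro ⟨⟨x, y⟩, h, h2⟩
    obtain ⟨rfl, rfl⟩ := Prod.mk.inj h2
    exact ⟨x.2, y.2, fun h' => h.1 (Subtype.ext h'), h.2⟩
  · rintro ⟨h1, h2, h3, h4⟩
    exact ⟨(⟨a, h1⟩, ⟨b, h2⟩), ⟨fun h' => h3 (congrArg Subtype.val h'), h4⟩, rfl⟩

lemma ModelOn.sub {T : Set J} {B : J → Set V} (h : ModelOn G T B) :
    ModelOn G Set.univ (fun j : T => B j) :=
  ⟨fun j _ => h.conn j j.2, fun i _ j _ hij => h.disj i i.2 j j.2 fun h' => hij (Subtype.ext h')⟩

/-- every finite minor has at most `β` edges per vertex -/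
def Bal (β : ℝ) (G : SimpleGraph V) : Prop :=
  ∀ (W : Type) [Finite W] (H : SimpleGraph W), IsMinor H G → (dn H : ℝ) ≤ 2 * β * Nat.card W

lemma Bal.on {β : ℝ} (h : Bal β G) [Finite J] {T : Set J} {B : J → Set V} (hB : ModelOn G T B) :
    ((tp G T B).ncard : ℝ) ≤ 2 * β * T.ncard := by
  rw [← dn_tg_sub, ← Nat.card_coe_set_eq]
  exact h _ _ (tg_minor hB.sub)

lemma Bal.of_model {β : ℝ}
    (h : ∀ (J : Type) [Finite J] (B : J → Set V), ModelOn G Set.univ B →
      ((tp G Set.univ B).ncard : ℝ) ≤ 2 * β * Nat.card J) : Bal β G := by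
  intro W _ H ⟨B, hB, hB2⟩
  refine le_trans ?_ (h W B hB)
  have : {p : W × W | H.Adj p.1 p.2} ⊆ tp G Set.univ B :=
    fun p hp => ⟨trivial, trivial, SimpleGraph.Adj.ne hp, hB2 _ _ hp⟩
  exact_mod_cast Set.ncard_le_ncard this (Set.toFinite _)

end Pool.Agent.MP_c60df9_co.H39
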