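import Pool.Agent.MP_c60df9_co.H39.Occ

set_option autoImplicit false

namespace Pool.Agent.MP_c60df9_co.H39

open Relation

variable {V : Type} {G : SimpleGraph V} {β : ℝ} {C : ∀ V : Type, SimpleGraph V → Prop}

/-- potential -/
noncomputable def Pot (G : SimpleGraph V) (γ : ℝ) (A : Set V) : ℝ := dIn G A - γ * A.ncard

/-- one step of a chain of cuts of order less than `s` with gap at most `L` -/
def Step (G : SimpleGraph V) (s L : ℕ) (p q : Set V × Set V) : Prop :=
  Cut G p.1 p.2 ∧ Cut G q.1 q.2 ∧ Nest p.1 p.2 q.1 q.2 ∧ p.2.ncard < s ∧ q.2.ncard < s ∧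
    q.1.ncard ≤ p.1.ncard + L

/-- a linked step of order `s` -/
def Good (G : SimpleGraph V) (s L : ℕ) (p q : Set V × Set V) : Prop :=
  Step G (s + 1) L p q ∧ ∀ D Z, Cut G D Z → Nest p.1 p.2 D Z → Nest D Z q.1 q.2 → s ≤ Z.ncard

lemma Cls.dIn_le (hC : Cls β C) (hG : C V G) (T : Set V) : (dIn G T : ℝ) ≤ 2 * β * T.ncard := by
  have := hC.fin _ _ hG
  have h := hC.bd _ _ (hC.minor V T G (G.comap Subtype.val) hG
    (IsMinor.of_inj Subtype.val Subtype.val_injective fun _ _ h => h))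
  rw [Nat.card_coe_set_eq] at h
  refine le_trans ?_ h
  have : dIn G T ≤ dn (G.comap (Subtype.val : T → V)) := by
    refine le_trans (Set.ncard_le_ncard ?_)
      (Set.ncard_image_le (f := fun p : T × T => (p.1.1, p.2.1)))
    rintro ⟨a, b⟩ ⟨h, h1, h2⟩
    exact ⟨(⟨a, h1⟩, ⟨b, h2⟩), h, rfl⟩
  exact_mod_cast this

lemma Cls.pot_le (hC : Cls β C) (hG : C V G) {A S A' : Set V} (hc : Cut G A S) (hA : A ⊆ A') :
    Pot G (2 * β) A' - Pot G (2 * β) A ≤ 2 * β * S.ncard := by
  have := hC.fin _ _ hG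
  have h1 : dIn G A' ≤ dIn G A + dIn G ((A' \ A) ∪ S) := by
    refine le_trans (Set.ncard_le_ncard ?_) (Set.ncard_union_le _ _)
    rintro ⟨x, y⟩ ⟨h, hx, hy⟩
    by_cases hxA : x ∈ A <;> by_cases hyA : y ∈ A
    · exact Or.inl ⟨h, hxA, hyA⟩
    · exact Or.inr ⟨h, Or.inr (by by_contra hh; exact hyA (hc.cl _ hxA hh _ h)), Or.inl ⟨hy, hyA⟩⟩
    · exact Or.inr ⟨h, Or.inl ⟨hx, hxA⟩,
        Or.inr (by by_contra hh; exact hxA (hc.cl _ hyA hh _ h.symm))⟩
    · exact Or.inr ⟨h, Or.inl ⟨hx, hxA⟩, Or.inl ⟨hy, hyA⟩⟩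
  have h2 := hC.dIn_le hG ((A' \ A) ∪ S)
  rw [Set.ncard_union_eq (Set.disjoint_left.2 fun v hv hv' => hv.2 (hc.sub hv'))] at h2
  have h3 := Set.ncard_sdiff_add_ncard_of_subset hA
  have h1' : ((_ : ℕ) : ℝ) ≤ _ := Nat.cast_le.2 h1
  have h3' : ((_ : ℕ) : ℝ) = _ := congrArg Nat.cast h3
  push_cast at h1' h2 h3'
  simp only [Pot]
  rw [← h3']
  linarith

lemma exists_gap {T : Type} [Finite T] (f : T → ℝ) : ∃ δ, 0 < δ ∧ ∀ t, f t < 0 → f t ≤ -δ := by
  by_cases h : ∃ t, f t < 0
  · obtain ⟨t, ht, hm⟩ := Set.exists_max_image {t | f t < 0} f (Set.toFinite _) h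
    exact ⟨-f t, by simpa using ht, fun u hu => by simpa using hm u hu⟩
  · exact ⟨1, one_pos, fun t ht => absurd ⟨t, ht⟩ h⟩

lemma linked_bound (hC : Cls β C)
    (hno : ∀ s l (τ : Ty s l), 1 ≤ l → 2 * β * l ≤ τ.per.wt → ¬ Rec C τ) (s L : ℕ) :
    ∃ η, 0 < η ∧ ∃ K, 0 ≤ K ∧ ∀ (V : Type) (G : SimpleGraph V), C V G → ∀ p q,
      ReflTransGen (Good G s L) p q → Pot G (2 * β - η) q.1 - Pot G (2 * β - η) p.1 ≤ K := by
  classical
  let T := Σ l : Fin (L + 1), Ty s l
  have : Fintype T := Fintype.ofFinite T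
  let f : T → ℝ := fun τ => τ.2.per.wt - 2 * β * (τ.1 : ℕ)
  let Pos : T → Prop := fun τ => 1 ≤ (τ.1 : ℕ) ∧ 0 ≤ f τ
  obtain ⟨δ, hδ, hf⟩ := exists_gap f
  obtain ⟨M, hM⟩ := (Set.finite_range f).bddAbove
  have hN : ∀ τ : T, ∃ N : ℕ, Pos τ → ∀ N', N ≤ N' → ∀ (V : Type) (G : SimpleGraph V) A a,
      C V G → ¬ Occ τ.2 N' G A a := by
    intro τ
    by_cases h : Pos τ
    · have := hno s _ τ.2 h.1 (sub_nonneg.1 h.2)
      unfold Rec at this
      push Not at this
      obtain ⟨N, hN⟩ := this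
      exact ⟨N, fun _ => hN⟩
    · exact ⟨0, fun h' => absurd h' h⟩
  choose N hN using hN
  have hL : (0 : ℝ) < L + 1 := by positivity
  set η := δ / (L + 1) with hη
  have hη0 : 0 < η := by positivity
  have hηL : η * (L + 1) = δ := by rw [hη]; field_simp
  have hK : 0 ≤ |M| + δ := by positivity
  refine ⟨η, hη0, (|M| + δ) * ∑ τ, (N τ : ℝ), by positivity, fun V G hG p q h => ?_⟩
  have := hC.fin _ _ hG
  rcases h.cases_head with rfl | ⟨c, hc, -⟩
  · simp only [sub_self]; positivity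
  have hp : p.2.ncard = s :=
    le_antisymm (Nat.lt_succ_iff.1 hc.1.2.2.2.1) (hc.2 _ _ hc.1.1 (Nest.refl _ _) hc.1.2.2.1)
  have inv : ∃ a : Fin s → V, Function.Injective a ∧ Set.range a = q.2 ∧ ∃ cnt : T → ℕ,
      (∀ τ, Occ τ.2 (cnt τ) G q.1 a) ∧ Pot G (2 * β - η) q.1 - Pot G (2 * β - η) p.1 ≤
        (|M| + δ) * ∑ τ, if Pos τ then (cnt τ : ℝ) else 0 := by
    induction h with
    | refl =>
      let e : p.2 ≃ Fin s := Finite.equivFinOfCardEq (by rw [Nat.card_coe_set_eq, hp])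
      have hi : Function.Injective fun j => (e.symm j).1 :=
        Subtype.val_injective.comp e.symm.injective
      have hr : Set.range (fun j => (e.symm j).1) = p.2 := by
        ext v
        exact ⟨fun ⟨u, h⟩ => h ▸ (e.symm u).2, fun h => ⟨e ⟨v, h⟩, by simp⟩⟩
      exact ⟨_, hi, hr, fun _ => 0, fun τ => Occ.zero _ hi (hr.subset.trans hc.1.1.sub), by simp⟩
    | @tail m q _ hs ih =>
      obtain ⟨a, ha, hr, cnt, h1, h2⟩ := ih
      obtain ⟨⟨c1, c2, hn, o1, o2, hg⟩, hm⟩ := hs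
      have e1 : m.2.ncard = s :=
        le_antisymm (Nat.lt_succ_iff.1 o1) (hm _ _ c1 (Nest.refl _ _) hn)
      have e2 : q.2.ncard = s :=
        le_antisymm (Nat.lt_succ_iff.1 o2) (hm _ _ c2 hn (Nest.refl _ _))
      obtain ⟨t, hl, him⟩ := menger c1 c2 hn (e2.trans e1.symm) (e1 ▸ hm)
      rw [← hr] at hl him hn c1
      have ha' : Function.Injective (t ∘ a) := fun i j e => ha (hl.injOn ⟨i, rfl⟩ ⟨j, rfl⟩ e)
      have h3 := Set.ncard_sdiff_add_ncard_of_subset hn.sub
      obtain ⟨τ, hτ⟩ := exists_rz (l := (q.1 \ m.1).ncard) hn c2.sub hl rfl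
      let τ0 : T := ⟨⟨(q.1 \ m.1).ncard, by omega⟩, τ⟩
      have hw : ((_ : ℕ) : ℝ) ≤ _ := Nat.cast_le.2 (hτ.wt c1 ha')
      have h3' : ((_ : ℕ) : ℝ) = _ := congrArg Nat.cast h3
      have hlL : (((q.1 \ m.1).ncard : ℕ) : ℝ) ≤ L := Nat.cast_le.2 (by omega)
      push_cast at hw h3'
      have hd : Pot G (2 * β - η) q.1 - Pot G (2 * β - η) m.1 ≤
          f τ0 + η * (q.1 \ m.1).ncard := by
        simp only [Pot, f, τ0]
        rw [← h3']
        linarith
      have hηl : η * (q.1 \ m.1).ncard ≤ δ := by nlinarith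
      refine ⟨t ∘ a, ha', by rw [Set.range_comp, him], ?_⟩
      by_cases hP : Pos τ0
      · refine ⟨Function.update cnt τ0 (cnt τ0 + 1), fun σ => ?_, ?_⟩
        · by_cases hσ : σ = τ0
          · subst hσ
            rw [Function.update_self]
            exact (h1 _).seg hn.sub hτ
          · rw [Function.update_of_ne hσ]
            exact (h1 σ).link hn.sub c1.sub hl
        · have : (∑ σ, if Pos σ then ((Function.update cnt τ0 (cnt τ0 + 1) σ : ℕ) : ℝ) else 0) =
              (∑ σ, if Pos σ then (cnt σ : ℝ) else 0) + 1 := by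
            rw [← Finset.add_sum_erase _ _ (Finset.mem_univ τ0),
              ← Finset.add_sum_erase _ _ (Finset.mem_univ τ0), Function.update_self, if_pos hP,
              if_pos hP, Finset.sum_congr rfl fun σ hσ => by
                rw [Function.update_of_ne (Finset.ne_of_mem_erase hσ)]]
            push_cast; ring
          rw [this]
          have := (hM ⟨τ0, rfl⟩).trans (le_abs_self M)
          linarith
      · refine ⟨cnt, fun σ => (h1 σ).link hn.sub c1.sub hl, ?_⟩
        by_cases h0 : (q.1 \ m.1).ncard = 0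
        · have : q.1 = m.1 := Set.Subset.antisymm
            (Set.sdiff_eq_empty.1 ((Set.ncard_eq_zero (Set.toFinite _)).1 h0)) hn.sub
          rw [this]; exact h2
        · have := hf τ0 (by
            by_contra hh
            exact hP ⟨Nat.one_le_iff_ne_zero.2 h0, not_lt.1 hh⟩)
          linarith
  obtain ⟨a, -, -, cnt, h1, h2⟩ := inv
  refine h2.trans (mul_le_mul_of_nonneg_left (Finset.sum_le_sum fun τ _ => ?_) hK)
  split_ifs with hP
  · by_contra hh
    exact hN τ hP _ (by exact_mod_cast (not_le.1 hh).le) V G _ _ hG (h1 τ)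
  · positivity

lemma pot_eq (η η' : ℝ) (A A' : Set V) :
    Pot G (2 * β - η) A' - Pot G (2 * β - η) A =
      Pot G (2 * β - η') A' - Pot G (2 * β - η') A + (η - η') * (A'.ncard - A.ncard) := by
  simp only [Pot]; ring

theorem chain_bound (hC : Cls β C) (hβ : 0 ≤ β)
    (hno : ∀ s l (τ : Ty s l), 1 ≤ l → 2 * β * l ≤ τ.per.wt → ¬ Rec C τ) (s : ℕ) : ∀ L : ℕ,
    ∃ η, 0 < η ∧ ∃ K, 0 ≤ K ∧ ∀ (V : Type) (G : SimpleGraph V), C V G → ∀ p q,
      ReflTransGen (Step G s L) p q → Pot G (2 * β - η) q.1 - Pot G (2 * β - η) p.1 ≤ K := by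
  induction s with
  | zero =>
    intro L
    refine ⟨1, one_pos, 0, le_rfl, fun V G _ p q h => ?_⟩
    rcases h.cases_head with rfl | ⟨c, hc, -⟩
    · simp
    · exact absurd hc.2.2.2.1 (Nat.not_lt_zero _)
  | succ s ih =>
    intro L
    obtain ⟨η1, h1, K1, k1, H1⟩ := linked_bound hC hno s L
    set C0 : ℝ := 2 * β * s + η1 * L with hC0
    have c0 : 0 ≤ C0 := by positivity
    obtain ⟨L2, hL2⟩ := exists_nat_ge (2 * (K1 + 2 * C0 + (2 * β * s + 1)) / η1)
    rw [div_le_iff₀ h1] at hL2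
    obtain ⟨η2, h2, K3, k3, H2⟩ := ih L2
    obtain ⟨η, h0, a1, a2, a3⟩ : ∃ η, 0 < η ∧ η ≤ η1 / 2 ∧ η ≤ η2 / 2 ∧ η * (2 * K3) ≤ η2 := by
      refine ⟨min (η1 / 2) (min (η2 / 2) (η2 / (2 * K3 + 1))), by positivity, min_le_left _ _,
        (min_le_right _ _).trans (min_le_left _ _), ?_⟩
      have : min (η1 / 2) (min (η2 / 2) (η2 / (2 * K3 + 1))) ≤ η2 / (2 * K3 + 1) :=
        (min_le_right _ _).trans (min_le_right _ _)
      rw [le_div_iff₀ (by positivity)] at this
      have h3 : 0 < min (η1 / 2) (min (η2 / 2) (η2 / (2 * K3 + 1))) := by positivity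
      nlinarith
    refine ⟨η, h0, 2 * (K1 + C0) + (2 * β * s + 1), by positivity, fun V G hG p q h => ?_⟩
    have := hC.fin _ _ hG
    have mono : ∀ {A A' : Set V}, A ⊆ A' → (0 : ℝ) ≤ A'.ncard - A.ncard := fun h =>
      sub_nonneg.2 (Nat.cast_le.2 (Set.ncard_le_ncard h))
    have short : ∀ {A S A' : Set V}, Cut G A S → A ⊆ A' → S.ncard < s + 1 →
        A'.ncard ≤ A.ncard + L → Pot G (2 * β - η1) A' - Pot G (2 * β - η1) A ≤ C0 := by
      intro A S A' hc hA hS hL
      have b1 := hC.pot_le hG hc hA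
      have b2 : (S.ncard : ℝ) ≤ s := Nat.cast_le.2 (Nat.lt_succ_iff.1 hS)
      have b3 : ((_ : ℕ) : ℝ) ≤ _ := Nat.cast_le.2 hL
      push_cast at b3
      rw [pot_eq η1 0, sub_zero, sub_zero]
      nlinarith [mul_le_mul_of_nonneg_left b2 hβ]
    have gsub : ∀ {m q}, ReflTransGen (Good G s L) m q → Nest m.1 m.2 q.1 q.2 := by
      intro m q h
      induction h with
      | refl => exact Nest.refl _ _
      | tail _ h ih => exact ih.trans h.1.2.2.1
    have ssub : ∀ {m q}, ReflTransGen (Step G s L2) m q → m.1 ⊆ q.1 := by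
      intro m q h
      induction h with
      | refl => exact subset_rfl
      | tail _ h ih => exact ih.trans h.2.2.1.sub
    have bp : ∀ {b d}, ReflTransGen (Step G s L2) b d →
        Pot G (2 * β - η) d.1 - Pot G (2 * β - η) b.1 ≤ 2 * β * s + 1 := by
      intro b d h
      have b0 := mono (ssub h)
      have b1 := H2 V G hG b d h
      rcases h.cases_head with rfl | ⟨c, hc, -⟩
      · simp only [sub_self]; positivity
      have b2 := hC.pot_le hG hc.1 (ssub h)
      have b3 : (b.2.ncard : ℝ) ≤ s := Nat.cast_le.2 hc.2.2.2.1.le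
      have b4 := mul_le_mul_of_nonneg_left b3 hβ
      by_cases hn : η * ((d.1.ncard : ℝ) - b.1.ncard) ≤ 1
      · rw [pot_eq η 0, sub_zero, sub_zero]
        linarith
      · rw [pot_eq η η2]
        have b5 : 2 * K3 ≤ η2 * ((d.1.ncard : ℝ) - b.1.ncard) := by
          by_contra hh
          have := mul_lt_mul_of_pos_left (not_le.1 hh) h0
          nlinarith
        have : 0 ≤ 2 * β * s := by positivity
        nlinarith
    have inv : ReflTransGen (Good G s L) p q ∨ ∃ b d m : Set V × Set V,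
        Pot G (2 * β - η) b.1 - Pot G (2 * β - η) p.1 ≤ K1 + C0 ∧
        ReflTransGen (Step G s L2) b d ∧ Cut G d.1 d.2 ∧ d.2.ncard < s ∧ Nest d.1 d.2 m.1 m.2 ∧
        m.1.ncard ≤ d.1.ncard + L ∧ ReflTransGen (Good G s L) m q := by
      induction h with
      | refl => exact Or.inl ReflTransGen.refl
      | @tail r q _ hs ih =>
        by_cases hg : Good G s L r q
        · rcases ih with ih | ⟨b, d, m, i1, i2, i3, i4, i5, i6, i7⟩
          · exact Or.inl (ih.tail hg)
          · exact Or.inr ⟨b, d, m, i1, i2, i3, i4, i5, i6, i7.tail hg⟩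
        · obtain ⟨D, Z, z1, z2, z3, z4⟩ : ∃ D Z, Cut G D Z ∧ Nest r.1 r.2 D Z ∧
              Nest D Z q.1 q.2 ∧ Z.ncard < s := by
            by_contra hh
            push Not at hh
            exact hg ⟨hs, hh⟩
          have y1 := Set.ncard_le_ncard z2.sub
          have y2 := Set.ncard_le_ncard z3.sub
          have y3 := hs.2.2.2.2.2
          have y4 := short hs.1 z2.sub hs.2.2.2.1 (by omega)
          right
          rcases ih with ih | ⟨b, d, m, i1, i2, i3, i4, i5, i6, i7⟩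
          · refine ⟨(D, Z), (D, Z), q, ?_, ReflTransGen.refl, z1, z4, z3, by simp only; omega,
              ReflTransGen.refl⟩
            have y5 := H1 V G hG _ _ ih
            have y6 := mono ((gsub ih).sub.trans z2.sub)
            rw [pot_eq η η1]
            nlinarith
          · have n1 : Nest d.1 d.2 D Z := (i5.trans (gsub i7)).trans z2
            by_cases hs2 : D.ncard ≤ d.1.ncard + L2
            · exact ⟨b, (D, Z), q, i1, i2.tail ⟨i3, z1, n1, i4, z4, hs2⟩, z1, z4, z3,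
                by simp only; omega, ReflTransGen.refl⟩
            · refine ⟨(D, Z), (D, Z), q, ?_, ReflTransGen.refl, z1, z4, z3, by simp only; omega,
                ReflTransGen.refl⟩
              have y5 := H1 V G hG _ _ i7
              have y6 := short i3 i5.sub (by omega) i6
              have y7 := bp i2
              have y8 : ((_ : ℕ) : ℝ) ≤ _ := Nat.cast_le.2 (not_le.1 hs2).le
              push_cast at y8
              have y9 := pot_eq (G := G) (β := β) η η1 d.1 D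
              have : (η - η1) * ((D.ncard : ℝ) - d.1.ncard) ≤ -(η1 / 2) * L2 := by
                have : (0 : ℝ) ≤ L2 := Nat.cast_nonneg _
                nlinarith
              simp only
              linarith
    have hs0 : 0 ≤ 2 * β * s := by positivity
    rcases inv with ih | ⟨b, d, m, i1, i2, i3, i4, i5, i6, i7⟩
    · have y5 := H1 V G hG _ _ ih
      have y6 := mono (gsub ih).sub
      rw [pot_eq η η1]
      nlinarith
    · have y5 := H1 V G hG _ _ i7
      have y6 := short i3 i5.sub (by omega) i6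
      have y7 := bp i2
      have y8 := mono (i5.trans (gsub i7)).sub
      have y9 := pot_eq (G := G) (β := β) η η1 d.1 q.1
      nlinarith

end Pool.Agent.MP_c60df9_co.H39
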