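import Pool.Agent.MP_c60df9_co.H39.Tree

set_option autoImplicit false

namespace Pool.Agent.MP_c60df9_co.H39

open Relation

variable {V : Type} {G : SimpleGraph V} {β : ℝ} {C : ∀ V : Type, SimpleGraph V → Prop}

/-- a step whose gap is a bounded set together with a hanging part avoiding `Z` -/
def StepZ (G : SimpleGraph V) (W : ℕ) (Z : Set V) (p q : Set V × Set V) : Prop :=
  Cut G p.1 p.2 ∧ Cut G q.1 q.2 ∧ Nest p.1 p.2 q.1 q.2 ∧ p.2.ncard ≤ W ∧ q.2.ncard ≤ W ∧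
    ∃ U S, q.1 ⊆ p.1 ∪ (U ∪ S) ∧ Disjoint U Z ∧ (∀ x ∈ U, ∀ y, G.Adj x y → y ∈ U ∪ S) ∧
      S.ncard ≤ W + 2

lemma pow3 (n : ℕ) : n + 1 ≤ 3 ^ n ∧ (1 ≤ n → n + 2 ≤ 3 ^ n) := by
  induction n with
  | zero => simp
  | succ n ih => rw [pow_succ]; omega

lemma exists_chain [Finite V] [DecidableEq V] {W : ℕ} (t : BT (V × V)) :
    (∀ p ∈ t.set, G.Adj p.1 p.2) → t.Valid (lam G ∅) W → ∃ Z, Z ⊆ it G ∅ t.set ∧
      (it G ∅ t.set).ncard + 1 ≤ 3 ^ Z.ncard ∧ ∀ X, Disjoint X (it G ∅ t.set) →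
        ReflTransGen (StepZ G W (Z ∪ X)) (∅, ∅) (mt t.set, bd G ∅ t.set) := by
  have node : ∀ F F' : Finset (V × V), Disjoint F F' → (∀ p ∈ F, G.Adj p.1 p.2) →
      lam G ∅ F ≤ W → lam G ∅ F' ≤ W → lam G ∅ (F ∪ F') ≤ W →
      (it G ∅ F').ncard ≤ (it G ∅ F).ncard →
      (∃ Z, Z ⊆ it G ∅ F ∧ (it G ∅ F).ncard + 1 ≤ 3 ^ Z.ncard ∧ ∀ X, Disjoint X (it G ∅ F) →
        ReflTransGen (StepZ G W (Z ∪ X)) (∅, ∅) (mt F, bd G ∅ F)) →
      ∃ Z, Z ⊆ it G ∅ (F ∪ F') ∧ (it G ∅ (F ∪ F')).ncard + 1 ≤ 3 ^ Z.ncard ∧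
        ∀ X, Disjoint X (it G ∅ (F ∪ F')) →
        ReflTransGen (StepZ G W (Z ∪ X)) (∅, ∅) (mt (F ∪ F'), bd G ∅ (F ∪ F')) := by
    rintro F F' hd hF w1 w2 w3 hle ⟨Z, z1, z2, z3⟩
    obtain ⟨E, e1, e2, e3⟩ : ∃ E, E ⊆ it G ∅ F' ∧ E.ncard ≤ 1 ∧ (E = ∅ → it G ∅ F' = ∅) := by
      rcases (it G ∅ F').eq_empty_or_nonempty with h | ⟨z, hz⟩
      · exact ⟨∅, by simp, by simp, fun _ => h⟩
      · exact ⟨{z}, by simpa using hz, by simp, by simp⟩
    have k1 := (it_split (Z := ∅) hd hF).1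
    have l1 : it G ∅ F ⊆ it G ∅ (F ∪ F') := it_mono Finset.subset_union_left
    have l2 : it G ∅ F' ⊆ it G ∅ (F ∪ F') := it_mono Finset.subset_union_right
    let Y := it G ∅ (F ∪ F') \ (it G ∅ F ∪ (it G ∅ F' \ E))
    have y1 : Disjoint Z Y := Set.disjoint_left.2 fun v hv hv' => hv'.2 (Or.inl (z1 hv))
    refine ⟨Z ∪ Y, Set.union_subset (z1.trans l1) Set.sdiff_subset, ?_, fun X hX => ?_⟩
    · rw [Set.ncard_union_eq y1, pow_add]
      have y2 : (it G ∅ (F ∪ F')).ncard ≤ Y.ncard + ((it G ∅ F).ncard + (it G ∅ F' \ E).ncard) :=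
        le_trans (Set.ncard_le_ncard fun v hv => by
          by_cases h : v ∈ it G ∅ F ∪ (it G ∅ F' \ E)
          exacts [Or.inr h, Or.inl ⟨hv, h⟩]) ((Set.ncard_union_le _ _).trans
          (Nat.add_le_add_left (Set.ncard_union_le _ _) _))
      by_cases h0 : Y.ncard = 0
      · have : E = ∅ := Set.eq_empty_of_forall_notMem fun v hv => by
          have : v ∈ Y := ⟨l2 (e1 hv), fun h => h.elim
            (fun h => Set.disjoint_left.1 k1 h (e1 hv)) fun h => h.2 hv⟩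
          rw [(Set.ncard_eq_zero (Set.toFinite _)).1 h0] at this
          exact this
        rw [e3 this, h0] at y2
        simp at y2
        rw [h0]; omega
      · have y3 := (pow3 Y.ncard).2 (by omega)
        have y4 := (Set.ncard_le_ncard (Set.sdiff_subset (s := it G ∅ F') (t := E))).trans hle
        have y5 := Nat.mul_le_mul z2 y3
        nlinarith
    · have := z3 (Y ∪ X) (Set.disjoint_left.2 fun v hv hv' => hv.elim
        (fun h => h.2 (Or.inl hv')) fun h => Set.disjoint_left.1 hX h (l1 hv'))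
      rw [← Set.union_assoc] at this
      refine this.tail ⟨cut_mt, cut_mt, nest_mt Finset.subset_union_left, w1, w3,
        it G ∅ F' \ E, bd G ∅ F' ∪ E, ?_, ?_, ?_, ?_⟩
      · intro v hv
        rcases mt_union.subset hv with h | h
        · exact Or.inl h
        · rcases (it_bd (G := G) (Z := ∅)).superset h with h | h
          · by_cases hE : v ∈ E
            exacts [Or.inr (Or.inr (Or.inr hE)), Or.inr (Or.inl ⟨h, hE⟩)]
          · exact Or.inr (Or.inr (Or.inl h))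
      · rw [Set.disjoint_left]
        rintro v hv ((h | h) | h)
        · exact Set.disjoint_left.1 k1 (z1 h) hv.1
        · exact h.2 (Or.inr hv)
        · exact Set.disjoint_left.1 hX h (l2 hv.1)
      · intro x hx y hy
        rcases (it_bd (G := G) (Z := ∅)).superset (it_nb hx.1 hy) with h | h
        · by_cases hE : y ∈ E
          exacts [Or.inr (Or.inr hE), Or.inl ⟨h, hE⟩]
        · exact Or.inr (Or.inl h)
      · have := Set.ncard_union_le (bd G ∅ F') E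
        rw [lam_eq] at w2
        omega
  induction t with
  | leaf F =>
    intro _ h
    refine ⟨_, subset_rfl, (pow3 _).1, fun X _ => ReflTransGen.single
      ⟨⟨subset_rfl, by simp⟩, cut_mt, ⟨by simp, by simp⟩, by simp, h.2, ∅, mt F,
        fun v hv => Or.inr (Or.inr hv), by simp, by simp, (mt_le h.1).trans (by omega)⟩⟩
  | node l r il ir =>
    intro h1 h2
    have a1 : ∀ p ∈ l.set, G.Adj p.1 p.2 := fun p hp => h1 p (Finset.mem_union_left _ hp)
    have a2 : ∀ p ∈ r.set, G.Adj p.1 p.2 := fun p hp => h1 p (Finset.mem_union_right _ hp)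
    rcases le_total (it G ∅ r.set).ncard (it G ∅ l.set).ncard with h | h
    · exact node _ _ h2.1 a1 (valid_le h2.2.2.1) (valid_le h2.2.2.2) h2.2.1 h (il a1 h2.2.2.1)
    · have := node _ _ h2.1.symm a2 (valid_le h2.2.2.2) (valid_le h2.2.2.1)
        (by rw [Finset.union_comm]; exact h2.2.1) h (ir a2 h2.2.2.2)
      rwa [Finset.union_comm] at this

lemma exists_mid [Finite V] [DecidableEq V] {W : ℕ} (N : ℕ) (t : BT (V × V)) :
    (∀ p ∈ t.set, G.Adj p.1 p.2) → t.Valid (lam G ∅) W → N ≤ (it G ∅ t.set).ncard →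
    ∃ t' : BT (V × V), (∀ p ∈ t'.set, G.Adj p.1 p.2) ∧ t'.Valid (lam G ∅) W ∧
      N ≤ (it G ∅ t'.set).ncard ∧ (it G ∅ t'.set).ncard ≤ 2 * N + 2 * W + 2 := by
  induction t with
  | leaf F =>
    intro h1 h2 h3
    exact ⟨_, h1, h2, h3, ((Set.ncard_le_ncard Set.sdiff_subset).trans (mt_le h2.1)).trans
      (by omega)⟩
  | node l r il ir =>
    intro h1 h2 h3
    have a1 : ∀ p ∈ l.set, G.Adj p.1 p.2 := fun p hp => h1 p (Finset.mem_union_left _ hp)
    have a2 : ∀ p ∈ r.set, G.Adj p.1 p.2 := fun p hp => h1 p (Finset.mem_union_right _ hp)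
    by_cases hl : N ≤ (it G ∅ l.set).ncard
    · exact il a1 h2.2.2.1 hl
    by_cases hr : N ≤ (it G ∅ r.set).ncard
    · exact ir a2 h2.2.2.2 hr
    refine ⟨_, h1, h2, h3, ?_⟩
    have k := (Set.ncard_le_ncard (it_split (Z := ∅) h2.1 a1).2).trans (Set.ncard_union_le _ _)
    have k1 := valid_le h2.2.2.1
    have k2 := valid_le h2.2.2.2
    have k3 := Set.ncard_le_ncard_sdiff_add_ncard (it G ∅ (l.set ∪ r.set))
      (it G ∅ l.set ∪ it G ∅ r.set)
    have k4 := Set.ncard_union_le (it G ∅ l.set) (it G ∅ r.set)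
    rw [lam_eq] at k1 k2
    simp only [BT.set]
    omega

/-- indices of branch sets meeting `A` -/
def img {J : Type} (B : J → Set V) (A : Set V) : Set J := {j | ∃ v ∈ B j, v ∈ A}

section
variable {J : Type} {B : J → Set V}

lemma img_le [Finite V] (hB : ModelOn G Set.univ B) (S : Set V) : (img B S).ncard ≤ S.ncard := by
  choose f h1 h2 using fun j : img B S => j.2
  rw [← Nat.card_coe_set_eq, ← Nat.card_coe_set_eq]
  refine Nat.card_le_card_of_injective (fun j => ⟨f j, h2 j⟩) fun a b e => ?_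
  by_contra hh
  exact Set.disjoint_left.1 (hB.disj a trivial b trivial fun e => hh (Subtype.ext e)) (h1 a)
    (by rw [show f a = f b from congrArg Subtype.val e]; exact h1 b)

lemma conn_in {T A S : Set V} (hT : Conn G T) (hc : ∀ x ∈ A, x ∉ S → ∀ y, G.Adj x y → y ∈ A ∪ S)
    {v : V} (hv : v ∈ T) (hA : v ∈ A ∪ S) (hS : ∀ w ∈ T, w ∉ S) : T ⊆ A :=
  hT.ind (P := fun w => w ∈ A) hv (hA.resolve_right (hS v hv))
    fun a ha b hb h h' => (hc a h' (hS a ha) b h).resolve_right (hS b hb)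

lemma img_cut (hB : ModelOn G Set.univ B) {A S : Set V} (h : Cut G A S) :
    Cut (tg G B) (img B A) (img B S) := by
  refine ⟨fun j ⟨v, h1, h2⟩ => ⟨v, h1, h.sub h2⟩, ?_⟩
  rintro j ⟨v, h1, h2⟩ hj k ⟨-, x, hx, y, hy, hxy⟩
  have hS : ∀ w ∈ B j, w ∉ S := fun w hw hw' => hj ⟨w, hw, hw'⟩
  exact ⟨y, hy, h.cl x (conn_in (hB.conn j trivial) (fun x a b y c => Or.inl (h.cl x a b y c)) h1
    (Or.inl h2) hS hx) (hS x hx) y hxy⟩

lemma img_nest (hB : ModelOn G Set.univ B) {A S A' S' : Set V} (h : Cut G A S)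
    (hn : Nest A S A' S') : Nest (img B A) (img B S) (img B A') (img B S') := by
  refine ⟨fun j ⟨v, h1, h2⟩ => ⟨v, h1, hn.sub h2⟩, ?_⟩
  rintro j ⟨x, x1, x2⟩ ⟨v, h1, h2⟩
  by_contra hj
  have hS : ∀ w ∈ B j, w ∉ S := fun w hw hw' => hj ⟨w, hw, hw'⟩
  exact hS x x1 (hn.bd x x2 (conn_in (hB.conn j trivial)
    (fun x a b y c => Or.inl (h.cl x a b y c)) h1 (Or.inl h2) hS x1))

lemma img_step [Finite V] [Finite J] (hB : ModelOn G Set.univ B) {Z : Set V} {π : Z → J}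
    (hπ : ∀ v, v.1 ∈ B (π v)) {W K : ℕ}
    (hK : ∀ U S : Set J, Set.range π ⊆ Uᶜ → (∀ x ∈ U, ∀ y, (tg G B).Adj x y → y ∈ U ∪ S) →
      S.ncard ≤ W + 2 → U.ncard ≤ K) {p q : Set V × Set V} (h : StepZ G W Z p q) :
    Step (tg G B) (W + 1) (K + (W + 2)) (img B p.1, img B p.2) (img B q.1, img B q.2) := by
  obtain ⟨c1, c2, hn, o1, o2, U, S, u1, u2, u3, u4⟩ := h
  have key : ∀ k, ∀ y ∈ B k, y ∈ U ∪ S → k ∈ {j | B j ⊆ U} ∪ img B S := by
    intro k y hy hy'
    by_cases hk : k ∈ img B S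
    · exact Or.inr hk
    · exact Or.inl (conn_in (hB.conn k trivial) (fun x a _ => u3 x a) hy hy'
        fun w hw hw' => hk ⟨w, hw, hw'⟩)
  have k1 := (img_le hB S).trans u4
  have k2 := hK {j | B j ⊆ U} (img B S) (by
    rintro _ ⟨v, rfl⟩ hv
    exact Set.disjoint_left.1 u2 (hv (hπ v)) v.2) (by
    rintro j hj k ⟨-, x, hx, y, hy, hxy⟩
    exact key k y hy (u3 x (hj hx) y hxy)) k1
  refine ⟨img_cut hB c1, img_cut hB c2, img_nest hB c1 hn,
    Nat.lt_succ_of_le ((img_le hB _).trans o1), Nat.lt_succ_of_le ((img_le hB _).trans o2), ?_⟩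
  refine le_trans (Set.ncard_le_ncard (t := img B p.1 ∪ ({j | B j ⊆ U} ∪ img B S)) ?_)
    ((Set.ncard_union_le _ _).trans (Nat.add_le_add_left
      ((Set.ncard_union_le _ _).trans (Nat.add_le_add k2 k1)) _))
  rintro j ⟨v, h1, h2⟩
  exact (u1 h2).imp (fun h => ⟨v, h1, h⟩) (key j v h1)

end

lemma tg_single [Finite V] (A : Set V) : dIn G A ≤ dn (tg G fun j : A => {j.1}) := by
  refine le_trans (Set.ncard_le_ncard ?_)
    (Set.ncard_image_le (f := fun p : A × A => (p.1.1, p.2.1)))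
  rintro ⟨a, b⟩ ⟨h, h1, h2⟩
  exact ⟨(⟨a, h1⟩, ⟨b, h2⟩), ⟨fun e => h.ne (congrArg Subtype.val e), _, rfl, _, rfl, h⟩, rfl⟩

lemma model_single (A : Set V) : ModelOn G Set.univ fun j : A => {j.1} :=
  ⟨fun _ _ => Conn.singleton _ _, fun i _ j _ h => by simpa using fun e => h (Subtype.ext e)⟩

lemma Cls.ach (hC : Cls β C) (hG : C V G) [Nonempty V] (h : 2 * β * Nat.card V ≤ dn G) : Ach β :=
  ⟨V, hC.fin _ _ hG, inferInstance, G, fun _ _ _ hH => hC.bd _ _ (hC.minor _ _ _ _ hG hH), h⟩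

lemma exists_large (hC : Cls β C) (hn : ¬ Ach β)
    (hsup : ∀ ε > 0, ∃ (V : Type) (G : SimpleGraph V), C V G ∧ (2 * β - ε) * Nat.card V < dn G)
    (N : ℕ) {ε0 : ℝ} (h0 : 0 < ε0) : ∃ ε ≤ ε0, ∃ (V : Type) (G : SimpleGraph V), C V G ∧
      SM (2 * β - ε) G ∅ ∧ N < Nat.card V := by
  obtain ⟨δ, hδ, hd⟩ := exists_gap fun t : Fin (N * N + 1) × Fin (N + 1) =>
    ((t.1 : ℕ) : ℝ) - 2 * β * (t.2 : ℕ)
  have hN : (0 : ℝ) < N + 1 := by positivity
  obtain ⟨V, G, hG, h⟩ := hsup (min ε0 (δ / (N + 1))) (by positivity)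
  have := hC.fin _ _ hG
  obtain ⟨J, _, B, π, b1, -, -, -, b2, b3⟩ := exists_sm (G := G) (2 * β - min ε0 (δ / (N + 1))) ∅
    Set.univ _ (Set.univ : Set V) (fun j => {j.1}) (fun v => v.2.elim) (Nat.lt_succ_self _)
    (model_single _) (fun v => v.2.elim) (fun v => v.2.elim) (by simp)
  have hG' := hC.minor _ _ _ _ hG (tg_minor b1)
  refine ⟨_, min_le_left _ _, J, tg G B, hG', by rwa [Set.range_eq_empty] at b2, ?_⟩
  have k1 : ((_ : ℕ) : ℝ) ≤ _ := Nat.cast_le.2 (tg_single (G := G) Set.univ)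
  have k2 : dIn G Set.univ = dn G := by simp [dIn, dn]
  rw [k2] at k1
  rw [Nat.card_coe_set_eq, Set.ncard_univ] at b3
  have k3 : (2 * β - min ε0 (δ / (N + 1))) * Nat.card J < dn (tg G B) := by linarith
  by_contra hh
  have k4 : dn (tg G B) ≤ Nat.card J * Nat.card J := by
    have := pairs_le (X := {p : J × J | (tg G B).Adj p.1 p.2}) (S := Set.univ) (by simp)
    rwa [Set.ncard_univ] at this
  have k5 := Nat.mul_le_mul (not_lt.1 hh) (not_lt.1 hh)
  have : Nonempty J := by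
    by_contra he
    rw [not_nonempty_iff] at he
    simp [dn, Set.eq_empty_of_isEmpty] at k3
  have k6 := hd (⟨dn (tg G B), by omega⟩, ⟨Nat.card J, by omega⟩)
    (by simpa using lt_of_not_ge fun h => hn (hC.ach hG' h))
  have k7 : min ε0 (δ / (N + 1)) * (N + 1) ≤ δ := by
    rw [← le_div_iff₀ hN]; exact min_le_right _ _
  have k8 : (Nat.card J : ℝ) ≤ N := Nat.cast_le.2 (not_lt.1 hh)
  have k9 : 0 < min ε0 (δ / (N + 1)) := by positivity
  simp only at k6
  nlinarith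

theorem ach_of_bw (hC : Cls β C) (hβ : 0 ≤ β) {W t : ℕ}
    (hW : ∀ (V : Type) [DecidableEq V] (G : SimpleGraph V), C V G → BW G W)
    (h5 : ¬ C _ (completeBipartiteGraph (Fin 5) (Fin t)))
    (hsup : ∀ ε > 0, ∃ (V : Type) (G : SimpleGraph V), C V G ∧ (2 * β - ε) * Nat.card V < dn G) :
    Ach β := by
  classical
  by_contra hn
  obtain ⟨K1, hK1⟩ := hang_bound hC hβ hW (W + 2)
  obtain ⟨η, hη, K, -, hK⟩ := chain_bound hC hβ
    (fun s l τ h1 h2 h3 => hn (h3.ach hC h5 h1 h2)) (W + 1) (K1 + (W + 2))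
  obtain ⟨n, hn1⟩ := exists_nat_gt ((K + 1 + 2 * β * W) / η)
  rw [div_lt_iff₀ hη] at hn1
  have hM : (0 : ℝ) < ((2 * 3 ^ n + 2 * W + 2 : ℕ) : ℝ) := by positivity
  obtain ⟨ε, hε, V, G, hG, hs, hV⟩ := exists_large hC hn hsup (3 ^ n)
    (lt_min (one_div_pos.2 hM) (show 0 < 2 * β from lt_of_le_of_ne (by positivity) fun e => by
      obtain ⟨V, G, hG, h⟩ := hsup 1 one_pos
      have : Nonempty V := by
        by_contra he
        rw [not_nonempty_iff] at he
        simp [dn, Set.eq_empty_of_isEmpty] at h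
      exact hn (hC.ach hG (by rw [← e]; simp))))
  have := hC.fin _ _ hG
  obtain ⟨T, t1, t2⟩ := hW V G hG
  have hT : it G ∅ T.set = Set.univ := Set.eq_univ_of_forall fun v => by
    obtain ⟨w, hw⟩ := SM.adj (U := Set.univ) (sub_nonneg.2 (hε.trans (min_le_right _ _)))
      (by rwa [Set.compl_univ]) (Set.mem_univ v)
    refine ⟨⟨(v, w), (t1 _).2 hw, Or.inl rfl⟩, ?_⟩
    rintro (h | ⟨p, h1, h2, -⟩)
    exacts [h, h2 ((t1 p).2 h1)]
  obtain ⟨T', a1, a2, a3, a4⟩ := exists_mid (3 ^ n) T (fun p hp => (t1 p).1 hp) t2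
    (by rw [hT, Set.ncard_univ]; exact hV.le)
  obtain ⟨Z, z1, z2, z3⟩ := exists_chain T' a1 a2
  have z4 := z3 ∅ (by simp)
  rw [Set.union_empty] at z4
  obtain ⟨J, _, B, π, b1, b2, b3, b4, b5, b6⟩ := exists_sm (G := G) (2 * β) Z (mt T'.set) _
    (mt T'.set) (fun j => {j.1}) (fun v => ⟨v.1, (z1 v.2).1⟩) (Nat.lt_succ_self _)
    (model_single _) (fun v => rfl) (fun a b e => Subtype.ext (congrArg Subtype.val e :))
    (fun j => by simp)
  have hG' := hC.minor _ _ _ _ hG (tg_minor b1)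
  have c1 : ∀ q, ReflTransGen (StepZ G W Z) (∅, ∅) q → ReflTransGen
      (Step (tg G B) (W + 1) (K1 + (W + 2))) (img B ∅, img B ∅) (img B q.1, img B q.2) := by
    intro q hq
    induction hq with
    | refl => exact ReflTransGen.refl
    | tail _ h ih =>
      exact ih.tail (img_step b1 b2 (fun U S u1 u2 u3 => hK1 J _ U S hG' (b5.mono u1) u2 u3) h)
  have c2 := hK _ _ hG' _ _ (c1 _ z4)
  have c3 : img B (mt T'.set) = Set.univ := Set.eq_univ_of_forall fun j => by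
    obtain ⟨v, hv⟩ := (b1.conn j trivial).1
    exact ⟨v, hv, b4 j hv⟩
  have c4 : img B (∅ : Set V) = ∅ := by simp [img]
  simp only [c3, c4, Pot, dIn, Set.mem_univ, and_true, Set.mem_empty_iff_false, and_false,
    Set.ofPred_false, Set.ncard_empty, Set.ncard_univ] at c2
  change (dn (tg G B) : ℝ) - _ - _ ≤ K at c2
  have d1 : ((_ : ℕ) : ℝ) ≤ _ := Nat.cast_le.2 ((it_bd (G := G) (Z := ∅) (F := T'.set) ▸
    dAt_le (G := G) (U := it G ∅ T'.set) (S := bd G ∅ T'.set)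
    fun x hx y hy => it_bd.superset (it_nb hx hy)).trans (tg_single _))
  have d2 := (hs.mono (Z' := (it G ∅ T'.set)ᶜ) (Set.empty_subset _)).pos
    ((Set.ncard_pos (Set.toFinite _)).1 (lt_of_lt_of_le (by positivity) a3))
  have d3 : (Nat.card (mt T'.set) : ℝ) = (it G ∅ T'.set).ncard + (bd G ∅ T'.set).ncard := by
    rw [Nat.card_coe_set_eq, ← it_bd (G := G) (Z := ∅), Set.ncard_union_eq it_disj, Nat.cast_add]
  have d4 : ((bd G ∅ T'.set).ncard : ℝ) ≤ W := Nat.cast_le.2 (valid_le a2)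
  have d5 : ε * (it G ∅ T'.set).ncard ≤ 1 := by
    have h1 := hε.trans (min_le_left _ _)
    have h2 : ((_ : ℕ) : ℝ) ≤ _ := Nat.cast_le.2 a4
    rw [le_div_iff₀ hM] at h1
    rcases le_total ε 0 with h | h
    · nlinarith [Nat.cast_nonneg (α := ℝ) (it G ∅ T'.set).ncard]
    · nlinarith
  have d6 : n < Nat.card J := by
    have h1 : n < Z.ncard := (Nat.pow_lt_pow_iff_right (by norm_num : 1 < 3)).1 (by omega)
    rw [← Nat.card_coe_set_eq] at h1
    exact h1.trans_le (Nat.card_le_card_of_injective π b3)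
  have d7 : (n : ℝ) < Nat.card J := Nat.cast_lt.2 d6
  simp only [vl] at d2
  rw [d3] at b6
  push_cast at c2
  nlinarith

end Pool.Agent.MP_c60df9_co.H39
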