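import Pool.Agent.MP_c60df9_co.H39.Tour

set_option autoImplicit false

namespace Pool.Agent.MP_c60df9_co.H39

open Sum

variable {I X : Type} {H : SimpleGraph (I ⊕ X)}

lemma psi_ach [Finite I] [Finite X] {β : ℝ} (hRB : RB β H)
    (ht : 2 * β * Nat.card I ≤ (ii H).ncard + 2 * (ix H).ncard) (u : I) (d : ℕ) (ψ : X → ℕ)
    (hd : d = {x | H.Adj (inl u) (inr x)}.ncard)
    (p1 : ∀ v x, H.Adj (inl v) (inr x) → 1 ≤ ψ x ∧ ψ x ≤ 2 * d)
    (p2 : ∀ v x x', H.Adj (inl v) (inr x) → H.Adj (inl v) (inr x') → ψ x = ψ x' → x = x')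
    (p3 : ∀ x, H.Adj (inl u) (inr x) → ψ x ≤ d)
    (p4 : ∀ i, 1 ≤ i → i ≤ d → ∃ x, H.Adj (inl u) (inr x) ∧ ψ x = i) : Ach β := by
  have hz : ∀ n : ℕ, 1 ≤ n → n ≤ 2 * d → (n : ZMod (2 * d + 1)) ≠ 0 := by
    intro n h1 h2 h
    rw [ZMod.natCast_eq_zero_iff] at h
    have := Nat.le_of_dvd h1 h
    omega
  refine tour_ach (R := ZMod (2 * d + 1)) (u := u) (φ := fun ρ x => ρ + ψ x) hRB ht ?_ ?_ ?_ ?_ ?_
  · intro ρ v x h e
    exact hz _ (p1 v x h).1 (p1 v x h).2 (by simpa using e)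
  · intro ρ v x x' h h' e
    have e' : ((ψ x : ℕ) : ZMod (2 * d + 1)) = ψ x' := add_left_cancel e
    rw [ZMod.natCast_eq_natCast_iff'] at e'
    have a := p1 v x h
    have b := p1 v x' h'
    rw [Nat.mod_eq_of_lt (by omega), Nat.mod_eq_of_lt (by omega)] at e'
    exact p2 v x x' h h' e'
  · intro ρ σ h
    have h0 : σ - ρ ≠ 0 := sub_ne_zero.2 h.symm
    have h1 : 1 ≤ (σ - ρ).val := Nat.pos_of_ne_zero (by rwa [Ne, ZMod.val_eq_zero])
    have h2 := ZMod.val_lt (σ - ρ)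
    by_cases h3 : (σ - ρ).val ≤ d
    · obtain ⟨x, a, b⟩ := p4 _ h1 h3
      exact Or.inl ⟨x, a, by simp [b]⟩
    · obtain ⟨x, a, b⟩ := p4 (2 * d + 1 - (σ - ρ).val) (by omega) (by omega)
      refine Or.inr ⟨x, a, ?_⟩
      show σ + ((ψ x : ℕ) : ZMod (2 * d + 1)) = ρ
      rw [b, Nat.cast_sub h2.le, ZMod.natCast_self, ZMod.natCast_zmod_val]
      ring
  · intro ρ x x' h h' e
    have a := p1 u x h
    have b := p1 u x' h'
    have a' := p3 x h
    have b' := p3 x' h'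
    refine hz (ψ x + ψ x') (by omega) (by omega) ?_
    have e' : ρ + (ψ x : ZMod (2 * d + 1)) + ψ x' = ρ := e
    push_cast
    linear_combination e'
  · rw [Nat.card_zmod, hd]

lemma four_ach [Finite I] [Finite X] [Nonempty I] {β : ℝ} (hRB : RB β H)
    (ht : 2 * β * Nat.card I ≤ (ii H).ncard + 2 * (ix H).ncard)
    (h4 : {x | ∃ v, H.Adj (inl v) (inr x)}.ncard ≤ 4) : Ach β := by
  classical
  obtain ⟨u, hu⟩ := Finite.exists_max fun v : I => {x | H.Adj (inl v) (inr x)}.ncard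
  set d := {x | H.Adj (inl u) (inr x)}.ncard with hd
  by_cases h1 : d ≤ 1
  · have hp : ∀ v x, H.Adj (inl v) (inr x) → 1 ≤ d := fun v x h =>
      le_trans ((Set.ncard_pos (Set.toFinite _)).2 ⟨x, h⟩) (hu v)
    refine psi_ach hRB ht u d (fun _ => 1) hd (fun v x h => ?_) (fun v x x' h h' _ => ?_)
      (fun x h => hp u x h) (fun i a b => ?_)
    · have := hp v x h; omega
    · exact (Set.ncard_le_one (Set.toFinite _)).1 ((hu v).trans h1) x h x' h'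
    · obtain ⟨x, hx⟩ := (Set.ncard_pos (s := {x | H.Adj (inl u) (inr x)}) (Set.toFinite _)).1
        (by omega)
      exact ⟨x, hx, by omega⟩
  · let N : Set X := {x | H.Adj (inl u) (inr x)}
    let M : Set X := {x | ∃ v, H.Adj (inl v) (inr x)} \ N
    have hM : Nat.card M ≤ d := by
      have := Set.ncard_sdiff_add_ncard_of_subset (s := N) (t := {x | ∃ v, H.Adj (inl v) (inr x)})
        (fun x hx => ⟨u, hx⟩)
      rw [Nat.card_coe_set_eq]
      change M.ncard + d = _ at this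
      omega
    let e1 : N ≃ Fin d := Finite.equivFinOfCardEq (by rw [Nat.card_coe_set_eq])
    let e2 := Finite.equivFin M
    let ψ : X → ℕ := fun x =>
      if h : x ∈ N then e1 ⟨x, h⟩ + 1 else if h' : x ∈ M then d + 1 + e2 ⟨x, h'⟩ else 0
    have a1 : ∀ x (h : x ∈ N), ψ x = e1 ⟨x, h⟩ + 1 := fun x h => dif_pos h
    have a2 : ∀ x (h : x ∈ M), ψ x = d + 1 + e2 ⟨x, h⟩ := fun x h => by
      simp only [ψ, dif_neg h.2, dif_pos h]
    refine psi_ach hRB ht u d ψ hd (fun v x h => ?_) (fun v x x' h h' e => ?_)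
      (fun x h => ?_) (fun i a b => ?_)
    · by_cases hx : x ∈ N
      · have := (e1 ⟨x, hx⟩).2
        rw [a1 x hx]; omega
      · have := (e2 ⟨x, ⟨v, h⟩, hx⟩).2
        rw [a2 x ⟨⟨v, h⟩, hx⟩]; omega
    · by_cases hx : x ∈ N <;> by_cases hx' : x' ∈ N
      · rw [a1 x hx, a1 x' hx'] at e
        exact congrArg Subtype.val (e1.injective (Fin.ext (Nat.add_right_cancel e)))
      · have := (e1 ⟨x, hx⟩).2
        rw [a1 x hx, a2 x' ⟨⟨v, h'⟩, hx'⟩] at e; omega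
      · have := (e1 ⟨x', hx'⟩).2
        rw [a1 x' hx', a2 x ⟨⟨v, h⟩, hx⟩] at e; omega
      · rw [a2 x ⟨⟨v, h⟩, hx⟩, a2 x' ⟨⟨v, h'⟩, hx'⟩] at e
        exact congrArg Subtype.val (e2.injective (Fin.ext (Nat.add_left_cancel e)))
    · have := (e1 ⟨x, h⟩).2
      rw [a1 x h]; omega
    · refine ⟨e1.symm ⟨i - 1, by omega⟩, (e1.symm _).2, ?_⟩
      rw [a1 _ (e1.symm _).2]
      simp only [Subtype.coe_eta, Equiv.apply_symm_apply]
      omega

lemma RB.comap {I' : Type} [Finite X] {β : ℝ} (hRB : RB β H) (f : I' → I)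
    (hf : Function.Injective f) : RB β (H.comap (Sum.map f id)) := by
  intro J _ T B F hM
  have hi : Function.Injective (Sum.map f (id : X → X)) := hf.sumMap Function.injective_id
  have h := hRB J T (fun j => Sum.map f id '' B j) (fun x => Sum.map f id '' F x)
    ⟨⟨fun j hj => (hM.mB.conn j hj).image _ fun a _ b _ h => Or.inl h,
      fun i hi' j hj h => Set.disjoint_image_of_injective hi (hM.mB.disj i hi' j hj h)⟩,
     ⟨fun j hj => (hM.mF.conn j hj).image _ fun a _ b _ h => Or.inl h,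
      fun i hi' j hj h => Set.disjoint_image_of_injective hi (hM.mF.disj i hi' j hj h)⟩,
     fun x => ⟨inr x, hM.root x, rfl⟩,
     fun j hj x => Set.disjoint_image_of_injective hi (hM.dBF j hj x)⟩
  have h1 : (tp (H.comap (Sum.map f id)) T B).ncard ≤
      (tp H T (fun j => Sum.map f id '' B j)).ncard := by
    refine Set.ncard_le_ncard ?_
    rintro p ⟨a, b, c, x, hx, y, hy, h⟩
    exact ⟨a, b, c, _, ⟨x, hx, rfl⟩, _, ⟨y, hy, rfl⟩, h⟩
  have h2 : (tq (H.comap (Sum.map f id)) T B F).ncard ≤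
      (tq H T (fun j => Sum.map f id '' B j) (fun x => Sum.map f id '' F x)).ncard := by
    refine Set.ncard_le_ncard ?_
    rintro p ⟨a, x, hx, y, hy, h⟩
    exact ⟨a, _, ⟨x, hx, rfl⟩, _, ⟨y, hy, rfl⟩, h⟩
  have h1' : ((_ : ℕ) : ℝ) ≤ _ := Nat.cast_le.2 h1
  have h2' : ((_ : ℕ) : ℝ) ≤ _ := Nat.cast_le.2 h2
  linarith

theorem gadget_ach [Finite I] [Finite X] [Nonempty I] {β : ℝ} (hRB : RB β H)
    (ht : 2 * β * Nat.card I ≤ (ii H).ncard + 2 * (ix H).ncard)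
    (h4 : ∀ C : Set I, Conn (H.comap inl) C →
      {x | ∃ v ∈ C, H.Adj (inl v) (inr x)}.ncard ≤ 4) : Ach β := by
  classical
  let σ : Set I → ℝ := fun C => {p ∈ ii H | p.1 ∈ C ∧ p.2 ∈ C}.ncard +
    2 * ({p ∈ ix H | p.1 ∈ C}.ncard : ℝ) - 2 * β * C.ncard
  obtain ⟨C, ⟨hne, hσ⟩, hmin⟩ := (Set.toFinite {C : Set I | C.Nonempty ∧ 0 ≤ σ C}).exists_minimal
    ⟨Set.univ, Set.univ_nonempty, by simpa [σ] using ht⟩
  have hC : Conn (H.comap inl) C := by
    obtain ⟨r, hr⟩ := hne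
    let C1 := {v | Rch (H.comap inl) C r v}
    have h1 : C1 ⊆ C := fun v hv => Rch.mem hv hr
    refine Conn.of_root hr ?_
    by_contra hh
    push Not at hh
    obtain ⟨w, hw, hw'⟩ := hh
    have a1 : σ C1 < 0 := by
      by_contra h
      exact hw' (hmin ⟨⟨r, Rch.refl _ _⟩, not_lt.1 h⟩ h1 hw)
    have a2 : σ (C \ C1) < 0 := by
      by_contra h
      exact (hmin (y := C \ C1) ⟨⟨w, hw, hw'⟩, not_lt.1 h⟩ Set.sdiff_subset hr).2 (Rch.refl _ _)
    have b1 : {p ∈ ii H | p.1 ∈ C ∧ p.2 ∈ C}.ncard ≤ {p ∈ ii H | p.1 ∈ C1 ∧ p.2 ∈ C1}.ncard +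
        {p ∈ ii H | p.1 ∈ C \ C1 ∧ p.2 ∈ C \ C1}.ncard := by
      refine le_trans (Set.ncard_le_ncard ?_) (Set.ncard_union_le _ _)
      rintro p ⟨h, h2, h3⟩
      by_cases hp : p.1 ∈ C1
      · exact Or.inl ⟨h, hp, Rch.tail hp h h3⟩
      · exact Or.inr ⟨h, ⟨h2, hp⟩, h3, fun h4 => hp (Rch.tail h4 (SimpleGraph.Adj.symm h) h2)⟩
    have b2 : {p ∈ ix H | p.1 ∈ C}.ncard ≤ {p ∈ ix H | p.1 ∈ C1}.ncard +
        {p ∈ ix H | p.1 ∈ C \ C1}.ncard := by
      refine le_trans (Set.ncard_le_ncard ?_) (Set.ncard_union_le _ _)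
      rintro p ⟨h, h2⟩
      by_cases hp : p.1 ∈ C1
      · exact Or.inl ⟨h, hp⟩
      · exact Or.inr ⟨h, h2, hp⟩
    have b3 := Set.ncard_sdiff_add_ncard_of_subset h1
    have b1' : ((_ : ℕ) : ℝ) ≤ _ := Nat.cast_le.2 b1
    have b2' : ((_ : ℕ) : ℝ) ≤ _ := Nat.cast_le.2 b2
    have b3' : ((_ : ℕ) : ℝ) = _ := congrArg Nat.cast b3
    simp only [σ] at a1 a2 hσ
    push_cast at b1' b2' b3'
    rw [← b3'] at hσ
    linarith
  have : Nonempty C := hne.to_subtype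
  refine four_ach (hRB.comap (Subtype.val : C → I) Subtype.val_injective) ?_ ?_
  · have c1 : {p ∈ ii H | p.1 ∈ C ∧ p.2 ∈ C}.ncard ≤
        (ii (H.comap (Sum.map (Subtype.val : C → I) id))).ncard := by
      refine le_trans (Set.ncard_le_ncard ?_)
        (Set.ncard_image_le (f := fun p : C × C => (p.1.1, p.2.1)))
      rintro ⟨a, b⟩ ⟨h, h1, h2⟩
      exact ⟨(⟨a, h1⟩, ⟨b, h2⟩), h, rfl⟩
    have c2 : {p ∈ ix H | p.1 ∈ C}.ncard ≤
        (ix (H.comap (Sum.map (Subtype.val : C → I) id))).ncard := by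
      refine le_trans (Set.ncard_le_ncard ?_)
        (Set.ncard_image_le (f := fun p : C × X => (p.1.1, p.2)))
      rintro ⟨a, b⟩ ⟨h, h1⟩
      exact ⟨(⟨a, h1⟩, b), h, rfl⟩
    have c1' : ((_ : ℕ) : ℝ) ≤ _ := Nat.cast_le.2 c1
    have c2' : ((_ : ℕ) : ℝ) ≤ _ := Nat.cast_le.2 c2
    rw [Nat.card_coe_set_eq]
    simp only [σ] at hσ
    linarith
  · refine le_trans (Set.ncard_le_ncard ?_) (h4 C hC)
    rintro x ⟨v, h⟩
    exact ⟨v.1, v.2, h⟩

end Pool.Agent.MP_c60df9_co.H39
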