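import Pool.Agent.MP_c60df9_co.H39.Final
import Pool.Agent.MP_c60df9_co.H19.ItemC

set_option autoImplicit false

namespace Pool.Agent.MP_c60df9_co.H39

open Relation

variable {V W : Type} {G : SimpleGraph V} {β : ℝ}

lemma IsMinor.exists_inj {H : SimpleGraph W} (h : IsMinor H G) :
    ∃ f : W → V, Function.Injective f := by
  obtain ⟨B, hB, -⟩ := h
  choose f hf using fun j => (hB.conn j trivial).1
  refine ⟨f, fun a b e => ?_⟩
  by_contra hh
  exact Set.disjoint_left.1 (hB.disj a trivial b trivial hh) (hf a) (e ▸ hf b)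

lemma IsMinor.refl (G : SimpleGraph V) : IsMinor G G :=
  IsMinor.of_inj id Function.injective_id fun _ _ h => h

lemma minor_iff {H : SimpleGraph W} : IsMinor H G ↔ ∃ B : W → Set V,
    (∀ i, (G.induce (B i)).Connected) ∧ (∀ i j, i ≠ j → Disjoint (B i) (B j)) ∧
      ∀ i j, H.Adj i j → ∃ x ∈ B i, ∃ y ∈ B j, G.Adj x y :=
  ⟨fun ⟨B, h1, h2⟩ => ⟨B, fun i => (conn_iff_induce _).1 (h1.conn i trivial),
    fun i j => h1.disj i trivial j trivial, h2⟩,
   fun ⟨B, h1, h2, h3⟩ => ⟨B, ⟨fun i _ => (conn_iff_induce _).2 (h1 i),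
    fun i _ j _ => h2 i j⟩, h3⟩⟩

lemma dn_comap (e : W ≃ V) : dn (G.comap e) = dn G := by
  rw [dn, dn, ← Set.ncard_image_of_injective _ (e.prodCongr e).injective]
  congr 1
  ext ⟨a, b⟩
  constructor
  · rintro ⟨p, h, e'⟩
    obtain ⟨rfl, rfl⟩ := Prod.mk.inj e'
    exact h
  · exact fun h => ⟨(e.symm a, e.symm b), by simpa using h, by simp⟩

/-- minor-closed predicates on labelled graphs -/
def MC (P : (n : ℕ) → SimpleGraph (Fin n) → Prop) : Prop :=
  ∀ (n m : ℕ) (G : SimpleGraph (Fin n)) (H : SimpleGraph (Fin m)), P n G → IsMinor H G → P m H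

/-- the set of densities -/
def Dens (P : (n : ℕ) → SimpleGraph (Fin n) → Prop) : Set ℝ :=
  {d : ℝ | ∃ n : ℕ, 0 < n ∧ ∃ G : SimpleGraph (Fin n),
    P n G ∧ d = (Nat.card G.edgeSet : ℝ) / (n : ℝ)}

/-- the class of a predicate -/
def CP (P : (n : ℕ) → SimpleGraph (Fin n) → Prop) (V : Type) (G : SimpleGraph V) : Prop :=
  ∃ n, ∃ G' : SimpleGraph (Fin n), P n G' ∧ IsMinor G G'

variable {P : (n : ℕ) → SimpleGraph (Fin n) → Prop}

lemma CP.fin (h : CP P V G) : Finite V := by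
  obtain ⟨n, G', -, h⟩ := h
  obtain ⟨f, hf⟩ := h.exists_inj
  exact Finite.of_injective f hf

lemma CP.comap (hP : MC P) (h : CP P V G) {m : ℕ} (e : Fin m ≃ V) : P m (G.comap e) := by
  obtain ⟨n, G', h1, h2⟩ := h
  exact hP _ _ _ _ h1 ((IsMinor.of_inj e e.injective fun _ _ h => h).trans h2)

lemma dens_le {n : ℕ} (hn : 0 < n) (G : SimpleGraph (Fin n)) :
    (Nat.card G.edgeSet : ℝ) / n ≤ β ↔ (dn G : ℝ) ≤ 2 * β * n := by
  rw [div_le_iff₀ (Nat.cast_pos.2 hn), dn_eq]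
  push_cast
  constructor <;> intro <;> linarith

lemma cls_cp (hP : MC P) (hβ : β ∈ upperBounds (Dens P)) : Cls β (CP P) := by
  refine ⟨fun V G h => h.fin, fun V W G H ⟨n, G', h1, h2⟩ h => ⟨n, G', h1, h.trans h2⟩,
    fun V G h => ?_⟩
  have := h.fin
  rcases Nat.eq_zero_or_pos (Nat.card V) with h0 | h0
  · have : IsEmpty V := (Finite.card_eq_zero_iff.1 h0)
    simp [dn, Set.eq_empty_of_isEmpty]
  · rw [← dn_comap (Finite.equivFin V).symm]
    exact (dens_le h0 _).1 (hβ ⟨_, h0, _, h.comap hP _, rfl⟩)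

lemma sup_cp (hβ : IsLUB (Dens P) β) : ∀ ε > 0, ∃ (V : Type) (G : SimpleGraph V), CP P V G ∧
    (2 * β - ε) * Nat.card V < dn G := by
  intro ε hε
  obtain ⟨_, ⟨n, hn, G, hG, rfl⟩, h, -⟩ := hβ.exists_between (b := β - ε / 2) (by linarith)
  refine ⟨_, G, ⟨n, G, hG, IsMinor.refl _⟩, ?_⟩
  have := _root_.mt (dens_le hn G).2 (not_le.2 h)
  rw [Nat.card_fin]
  linarith

lemma nonneg_cp (hβ : IsLUB (Dens P) β) : 0 ≤ β := by
  obtain ⟨_, ⟨n, hn, G, hG, rfl⟩, -, h⟩ := hβ.exists_between (b := β - 1) (by linarith)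
  exact le_trans (by positivity) h

/-- `β` is the density of a minor-balanced labelled graph -/
def Achv (β : ℝ) : Prop :=
  ∃ n : ℕ, 0 < n ∧ ∃ G : SimpleGraph (Fin n), (Nat.card G.edgeSet : ℝ) / (n : ℝ) = β ∧
    ∀ m : ℕ, 0 < m → ∀ H : SimpleGraph (Fin m), IsMinor H G →
      (Nat.card H.edgeSet : ℝ) / (m : ℝ) ≤ (Nat.card G.edgeSet : ℝ) / (n : ℝ)

lemma Ach.achv (h : Ach β) : Achv β := by
  obtain ⟨V, _, _, G, h1, h2⟩ := h
  have h0 : 0 < Nat.card V := Nat.card_pos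
  let e := (Finite.equivFin V).symm
  have hm : IsMinor (G.comap e) G := IsMinor.of_inj e e.injective fun _ _ h => h
  have k : (Nat.card (G.comap e).edgeSet : ℝ) / Nat.card V = β := by
    refine le_antisymm ((dens_le h0 _).2 (by simpa using h1 _ _ hm)) ?_
    rw [← dn_comap e, dn_eq] at h2
    rw [le_div_iff₀ (Nat.cast_pos.2 h0)]
    push_cast at h2
    linarith
  refine ⟨_, h0, G.comap e, k, fun m hm' H hH => ?_⟩
  rw [k]
  exact (dens_le hm' _).2 (by simpa using h1 _ _ (hH.trans hm))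

lemma dn_le [Finite V] (G : SimpleGraph V) : dn G + Nat.card V ≤ Nat.card V * Nat.card V := by
  have h1 : Disjoint {p : V × V | G.Adj p.1 p.2} (Set.range fun v => (v, v)) := by
    rw [Set.disjoint_left]
    rintro _ h ⟨v, rfl⟩
    exact h.ne rfl
  have h2 := Set.ncard_le_card ({p : V × V | G.Adj p.1 p.2} ∪ Set.range fun v => (v, v))
  rw [Set.ncard_union_eq h1, Set.ncard_range_of_injective fun a b e => congrArg Prod.fst e,
    Nat.card_prod] at h2
  exact h2

lemma ach_three : Ach 3 := by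
  refine ⟨Fin 7, inferInstance, inferInstance, ⊤, fun W _ H hH => ?_, ?_⟩
  · obtain ⟨f, hf⟩ := hH.exists_inj
    have h1 := Nat.card_le_card_of_injective f hf
    have h2 := dn_le H
    rw [Nat.card_fin] at h1
    have h3 := Nat.mul_le_mul_left (Nat.card W) h1
    exact_mod_cast (by omega : dn H ≤ 2 * 3 * Nat.card W)
  · have : dn (⊤ : SimpleGraph (Fin 7)) = 42 := by
      rw [dn, Set.ncard_eq_toFinset_card']
      simp only [Set.toFinset_ofPred]
      decide
    rw [this]; norm_num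

lemma dn_kb (a t : ℕ) : 2 * (a * t) ≤ dn (completeBipartiteGraph (Fin a) (Fin t)) := by
  let f : Fin a × Fin t ⊕ Fin a × Fin t → (Fin a ⊕ Fin t) × (Fin a ⊕ Fin t) :=
    Sum.elim (fun p => (.inl p.1, .inr p.2)) fun p => (.inr p.2, .inl p.1)
  have hf : Function.Injective f := by
    rintro (⟨_, _⟩ | ⟨_, _⟩) (⟨_, _⟩ | ⟨_, _⟩) h <;> simp_all [f]
  have := Set.ncard_range_of_injective hf
  simp only [Nat.card_sum, Nat.card_prod, Nat.card_fin] at this
  rw [two_mul, ← this]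
  refine Set.ncard_le_ncard ?_
  rintro _ ⟨p | p, rfl⟩ <;> simp [f]

lemma no_k5 {C : ∀ V : Type, SimpleGraph V → Prop} (hC : Cls β C) (h : β < 5) :
    ∃ t, ¬ C _ (completeBipartiteGraph (Fin 5) (Fin t)) := by
  obtain ⟨t, ht⟩ := exists_nat_gt (5 * β / (5 - β))
  rw [div_lt_iff₀ (by linarith)] at ht
  refine ⟨t, fun h => ?_⟩
  have h1 := hC.bd _ _ h
  have h2 : ((_ : ℕ) : ℝ) ≤ _ := Nat.cast_le.2 (dn_kb 5 t)
  simp only [Nat.card_sum, Nat.card_fin] at h1
  push_cast at h1 h2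
  linarith

theorem achv_le_three (hP : MC P) (hβ : IsLUB (Dens P) β) (h3 : β ≤ 3) : Achv β := by
  rcases h3.eq_or_lt with rfl | h3
  · exact ach_three.achv
  have hC := cls_cp hP hβ.1
  obtain ⟨t, ht⟩ := no_k5 hC (by linarith)
  obtain ⟨k, hk⟩ := exists_nat_gt ((2 * β + 1) / (3 - β))
  rw [div_lt_iff₀ (by linarith)] at hk
  obtain ⟨W, hW⟩ := H19.itemC k
  refine (ach_of_bw hC (nonneg_cp hβ) (W := W) (fun V _ G hG => ?_) ht (sup_cp hβ)).achv
  have := hG.fin
  refine (hW V G).resolve_right fun ⟨H, h1, h2⟩ => ?_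
  have h3 := hC.bd _ _ (hC.minor _ _ _ _ hG h1)
  have h2 : ((_ : ℕ) : ℝ) ≤ _ := Nat.cast_le.2 h2
  rw [Nat.card_fin] at h3
  push_cast at h2 h3
  linarith

lemma sep_of_td [Finite V] {ι : Type} [Finite ι] {T : SimpleGraph ι} (hT : T.IsTree)
    {X : ι → Set V} {q : ℕ} (h1 : ∀ v, Conn T {i | v ∈ X i})
    (h2 : ∀ u v, G.Adj u v → ∃ i, u ∈ X i ∧ v ∈ X i) (h3 : ∀ i, (X i).ncard ≤ q) :
    H19.Sep G q := by
  intro S hS
  by_contra hh
  push Not at hh
  let A : Set ι → Set V := fun D => {v | ∃ i ∈ D, v ∈ X i}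
  have cut : ∀ D i, Cut T D {i} → Cut G (A D) (X i) := by
    intro D i h
    refine ⟨fun v hv => ⟨i, h.sub rfl, hv⟩, ?_⟩
    rintro u ⟨d, hd, hu⟩ hi v huv
    obtain ⟨e, e1, e2⟩ := h2 u v huv
    exact ⟨e, conn_in (A := D) (S := {i}) (h1 u) (fun x a b y c => Or.inl (h.cl x a b y c)) hu
      (Or.inl hd) (fun w hw e => hi (by rw [← show w = i from e]; exact hw)) e1, e2⟩
  obtain ⟨i₀⟩ := hT.nonempty
  obtain ⟨D, ⟨⟨i, hi⟩, hD⟩, hmax⟩ := (Set.toFinite {D : Set ι | (∃ i, Cut T D {i}) ∧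
      H19.Big S (A D)}).exists_maximal ⟨{i₀}, ⟨i₀, subset_rfl, fun u h h' => absurd h h'⟩, by
    have k1 := Set.ncard_le_ncard_sdiff_add_ncard S (A {i₀})
    have k2 : A {i₀} = X i₀ := by ext v; simp [A]
    have := h3 i₀
    rw [k2] at k1 ⊢
    unfold H19.Big
    omega⟩
  have big : ∀ D' i', Cut T D' {i'} → D ⊆ D' → ¬ D' ⊆ D → H19.Big S (A D' \ X i')ᶜ := by
    intro D' i' c1 c2 c3
    by_contra h
    refine c3 (hmax ⟨⟨i', c1⟩, ?_⟩ c2)
    simp only [H19.Big, Set.sdiff_compl, not_lt] at h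
    exact hh _ _ (cut D' i' c1) (h3 i') h
  have hT' : Conn T Set.univ := (conn_iff_induce _).2 ((SimpleGraph.induceUnivIso T).connected_iff.2
    hT.connected)
  obtain ⟨j, hij, hj⟩ : ∃ j, T.Adj i j ∧ j ∉ D := by
    by_contra hc
    push Not at hc
    have hall : ∀ d ∈ Set.univ, d ∈ D := hT'.ind (P := fun d => d ∈ D) (Set.mem_univ i)
      (hi.sub rfl) fun a _ b _ h ha => by
        by_cases e : a = i
        · exact hc b (e ▸ h)
        · exact hi.cl a ha e b h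
    have : S \ A D = ∅ := Set.eq_empty_of_forall_notMem fun v hv => by
      obtain ⟨d, hd⟩ := (h1 v).1
      exact hv.2 ⟨d, hall d trivial, hd⟩
    simp [H19.Big, this] at hD
  let Dj := {d | Rch T {i}ᶜ j d}
  have j1 : ∀ d ∈ Dj, d ≠ i := fun d hd => Rch.mem hd hij.ne'
  have j2 : ∀ d ∈ Dj, ∀ e, T.Adj d e → e ≠ i → e ∈ Dj := fun d hd e h h' => Rch.tail hd h h'
  have j3 : ∀ d ∈ Dj, d ∉ D := by
    intro d hd
    have hd' : Rch T {i}ᶜ j d := hd
    induction hd' with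
    | refl => exact hj
    | tail a b ih => exact fun h => ih a (hi.cl _ h b.2 _ b.1.symm)
  have j4 : ∀ e ∈ Dj, T.Adj i e → e = j := by
    intro e he h
    by_contra hne
    refine SimpleGraph.isBridge_iff.1 (SimpleGraph.isAcyclic_iff_forall_adj_isBridge.1
      hT.isAcyclic hij) ?_
    have key : ∀ d, Rch T {i}ᶜ j d → (T.deleteEdges {s(i, j)}).Reachable j d := by
      intro d hd
      induction hd with
      | refl => rfl
      | tail a b ih =>
        refine ih.trans (SimpleGraph.Adj.reachable ?_)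
        have := j1 _ a
        have := b.2
        have := b.1
        simp_all
    refine SimpleGraph.Reachable.trans (SimpleGraph.Adj.reachable ?_) (key e he).symm
    have := h.ne
    have := hij.ne
    simp_all [eq_comm]
  have b1 := big (D ∪ Dj) i ⟨fun _ h => Or.inl (hi.sub h), fun u hu hu' v h => by
    rcases hu with hu | hu
    · exact Or.inl (hi.cl u hu hu' v h)
    · by_cases e : v = i
      · exact Or.inl (hi.sub e)
      · exact Or.inr (j2 u hu v h e)⟩ Set.subset_union_left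
    fun h => hj (h (Or.inr (Rch.refl _ _)))
  have b2 := big (Djᶜ ∪ {j}) j ⟨Set.subset_union_right, fun u hu hu' v h => by
    by_cases e : v ∈ Dj
    · by_cases e' : u = i
      · exact Or.inr (j4 v e (e' ▸ h))
      · exact absurd (j2 v e u h.symm e') (hu.resolve_right hu')
    · exact Or.inl e⟩ (fun d hd => Or.inl fun h => j3 d h hd) fun h => hj (h (Or.inr rfl))
  obtain ⟨v, v1, v2, v3⟩ := hD.three b1 b2
  obtain ⟨⟨d, hd, d1⟩, d2⟩ := not_not.1 v2
  obtain ⟨⟨e, he, e1⟩, e2⟩ := not_not.1 v3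
  have := conn_in (A := Dj) (S := {i}) (h1 v) (fun x a _ y c => by
    by_cases e : y = i
    exacts [Or.inr e, Or.inl (j2 x a y c e)]) d1 (Or.inl (hd.resolve_left fun h => v1 ⟨d, h, d1⟩))
    (fun w hw e => d2 (by rw [← show w = i from e]; exact hw)) e1
  rcases he with he | he
  · exact he this
  · exact e2 (by rw [← show e = j from he]; exact e1)

theorem achv_tw (hP : MC P) (hβ : IsLUB (Dens P) β) {q t : ℕ}
    (hw : ∀ n G, P n G → ∃ (k : ℕ) (T : SimpleGraph (Fin k)) (X : Fin k → Set (Fin n)),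
      T.IsTree ∧ (∀ v, (T.induce {i | v ∈ X i}).Connected) ∧
      (∀ u v, G.Adj u v → ∃ i, u ∈ X i ∧ v ∈ X i) ∧ ∀ i, (X i).ncard ≤ q)
    (h5 : ¬ CP P _ (completeBipartiteGraph (Fin 5) (Fin t))) : Achv β := by
  refine (ach_of_bw (cls_cp hP hβ.1) (nonneg_cp hβ) (W := 3 * q + 2) (fun V _ G hG => ?_) h5
    (sup_cp hβ)).achv
  have := hG.fin
  let e := Finite.equivFin V
  obtain ⟨k, T, X, t1, t2, t3, t4⟩ := hw _ _ (hG.comap hP e.symm)
  refine H19.bw_of_sep (sep_of_td t1 (X := fun i => e ⁻¹' X i)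
    (fun v => (conn_iff_induce _).2 (t2 (e v))) (fun u v h => t3 _ _ (by simpa using h)) fun i => ?_)
  rw [Set.ncard_preimage_of_injective_subset_range e.injective (by simp)]
  exact t4 i

end Pool.Agent.MP_c60df9_co.H39
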