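import Pool.Agent.MP_c60df9_co.H39.Ring
import Pool.Agent.MP_c60df9_co.H39.Menger

set_option autoImplicit false

namespace Pool.Agent.MP_c60df9_co.H39

open Sum

variable {V : Type} {G : SimpleGraph V} {s l : ℕ}

/-- segment types -/
abbrev Ty (s l : ℕ) : Type :=
  (Fin l → Fin l → Prop) × (Fin s → Fin l → Prop) × (Fin s → Option (Fin l))

/-- the periodic strip of a type -/
def Ty.per (τ : Ty s l) : Per (Fin l) (Fin s) :=
  ⟨τ.1, fun u v => ∃ j, τ.2.2 j = some u ∧ τ.2.1 j v, fun v j => τ.2.2 j = none ∧ τ.2.1 j v⟩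

/-- a segment realises a type -/
def Rz (G : SimpleGraph V) (A A' : Set V) (a a' : Fin s → V) (τ : Ty s l) : Prop :=
  ∃ φ : Fin l → V, Function.Injective φ ∧ Set.range φ = A' \ A ∧
    (∀ u v, τ.1 u v ↔ G.Adj (φ u) (φ v)) ∧ (∀ j v, τ.2.1 j v ↔ G.Adj (a j) (φ v)) ∧
    (∀ j, τ.2.2 j = none → a' j = a j) ∧ ∀ j v, τ.2.2 j = some v → a' j = φ v

lemma exists_rz [Finite V] {A A' S' : Set V} {a : Fin s → V} {t : V → V}
    (hn : Nest A (Set.range a) A' S') (hS : S' ⊆ A') (hl : Lk G A (Set.range a) A' S' t)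
    (hc : (A' \ A).ncard = l) : ∃ τ : Ty s l, Rz G A A' a (t ∘ a) τ := by
  classical
  let e : ↥(A' \ A) ≃ Fin l := Finite.equivFinOfCardEq (by rw [Nat.card_coe_set_eq, hc])
  obtain ⟨Q, h1, h2⟩ := hl
  refine ⟨(fun u v => G.Adj (e.symm u) (e.symm v), fun j v => G.Adj (a j) (e.symm v),
    fun j => if h : t (a j) ∈ A' \ A then some (e ⟨_, h⟩) else none), fun u => (e.symm u).1,
    Subtype.val_injective.comp e.symm.injective, ?_, fun _ _ => Iff.rfl, fun _ _ => Iff.rfl,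
    fun j h => ?_, fun j v h => ?_⟩
  · ext v
    exact ⟨fun ⟨u, h⟩ => h ▸ (e.symm u).2, fun h => ⟨e ⟨v, h⟩, by simp⟩⟩
  · have h3 : t (a j) ∉ A' \ A := fun h' => by simp [h'] at h
    have h4 := (h1 _ ⟨j, rfl⟩).2.2.2.1
    have h5 := hn.bd _ h4 (by by_contra h6; exact h3 ⟨hS h4, h6⟩)
    by_contra h6
    exact Set.disjoint_left.1 (h2 _ h5 _ ⟨j, rfl⟩ h6) (h1 _ h5).2.1 (h1 _ ⟨j, rfl⟩).2.2.1
  · by_cases h3 : t (a j) ∈ A' \ A
    · simp only [dif_pos h3, Option.some.injEq] at h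
      simp [← h]
    · simp [h3] at h

/-- ordered adjacent pairs inside `A` -/
noncomputable def dIn (G : SimpleGraph V) (A : Set V) : ℕ :=
  {p : V × V | G.Adj p.1 p.2 ∧ p.1 ∈ A ∧ p.2 ∈ A}.ncard

lemma Rz.wt [Finite V] {A A' : Set V} {a a' : Fin s → V} {τ : Ty s l} (h : Rz G A A' a a' τ)
    (hc : Cut G A (Set.range a)) (ha' : Function.Injective a') :
    dIn G A' ≤ dIn G A + τ.per.wt := by
  obtain ⟨φ, h1, h2, h3, h4, h5, h6⟩ := h
  let E0 := {p : Fin l × Fin l | p.1 ≠ p.2 ∧ τ.per.A0 p.1 p.2}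
  let E1 := {p : Fin s × Fin l | τ.2.1 p.1 p.2}
  have k1 : E1.ncard ≤ {p : Fin l × Fin l | τ.per.A1 p.1 p.2}.ncard +
      {p : Fin l × Fin s | τ.per.AX p.1 p.2}.ncard := by
    rw [← Set.ncard_image_of_injective {p : Fin l × Fin l | τ.per.A1 p.1 p.2}
      (inl_injective (β := Fin l × Fin s)), ← Set.ncard_image_of_injective
      {p : Fin l × Fin s | τ.per.AX p.1 p.2} (inr_injective (α := Fin l × Fin l))]
    refine le_trans (Set.ncard_le_ncard_of_injOn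
      (fun p => (τ.2.2 p.1).elim (inr (p.2, p.1)) (fun u => inl (u, p.2))) ?_ ?_)
      (Set.ncard_union_le _ _)
    · rintro ⟨j, v⟩ hp
      rcases hj : τ.2.2 j with _ | u
      · exact Or.inr ⟨(v, j), ⟨hj, hp⟩, by simp⟩
      · exact Or.inl ⟨(u, v), ⟨j, hj, hp⟩, by simp⟩
    · rintro ⟨j, v⟩ - ⟨j', v'⟩ - e
      rcases hj : τ.2.2 j with _ | u <;> rcases hj' : τ.2.2 j' with _ | u' <;>
        simp only [hj, hj', Option.elim, inl.injEq, inr.injEq, Prod.mk.injEq, reduceCtorEq] at e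
      · rw [e.1, e.2]
      · obtain ⟨rfl, rfl⟩ := e
        rw [ha' ((h6 j u hj).trans (h6 j' u hj').symm)]
  have k2 : {p : V × V | G.Adj p.1 p.2 ∧ p.1 ∈ A' ∧ p.2 ∈ A'} ⊆
      (({p : V × V | G.Adj p.1 p.2 ∧ p.1 ∈ A ∧ p.2 ∈ A} ∪ (fun p => (φ p.1, φ p.2)) '' E0) ∪
      (fun p => (a p.1, φ p.2)) '' E1) ∪ (fun p => (φ p.2, a p.1)) '' E1 := by
    rintro ⟨x, y⟩ ⟨hxy, hx, hy⟩
    by_cases hxA : x ∈ A <;> by_cases hyA : y ∈ A
    · exact Or.inl (Or.inl (Or.inl ⟨hxy, hxA, hyA⟩))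
    · obtain ⟨v, rfl⟩ : y ∈ Set.range φ := h2 ▸ ⟨hy, hyA⟩
      obtain ⟨j, rfl⟩ : x ∈ Set.range a := by
        by_contra hh; exact hyA (hc.cl _ hxA hh _ hxy)
      exact Or.inl (Or.inr ⟨(j, v), (h4 j v).2 hxy, rfl⟩)
    · obtain ⟨v, rfl⟩ : x ∈ Set.range φ := h2 ▸ ⟨hx, hxA⟩
      obtain ⟨j, rfl⟩ : y ∈ Set.range a := by
        by_contra hh; exact hxA (hc.cl _ hyA hh _ hxy.symm)
      exact Or.inr ⟨(j, v), (h4 j v).2 hxy.symm, rfl⟩
    · obtain ⟨u, rfl⟩ : x ∈ Set.range φ := h2 ▸ ⟨hx, hxA⟩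
      obtain ⟨v, rfl⟩ : y ∈ Set.range φ := h2 ▸ ⟨hy, hyA⟩
      exact Or.inl (Or.inl (Or.inr ⟨(u, v), ⟨fun e => hxy.ne (congrArg φ e), (h3 u v).2 hxy⟩, rfl⟩))
  have k3 := (Set.ncard_le_ncard k2).trans ((Set.ncard_union_le _ _).trans (Nat.add_le_add
    ((Set.ncard_union_le _ _).trans (Nat.add_le_add ((Set.ncard_union_le _ _).trans
      (Nat.add_le_add_left Set.ncard_image_le _)) Set.ncard_image_le)) Set.ncard_image_le))
  simp only [dIn, Per.wt]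
  change _ ≤ _ + E0.ncard + E1.ncard + E1.ncard at k3
  change _ ≤ _ + (E0.ncard + _ + _)
  omega

/-- the window of `N` periods -/
def Win (s l N : ℕ) : Set ((ℤ × Fin l) ⊕ Fin s) :=
  {o | ∀ p, o = inl p → 0 ≤ p.1 ∧ p.1 < N}

/-- the current end of path `j` -/
def Ty.lab (τ : Ty s l) (N : ℕ) (j : Fin s) : (ℤ × Fin l) ⊕ Fin s :=
  (τ.2.2 j).elim (inr j) (fun v => if N = 0 then inr j else inl ((N : ℤ) - 1, v))

lemma Ty.lab_mem (τ : Ty s l) (N : ℕ) (j : Fin s) : τ.lab N j ∈ Win s l N := by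
  intro p hp
  unfold Ty.lab at hp
  rcases hj : τ.2.2 j with _ | u
  · simp [hj] at hp
  · by_cases hN : N = 0
    · simp [hj, hN] at hp
    · simp only [hj, Option.elim, if_neg hN, inl.injEq] at hp
      subst hp
      constructor <;> simp only <;> omega

/-- `N` periods of the strip occur inside `A`, rooted at `a` -/
def Occ (τ : Ty s l) (N : ℕ) (G : SimpleGraph V) (A : Set V) (a : Fin s → V) : Prop :=
  ∃ B : (ℤ × Fin l) ⊕ Fin s → Set V, ModelOn G (Win s l N) B ∧ (∀ o ∈ Win s l N, B o ⊆ A) ∧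
    (∀ o ∈ Win s l N, ∀ o' ∈ Win s l N, τ.per.rel ℤ o o' → o ≠ o' → Touch G (B o) (B o')) ∧
    ∀ j, a j ∈ B (τ.lab N j)

lemma Occ.zero (τ : Ty s l) {A : Set V} {a : Fin s → V} (ha : Function.Injective a)
    (hA : Set.range a ⊆ A) : Occ τ 0 G A a := by
  have key : ∀ o ∈ Win s l 0, ∃ j, o = inr j := by
    rintro (p | j) h
    · have := h p rfl; omega
    · exact ⟨j, rfl⟩
  refine ⟨Sum.elim (fun _ => ∅) (fun j => {a j}), ⟨fun o h => ?_, fun o h o' h' e => ?_⟩,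
    fun o h => ?_, fun o h o' h' e => ?_, fun j => ?_⟩
  · obtain ⟨j, rfl⟩ := key o h; exact Conn.singleton _ _
  · obtain ⟨j, rfl⟩ := key o h
    obtain ⟨j', rfl⟩ := key o' h'
    simpa using fun h => e (congrArg inr (ha h))
  · obtain ⟨j, rfl⟩ := key o h
    rintro _ rfl; exact hA ⟨j, rfl⟩
  · obtain ⟨j, rfl⟩ := key o h
    exact e.elim
  · unfold Ty.lab
    rcases τ.2.2 j with _ | u <;> simp

lemma Occ.link {τ : Ty s l} {N : ℕ} {A A' S' : Set V} {a : Fin s → V} {t : V → V}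
    (h : Occ τ N G A a) (hA : A ⊆ A') (hS : Set.range a ⊆ A)
    (hl : Lk G A (Set.range a) A' S' t) : Occ τ N G A' (t ∘ a) := by
  obtain ⟨B, hB, h1, h2, h3⟩ := h
  obtain ⟨Q, q1, q2⟩ := hl
  have cross : ∀ o ∈ Win s l N, ∀ j, o ≠ τ.lab N j → Disjoint (B o) (Q (a j)) := by
    intro o ho j hne
    rw [Set.disjoint_left]
    intro v hv hv'
    have hvS : v ∈ Set.range a := ((q1 _ ⟨j, rfl⟩).2.2.2.2 hv').resolve_left fun h => h.2 (h1 o ho hv)
    have : v = a j := by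
      by_contra hh
      exact Set.disjoint_left.1 (q2 _ hvS _ ⟨j, rfl⟩ hh) (q1 _ hvS).2.1 hv'
    subst this
    exact Set.disjoint_left.1 (hB.disj o ho _ (τ.lab_mem N j) hne) hv (h3 j)
  refine ⟨fun o => B o ∪ {v | ∃ j, τ.lab N j = o ∧ v ∈ Q (a j)}, ⟨fun o ho => ?_,
    fun o ho o' ho' hne => ?_⟩, fun o ho => ?_, fun o ho o' ho' e e' => ?_, fun j => ?_⟩
  · obtain ⟨r, hr⟩ := (hB.conn o ho).1
    refine Conn.of_cover (r := r) (Or.inl hr) ?_
    rintro v (hv | ⟨j, rfl, hv⟩)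
    · exact ⟨B o, Set.subset_union_left, hB.conn o ho, hr, hv⟩
    · refine ⟨B _ ∪ Q (a j), Set.union_subset_union_right _ fun w hw => ⟨j, rfl, hw⟩,
        (hB.conn _ ho).union (q1 _ ⟨j, rfl⟩).1 (h3 j) (q1 _ ⟨j, rfl⟩).2.1, Or.inl hr, Or.inr hv⟩
  · rw [Set.disjoint_left]
    rintro v (hv | ⟨j, rfl, hv⟩) (hv' | ⟨j', rfl, hv'⟩)
    · exact Set.disjoint_left.1 (hB.disj o ho o' ho' hne) hv hv'
    · exact Set.disjoint_left.1 (cross o ho j' hne) hv hv'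
    · exact Set.disjoint_left.1 (cross o' ho' j hne.symm) hv' hv
    · by_cases e : a j = a j'
      · exact Set.disjoint_left.1 (hB.disj _ ho _ ho' hne) (h3 j) (e ▸ h3 j')
      · exact Set.disjoint_left.1 (q2 _ ⟨j, rfl⟩ _ ⟨j', rfl⟩ e) hv hv'
  · rintro v (hv | ⟨j, rfl, hv⟩)
    · exact hA (h1 o ho hv)
    · rcases (q1 _ ⟨j, rfl⟩).2.2.2.2 hv with h | h
      · exact h.1
      · exact hA (hS h)
  · exact (h2 o ho o' ho' e e').mono Set.subset_union_left Set.subset_union_left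
  · exact Or.inr ⟨j, rfl, (q1 _ ⟨j, rfl⟩).2.2.1⟩

lemma Occ.seg {τ : Ty s l} {N : ℕ} {A A' : Set V} {a a' : Fin s → V}
    (h : Occ τ N G A a) (hA : A ⊆ A') (hr : Rz G A A' a a' τ) : Occ τ (N + 1) G A' a' := by
  classical
  obtain ⟨B, hB, h1, h2, h3⟩ := h
  obtain ⟨φ, p1, p2, p3, p4, p5, p6⟩ := hr
  have hφ : ∀ v, φ v ∈ A' \ A := fun v => p2 ▸ ⟨v, rfl⟩
  let B' : (ℤ × Fin l) ⊕ Fin s → Set V :=
    Sum.elim (fun p => if p.1 = N then {φ p.2} else B (inl p)) (fun j => B (inr j))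
  have key : ∀ o ∈ Win s l (N + 1), (o ∈ Win s l N ∧ B' o = B o) ∨
      ∃ v, o = inl ((N : ℤ), v) ∧ B' o = {φ v} := by
    rintro (⟨t, v⟩ | j) ho
    · by_cases ht : t = N
      · exact Or.inr ⟨v, by rw [ht], by simp [B', ht]⟩
      · refine Or.inl ⟨?_, by simp [B', ht]⟩
        rintro p ⟨rfl⟩
        have := ho _ rfl
        push_cast at this
        constructor <;> simp only <;> omega
    · exact Or.inl ⟨fun p h => by simp at h, rfl⟩
  refine ⟨B', ⟨fun o ho => ?_, fun o ho o' ho' hne => ?_⟩, fun o ho => ?_,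
    fun o ho o' ho' e e' => ?_, fun j => ?_⟩
  · obtain ⟨a1, a2⟩ | ⟨v, rfl, a2⟩ := key o ho <;> rw [a2]
    · exact hB.conn o a1
    · exact Conn.singleton _ _
  · obtain ⟨a1, a2⟩ | ⟨v, rfl, a2⟩ := key o ho <;>
      obtain ⟨b1, b2⟩ | ⟨v', rfl, b2⟩ := key o' ho' <;> rw [a2, b2]
    · exact hB.disj o a1 o' b1 hne
    · exact Set.disjoint_singleton_right.2 fun h => (hφ v').2 (h1 o a1 h)
    · exact Set.disjoint_singleton_left.2 fun h => (hφ v).2 (h1 o' b1 h)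
    · simpa using fun h => hne (by rw [p1 h])
  · obtain ⟨a1, a2⟩ | ⟨v, rfl, a2⟩ := key o ho <;> rw [a2]
    · exact (h1 o a1).trans hA
    · rintro _ rfl; exact (hφ v).1
  · obtain ⟨a1, a2⟩ | ⟨v, rfl, a2⟩ := key o ho <;>
      obtain ⟨b1, b2⟩ | ⟨v', rfl, b2⟩ := key o' ho' <;> rw [a2, b2]
    · exact h2 o a1 o' b1 e e'
    · rcases o with ⟨t, u⟩ | j
      · have := a1 _ rfl
        rcases e with ⟨e, -⟩ | ⟨e, j, e1, e2⟩
        · simp only at e this; omega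
        · simp only at e this
          have h4 := h3 j
          have hN : N ≠ 0 := by omega
          simp only [Ty.lab, e1, Option.elim, if_neg hN] at h4
          rw [show (N : ℤ) - 1 = t by omega] at h4
          exact ⟨_, h4, _, rfl, (p4 j v').1 e2⟩
      · exact e.elim
    · rcases o' with ⟨t, u⟩ | j
      · have := b1 _ rfl
        rcases e with ⟨e, -⟩ | ⟨e, -⟩ <;> simp only at e this <;> omega
      · have h4 := h3 j
        simp only [Ty.lab, e.1, Option.elim] at h4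
        exact ⟨_, rfl, _, h4, ((p4 j v).1 e.2).symm⟩
    · rcases e with ⟨-, e⟩ | ⟨e, -⟩
      · exact ⟨_, rfl, _, rfl, (p3 _ _).1 e⟩
      · simp at e
  · have h4 := h3 j
    rcases hj : τ.2.2 j with _ | u
    · simp only [Ty.lab, hj, Option.elim] at h4 ⊢
      rw [p5 j hj]; exact h4
    · simp [Ty.lab, hj, B', p6 j u hj]

/-- a minor-closed class of finite graphs of density at most `β` -/
structure Cls (β : ℝ) (C : ∀ V : Type, SimpleGraph V → Prop) : Prop where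
  fin : ∀ V G, C V G → Finite V
  minor : ∀ V W (G : SimpleGraph V) (H : SimpleGraph W), C V G → IsMinor H G → C W H
  bd : ∀ V G, C V G → (dn G : ℝ) ≤ 2 * β * Nat.card V

/-- the type occurs arbitrarily often -/
def Rec (C : ∀ V : Type, SimpleGraph V → Prop) (τ : Ty s l) : Prop :=
  ∀ N : ℕ, ∃ N', N ≤ N' ∧ ∃ (V : Type) (G : SimpleGraph V) (A : Set V) (a : Fin s → V),
    C V G ∧ Occ τ N' G A a

lemma Rec.mem {β : ℝ} {C : ∀ V : Type, SimpleGraph V → Prop} (hC : Cls β C) {τ : Ty s l}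
    (h : Rec C τ) (W : Type) [Finite W] (K : SimpleGraph W) (hK : FinMinor K (τ.per.gr ℤ)) :
    C W K := by
  obtain ⟨B, hB, hf, ht⟩ := hK
  obtain ⟨M, hM⟩ := ((Set.finite_iUnion hf).image
    (Sum.elim (fun p => p.1.natAbs) (fun _ => 0))).bddAbove
  obtain ⟨N, hN, V, G, A, a, hG, D, hD, -, h2, -⟩ := h (2 * M + 1)
  have hw : ∀ j, ∀ o ∈ sh (M : ℤ) '' B j, o ∈ Win s l N := by
    rintro j _ ⟨⟨t, v⟩ | x, ho, rfl⟩ p e
    · have : t.natAbs ≤ M := hM ⟨_, Set.mem_iUnion.2 ⟨j, ho⟩, rfl⟩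
      obtain rfl := inl.inj e
      simp only [Prod.map_apply]
      omega
    · simp [sh] at e
  have hadj : ∀ o ∈ Win s l N, ∀ o' ∈ Win s l N, (τ.per.gr ℤ).Adj o o' →
      Touch G (D o) (D o') := by
    rintro o ho o' ho' ⟨e, h | h⟩
    · exact h2 o ho o' ho' h e
    · exact (h2 o' ho' o ho h e.symm).symm
  refine hC.minor V W G K hG ⟨fun j => ⋃ o ∈ sh (M : ℤ) '' B j, D o,
    ⟨fun j _ => ?_, fun i _ j _ hij => ?_⟩, fun i j hij => ?_⟩
  · exact (conn_sh _ (hB.conn j trivial)).biUnion D (fun o ho => hD.conn o (hw j o ho))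
      fun o ho o' ho' => hadj o (hw j o ho) o' (hw j o' ho')
  · rw [Set.disjoint_left]
    intro v hv hv'
    obtain ⟨o, ho, hv⟩ := Set.mem_iUnion₂.1 hv
    obtain ⟨o', ho', hv'⟩ := Set.mem_iUnion₂.1 hv'
    by_cases e : o = o'
    · subst e
      exact Set.disjoint_left.1 (Set.disjoint_image_of_injective (sh_inj _)
        (hB.disj i trivial j trivial hij)) ho ho'
    · exact Set.disjoint_left.1 (hD.disj o (hw i o ho) o' (hw j o' ho') e) hv hv'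
  · obtain ⟨x, hx, y, hy, h⟩ := touch_sh (M : ℤ) (ht i j hij)
    exact (hadj x (hw i x hx) y (hw j y hy) h).mono (fun v hv => Set.mem_biUnion hx hv)
      (fun v hv => Set.mem_biUnion hy hv)

lemma Rec.ach {β : ℝ} {C : ∀ V : Type, SimpleGraph V → Prop} (hC : Cls β C) {t : ℕ}
    (h5 : ¬ C _ (completeBipartiteGraph (Fin 5) (Fin t))) {τ : Ty s l} (h : Rec C τ)
    (hl : 1 ≤ l) (hw : 2 * β * l ≤ τ.per.wt) : Ach β := by
  have : Nonempty (Fin l) := ⟨⟨0, hl⟩⟩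
  exact per_ach (P := τ.per) (fun W _ K hK => hC.bd _ _ (h.mem hC W K hK))
    (fun hK => h5 (h.mem hC _ _ hK)) (by simpa using hw)

end Pool.Agent.MP_c60df9_co.H39
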