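import Pool.Agent.MP_c60df9_co.H39.Gadget

set_option autoImplicit false

namespace Pool.Agent.MP_c60df9_co.H39

open Sum

variable {I X J : Type}

/-- a periodic strip with apex vertices -/
structure Per (I X : Type) : Type where
  A0 : I → I → Prop
  A1 : I → I → Prop
  AX : I → X → Prop

/-- generating relation of the strip -/
def Per.rel (P : Per I X) (Z : Type) [Add Z] [One Z] : (Z × I) ⊕ X → (Z × I) ⊕ X → Prop
  | inl p, inl q => (p.1 = q.1 ∧ P.A0 p.2 q.2) ∨ (q.1 = p.1 + 1 ∧ P.A1 p.2 q.2)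
  | inl p, inr x => P.AX p.2 x
  | inr _, _ => False

/-- the strip over `Z` -/
def Per.gr (P : Per I X) (Z : Type) [Add Z] [One Z] : SimpleGraph ((Z × I) ⊕ X) :=
  SimpleGraph.fromRel (P.rel Z)

/-- minor with finite branch sets -/
def FinMinor {V W : Type} (K : SimpleGraph W) (G : SimpleGraph V) : Prop :=
  ∃ B : W → Set V, ModelOn G Set.univ B ∧ (∀ j, (B j).Finite) ∧
    ∀ i j, K.Adj i j → Touch G (B i) (B j)

/-- projection to the ring -/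
def pj : (ℤ × I) ⊕ X → (ZMod 3 × I) ⊕ X := Sum.map (Prod.map Int.cast id) id

/-- shift -/
def sh (k : ℤ) : (ℤ × I) ⊕ X → (ℤ × I) ⊕ X := Sum.map (Prod.map (· + k) id) id

variable {P : Per I X}

lemma sh_sh (k l : ℤ) (a : (ℤ × I) ⊕ X) : sh k (sh l a) = sh (l + k) a := by
  rcases a with ⟨t, v⟩ | x <;> simp [sh, add_assoc]

lemma sh_inj (k : ℤ) : Function.Injective (sh k : (ℤ × I) ⊕ X → _) := by
  rintro (⟨t, v⟩ | x) (⟨t', v'⟩ | x') h <;> simp_all [sh]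

lemma sh_rel (k : ℤ) {a b : (ℤ × I) ⊕ X} (h : P.rel ℤ a b) : P.rel ℤ (sh k a) (sh k b) := by
  rcases a with ⟨t, v⟩ | x <;> rcases b with ⟨t', v'⟩ | x'
  · rcases h with ⟨h1, h2⟩ | ⟨h1, h2⟩
    · exact Or.inl ⟨congrArg (· + k) h1, h2⟩
    · refine Or.inr ⟨?_, h2⟩
      simp only at h1
      simp [h1, add_right_comm]
  · exact h
  · exact h
  · exact h

lemma sh_adj (k : ℤ) {a b : (ℤ × I) ⊕ X} (h : (P.gr ℤ).Adj a b) :
    (P.gr ℤ).Adj (sh k a) (sh k b) :=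
  ⟨fun e => h.1 (sh_inj k e), h.2.imp (sh_rel k) (sh_rel k)⟩

lemma pj_sh (k : ℤ) (a : (ℤ × I) ⊕ X) : pj (sh (3 * k) a) = pj a := by
  rcases a with ⟨t, v⟩ | x
  · have : ((3 : ℤ) : ZMod 3) = 0 := rfl
    simp only [pj, sh, Sum.map_inl, Prod.map_apply, Int.cast_add, Int.cast_mul, this, zero_mul,
      add_zero, id]
  · rfl

lemma pj_fib {a b : (ℤ × I) ⊕ X} (h : pj a = pj b) : ∃ k, b = sh (3 * k) a := by
  rcases a with ⟨t, v⟩ | x <;> rcases b with ⟨t', v'⟩ | x' <;>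
    simp only [pj, Sum.map_inl, Sum.map_inr, Prod.map_apply, inl.injEq, inr.injEq, Prod.mk.injEq,
      id, reduceCtorEq] at h
  · obtain ⟨h1, rfl⟩ := h
    obtain ⟨k, hk⟩ := (ZMod.intCast_eq_intCast_iff_dvd_sub t t' 3).1 h1
    refine ⟨k, ?_⟩
    have : t' = t + 3 * k := by push_cast at hk; linarith
    simp [sh, this]
  · exact ⟨0, by simp [sh, h]⟩

lemma pj_surj : Function.Surjective (pj : (ℤ × I) ⊕ X → _) := by
  rintro (⟨t, v⟩ | x)
  · obtain ⟨k, rfl⟩ := ZMod.intCast_surjective t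
    exact ⟨inl (k, v), rfl⟩
  · exact ⟨inr x, rfl⟩

lemma pj_lift (a : (ℤ × I) ⊕ X) (b : (ZMod 3 × I) ⊕ X) (h : (P.gr (ZMod 3)).Adj (pj a) b) :
    ∃ c, (P.gr ℤ).Adj a c ∧ pj c = b := by
  have key : ∃ c, (P.rel ℤ a c ∨ P.rel ℤ c a) ∧ pj c = b := by
    rcases a with ⟨t, v⟩ | x <;> rcases b with ⟨t', v'⟩ | x'
    · rcases h.2 with (⟨h1, h2⟩ | ⟨h1, h2⟩) | (⟨h1, h2⟩ | ⟨h1, h2⟩) <;>
        simp only [Prod.map_apply, id] at h1 h2
      · exact ⟨inl (t, v'), Or.inl (Or.inl ⟨rfl, h2⟩), by simp [pj, h1]⟩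
      · exact ⟨inl (t + 1, v'), Or.inl (Or.inr ⟨rfl, h2⟩), by simp [pj, h1]⟩
      · exact ⟨inl (t, v'), Or.inr (Or.inl ⟨rfl, h2⟩), by simp [pj, h1]⟩
      · exact ⟨inl (t - 1, v'), Or.inr (Or.inr ⟨by simp, h2⟩), by simp [pj, h1]⟩
    · exact ⟨inr x', Or.inl (h.2.resolve_right id), rfl⟩
    · obtain ⟨k, rfl⟩ := ZMod.intCast_surjective t'
      exact ⟨inl (k, v'), Or.inr (h.2.resolve_left id), rfl⟩
    · exact absurd (h.2.resolve_left id) id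
  obtain ⟨c, h1, rfl⟩ := key
  exact ⟨c, ⟨fun e => h.1 (congrArg pj e), h1⟩, rfl⟩

lemma conn_sh (k : ℤ) {S : Set ((ℤ × I) ⊕ X)} (h : Conn (P.gr ℤ) S) : Conn (P.gr ℤ) (sh k '' S) :=
  h.image _ fun _ _ _ _ h => Or.inl (sh_adj k h)

lemma touch_sh (k : ℤ) {S T : Set ((ℤ × I) ⊕ X)} (h : Touch (P.gr ℤ) S T) :
    Touch (P.gr ℤ) (sh k '' S) (sh k '' T) := by
  obtain ⟨x, hx, y, hy, h⟩ := h
  exact ⟨_, ⟨x, hx, rfl⟩, _, ⟨y, hy, rfl⟩, sh_adj k h⟩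

/-- a lift of a connected set of the ring -/
lemma exists_lift [Finite I] [Finite X] {S : Set ((ZMod 3 × I) ⊕ X)}
    (hS : Conn (P.gr (ZMod 3)) S) :
    ∃ L : Set ((ℤ × I) ⊕ X), Conn (P.gr ℤ) L ∧ L.Finite ∧ pj '' L = S ∧ Set.InjOn pj L := by
  obtain ⟨s, h1, h2⟩ := exists_section pj pj_surj pj_lift hS (Set.toFinite _)
  refine ⟨s '' S, h2, (Set.toFinite S).image _, ?_, ?_⟩
  · rw [Set.image_image, Set.image_congr h1, Set.image_id']
  · rintro _ ⟨a, ha, rfl⟩ _ ⟨b, hb, rfl⟩ h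
    rw [h1 a ha, h1 b hb] at h
    rw [h]

lemma touch_lift {L L' : Set ((ℤ × I) ⊕ X)} (h : Touch (P.gr (ZMod 3)) (pj '' L) (pj '' L')) :
    ∃ k : ℤ, Touch (P.gr ℤ) L (sh (3 * k) '' L') := by
  obtain ⟨_, ⟨x, hx, rfl⟩, _, ⟨y, hy, rfl⟩, h⟩ := h
  obtain ⟨c, h1, h2⟩ := pj_lift x _ h
  obtain ⟨k, rfl⟩ := pj_fib h2.symm
  exact ⟨k, x, hx, _, ⟨y, hy, rfl⟩, h1⟩

lemma disj_sh {L : Set ((ℤ × I) ⊕ X)} (hi : Set.InjOn pj L) (hx : ∀ x, inr x ∉ L) {k l : ℤ}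
    (h : k ≠ l) : Disjoint (sh (3 * k) '' L) (sh (3 * l) '' L) := by
  rw [Set.disjoint_left]
  rintro _ ⟨a, ha, rfl⟩ ⟨b, hb, e⟩
  obtain rfl : b = a := hi hb ha (by rw [← pj_sh l, e, pj_sh])
  rcases b with ⟨t, v⟩ | x
  · simp only [sh, Sum.map_inl, Prod.map_apply, inl.injEq, Prod.mk.injEq] at e
    omega
  · exact hx x ha

lemma pj_mem {L : Set ((ℤ × I) ⊕ X)} {k : ℤ} {a : (ℤ × I) ⊕ X} (h : a ∈ sh (3 * k) '' L) :
    pj a ∈ pj '' L := by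
  obtain ⟨b, hb, rfl⟩ := h
  exact ⟨b, hb, (pj_sh k b).symm⟩

lemma ring_RB [Finite I] [Finite X] {β : ℝ}
    (hF : ∀ (W : Type) [Finite W] (K : SimpleGraph W), FinMinor K (P.gr ℤ) →
      (dn K : ℝ) ≤ 2 * β * Nat.card W) : RB β (P.gr (ZMod 3)) := by
  classical
  intro J _ T B F hM
  choose LB b1 b2 b3 b4 using fun j : T => exists_lift (hM.mB.conn j j.2)
  choose LF f1 f2 f3 f4 using fun x : X => exists_lift (hM.mF.conn x trivial)
  have hroot : ∀ x, inr x ∈ LF x := by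
    intro x
    obtain ⟨a, ha, e⟩ : inr x ∈ pj '' LF x := f3 x ▸ hM.root x
    rcases a with p | y
    · simp [pj] at e
    · obtain rfl : y = x := by simpa [pj] using e
      exact ha
  have hnr : ∀ j x, inr x ∉ LB j := fun j x h =>
    Set.disjoint_left.1 (hM.dBF j j.2 x) (b3 j ▸ ⟨_, h, rfl⟩) (hM.root x)
  choose d1 hd1 using fun p : tp (P.gr (ZMod 3)) T B =>
    touch_lift (P := P) (L := LB ⟨p.1.1, p.2.1⟩) (L' := LB ⟨p.1.2, p.2.2.1⟩)
      (by rw [b3, b3]; exact p.2.2.2.2)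
  choose d2 hd2 using fun p : tq (P.gr (ZMod 3)) T B F =>
    touch_lift (P := P) (L := LB ⟨p.1.1, p.2.1⟩) (L' := LF p.1.2) (by rw [b3, f3]; exact p.2.2)
  obtain ⟨M1, hM1⟩ := (Set.finite_range fun p => (d1 p).natAbs).bddAbove
  obtain ⟨M2, hM2⟩ := (Set.finite_range fun p => (d2 p).natAbs).bddAbove
  have m1 : ∀ p, (d1 p).natAbs ≤ M1 + M2 := fun p => le_add_right (hM1 ⟨p, rfl⟩)
  have m2 : ∀ p, (d2 p).natAbs ≤ M1 + M2 := fun p => le_add_left (hM2 ⟨p, rfl⟩)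
  generalize M1 + M2 = M at m1 m2
  have key : ∀ N : ℕ, (N : ℝ) * ((tp (P.gr (ZMod 3)) T B).ncard +
      2 * (tq (P.gr (ZMod 3)) T B F).ncard) ≤ 2 * β * ((N + 2 * M) * T.ncard + Nat.card X) := by
    intro N
    let C : (Fin (N + 2 * M) × T) ⊕ X → Set ((ℤ × I) ⊕ X) :=
      Sum.elim (fun p => sh (3 * (p.1 : ℕ)) '' LB p.2)
        (fun x => {inr x} ∪ ⋃ k : Fin (N + 2 * M), sh (3 * (k : ℕ)) '' LF x)
    have pB : ∀ p a, a ∈ C (inl p) → pj a ∈ B p.2 := fun p a h => b3 p.2 ▸ pj_mem h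
    have pF : ∀ x a, a ∈ C (inr x) → pj a ∈ F x := by
      rintro x a (rfl | h)
      · exact hM.root x
      · obtain ⟨k, h⟩ := Set.mem_iUnion.1 h
        exact f3 x ▸ pj_mem h
    have hC : ModelOn (P.gr ℤ) Set.univ C := by
      constructor
      · rintro (p | x) -
        · exact conn_sh _ (b1 _)
        · refine Conn.of_cover (r := inr x) (Or.inl rfl) ?_
          rintro v (rfl | h)
          · exact ⟨_, Set.subset_union_left, Conn.singleton _ _, rfl, rfl⟩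
          · obtain ⟨k, h⟩ := Set.mem_iUnion.1 h
            exact ⟨_, fun a ha => Or.inr (Set.mem_iUnion.2 ⟨k, ha⟩), conn_sh _ (f1 x),
              ⟨_, hroot x, rfl⟩, h⟩
      · rintro (⟨k, j⟩ | x) - (⟨k', j'⟩ | x') - h
        · by_cases hj : j = j'
          · subst hj
            refine disj_sh (b4 j) (hnr j) fun e => h ?_
            rw [show k = k' from Fin.ext (Int.natCast_inj.1 e)]
          · exact Set.disjoint_left.2 fun a h1 h2 => Set.disjoint_left.1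
              (hM.mB.disj j j.2 j' j'.2 fun e => hj (Subtype.ext e)) (pB _ _ h1) (pB _ _ h2)
        · exact Set.disjoint_left.2 fun a h1 h2 => Set.disjoint_left.1
            (hM.dBF j j.2 x') (pB _ _ h1) (pF _ _ h2)
        · exact Set.disjoint_left.2 fun a h1 h2 => Set.disjoint_left.1
            (hM.dBF j' j'.2 x) (pB _ _ h2) (pF _ _ h1)
        · exact Set.disjoint_left.2 fun a h1 h2 => Set.disjoint_left.1
            (hM.mF.disj x trivial x' trivial fun e => h (congrArg inr e)) (pF _ _ h1) (pF _ _ h2)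
    have hfin : ∀ j, (C j).Finite := by
      rintro (p | x)
      · exact (b2 _).image _
      · exact (Set.finite_singleton _).union (Set.finite_iUnion fun k => (f2 x).image _)
    have h1 := hF _ (tg (P.gr ℤ) C) ⟨C, hC, hfin, fun _ _ h => h.2⟩
    have t2 : ∀ (i : Fin N) (p : tq (P.gr (ZMod 3)) T B F),
        Touch (P.gr ℤ) (C (inl (⟨M + i, by omega⟩, ⟨p.1.1, p.2.1⟩))) (C (inr p.1.2)) := by
      intro i p
      have := m2 p
      refine (touch_sh (3 * ((M + i : ℕ) : ℤ)) (hd2 p)).mono subset_rfl ?_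
      intro a ha
      refine Or.inr (Set.mem_iUnion.2 ⟨⟨(d2 p + (M + i : ℕ)).toNat, by omega⟩, ?_⟩)
      rw [Set.image_image] at ha
      simp only [sh_sh] at ha
      rw [Int.toNat_of_nonneg (by omega), mul_add]
      exact ha
    let g : Fin N × (tp (P.gr (ZMod 3)) T B ⊕ tq (P.gr (ZMod 3)) T B F ⊕ tq (P.gr (ZMod 3)) T B F) →
        {p : ((Fin (N + 2 * M) × T) ⊕ X) × ((Fin (N + 2 * M) × T) ⊕ X) |
          (tg (P.gr ℤ) C).Adj p.1 p.2} := fun z => match z with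
      | (i, inl p) => ⟨(inl (⟨M + i, by omega⟩, ⟨p.1.1, p.2.1⟩),
          inl (⟨(d1 p + (M + i : ℕ)).toNat, by have := m1 p; omega⟩, ⟨p.1.2, p.2.2.1⟩)),
          fun e => p.2.2.2.1 (congrArg Subtype.val (congrArg Prod.snd (inl.inj e))), by
            have := m1 p
            refine (touch_sh (3 * ((M + i : ℕ) : ℤ)) (hd1 p)).mono subset_rfl ?_
            intro a ha
            rw [Set.image_image] at ha
            simp only [sh_sh] at ha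
            show a ∈ sh (3 * (((d1 p + (M + i : ℕ)).toNat : ℕ) : ℤ)) '' _
            rw [Int.toNat_of_nonneg (by omega), mul_add]
            exact ha⟩
      | (i, inr (inl p)) => ⟨(inl (⟨M + i, by omega⟩, ⟨p.1.1, p.2.1⟩), inr p.1.2),
          by simp, t2 i p⟩
      | (i, inr (inr p)) => ⟨(inr p.1.2, inl (⟨M + i, by omega⟩, ⟨p.1.1, p.2.1⟩)),
          by simp, (t2 i p).symm⟩
    have hg : Function.Injective g := by
      rintro ⟨i, ⟨⟨a, b⟩, h⟩ | ⟨⟨a, b⟩, h⟩ | ⟨⟨a, b⟩, h⟩⟩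
        ⟨i', ⟨⟨a', b'⟩, h'⟩ | ⟨⟨a', b'⟩, h'⟩ | ⟨⟨a', b'⟩, h'⟩⟩ e <;>
        simp only [g, Subtype.mk.injEq, Prod.mk.injEq, inl.injEq, inr.injEq, Fin.mk.injEq,
          reduceCtorEq, and_false, false_and, Nat.add_left_cancel_iff] at e
      · obtain ⟨⟨e, rfl⟩, -, rfl⟩ := e; rw [Fin.ext e]
      · obtain ⟨⟨e, rfl⟩, rfl⟩ := e; rw [Fin.ext e]
      · obtain ⟨rfl, e, rfl⟩ := e; rw [Fin.ext e]
    have h2 := Nat.card_le_card_of_injective g hg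
    simp only [Nat.card_sum, Nat.card_prod, Nat.card_coe_set_eq, Nat.card_eq_fintype_card,
      Fintype.card_fin] at h1 h2
    have h3 : ((_ : ℕ) : ℝ) ≤ _ := Nat.cast_le.2 h2
    rw [dn] at h1
    push_cast at h1 h3
    linarith
  by_contra hlt
  push Not at hlt
  obtain ⟨N, hN⟩ := exists_nat_gt (2 * β * (2 * M * T.ncard + Nat.card X) /
    ((tp (P.gr (ZMod 3)) T B).ncard + 2 * (tq (P.gr (ZMod 3)) T B F).ncard - 2 * β * T.ncard))
  rw [div_lt_iff₀ (sub_pos.2 hlt)] at hN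
  have := key N
  nlinarith

/-- twice the number of edges per period -/
noncomputable def Per.wt (P : Per I X) : ℕ :=
  {p : I × I | p.1 ≠ p.2 ∧ P.A0 p.1 p.2}.ncard + 2 * {p : I × I | P.A1 p.1 p.2}.ncard +
    2 * {p : I × X | P.AX p.1 p.2}.ncard

lemma ring_count [Finite I] [Finite X] :
    3 * P.wt ≤ (ii (P.gr (ZMod 3))).ncard + 2 * (ix (P.gr (ZMod 3))).ncard := by
  have z1 : ∀ t : ZMod 3, t ≠ t + 1 := by decide
  have z2 : ∀ t : ZMod 3, t ≠ t + 1 + 1 := by decide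
  let g : ZMod 3 × ({p : I × I | p.1 ≠ p.2 ∧ P.A0 p.1 p.2} ⊕ {p : I × I | P.A1 p.1 p.2} ⊕
      {p : I × I | P.A1 p.1 p.2}) → ii (P.gr (ZMod 3)) := fun z => match z with
    | (t, inl p) => ⟨((t, p.1.1), (t, p.1.2)),
        fun e => p.2.1 (congrArg Prod.snd (inl.inj e)), Or.inl (Or.inl ⟨rfl, p.2.2⟩)⟩
    | (t, inr (inl p)) => ⟨((t, p.1.1), (t + 1, p.1.2)),
        fun e => z1 t (congrArg Prod.fst (inl.inj e)), Or.inl (Or.inr ⟨rfl, p.2⟩)⟩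
    | (t, inr (inr p)) => ⟨((t + 1, p.1.2), (t, p.1.1)),
        fun e => z1 t (congrArg Prod.fst (inl.inj e)).symm, Or.inr (Or.inr ⟨rfl, p.2⟩)⟩
  have hg : Function.Injective g := by
    rintro ⟨t, ⟨⟨a, b⟩, h⟩ | ⟨⟨a, b⟩, h⟩ | ⟨⟨a, b⟩, h⟩⟩
      ⟨t', ⟨⟨a', b'⟩, h'⟩ | ⟨⟨a', b'⟩, h'⟩ | ⟨⟨a', b'⟩, h'⟩⟩ e <;>
      simp only [g, Subtype.mk.injEq, Prod.mk.injEq] at e
    · obtain ⟨⟨rfl, rfl⟩, -, rfl⟩ := e; rfl
    · obtain ⟨⟨rfl, -⟩, e, -⟩ := e; exact absurd e (z1 _)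
    · obtain ⟨⟨e, -⟩, rfl, -⟩ := e; exact absurd e (z1 _)
    · obtain ⟨⟨rfl, -⟩, e, -⟩ := e; exact absurd e.symm (z1 _)
    · obtain ⟨⟨rfl, rfl⟩, -, rfl⟩ := e; rfl
    · obtain ⟨⟨e, -⟩, rfl, -⟩ := e; exact absurd e (z2 _)
    · obtain ⟨⟨e, -⟩, rfl, -⟩ := e; exact absurd e.symm (z1 _)
    · obtain ⟨⟨rfl, -⟩, e, -⟩ := e; exact absurd e (z2 _)
    · obtain ⟨⟨-, rfl⟩, rfl, rfl⟩ := e; rfl
  let g2 : ZMod 3 × {p : I × X | P.AX p.1 p.2} → ix (P.gr (ZMod 3)) := fun z =>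
    ⟨((z.1, z.2.1.1), z.2.1.2), by simp, Or.inl z.2.2⟩
  have hg2 : Function.Injective g2 := by
    rintro ⟨t, ⟨a, b⟩, h⟩ ⟨t', ⟨a', b'⟩, h'⟩ e
    simp only [g2, Subtype.mk.injEq, Prod.mk.injEq] at e
    obtain ⟨⟨rfl, rfl⟩, rfl⟩ := e; rfl
  have h1 := Nat.card_le_card_of_injective g hg
  have h2 := Nat.card_le_card_of_injective g2 hg2
  simp only [Nat.card_sum, Nat.card_prod, Nat.card_coe_set_eq, Nat.card_zmod] at h1 h2
  rw [Per.wt]
  omega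

lemma ring_five [Finite I] [Finite X] {t : ℕ}
    (h5 : ¬ FinMinor (completeBipartiteGraph (Fin 5) (Fin t)) (P.gr ℤ)) (C : Set (ZMod 3 × I))
    (hC : Conn ((P.gr (ZMod 3)).comap inl) C) :
    {x | ∃ v ∈ C, (P.gr (ZMod 3)).Adj (inl v) (inr x)}.ncard ≤ 4 := by
  by_contra hlt
  apply h5
  obtain ⟨N, hN, hN5⟩ := Set.exists_subset_card_eq (n := 5) (not_le.1 hlt)
  have e : N ≃ Fin 5 := Finite.equivFinOfCardEq (by rw [Nat.card_coe_set_eq, hN5])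
  obtain ⟨L, b1, b2, b3, b4⟩ := exists_lift (P := P) (S := inl '' C)
    (hC.image _ fun _ _ _ _ h => Or.inl h)
  have hnr : ∀ x, inr x ∉ L := by
    intro x h
    have : pj (inr x) ∈ inl '' C := b3 ▸ ⟨_, h, rfl⟩
    simp [pj] at this
  have ht : ∀ (i : Fin 5) (k : ℤ), Touch (P.gr ℤ) {inr (e.symm i).1} (sh (3 * k) '' L) := by
    intro i k
    obtain ⟨v, hv, h⟩ := hN (e.symm i).2
    obtain ⟨a, ha, ea⟩ : inl v ∈ pj '' L := b3 ▸ ⟨v, hv, rfl⟩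
    rw [← ea] at h
    obtain ⟨c, h1, h2⟩ := pj_lift a _ h
    obtain ⟨l, rfl⟩ := pj_fib (a := inr (e.symm i).1) h2.symm
    exact ⟨_, rfl, _, ⟨a, ha, rfl⟩, (sh_adj (3 * k) h1).symm⟩
  have hd : ∀ (x : X) (k : ℤ), Disjoint {inr x} (sh (3 * k) '' L) := by
    intro x k
    rw [Set.disjoint_left]
    rintro _ rfl ⟨a, ha, ea⟩
    obtain rfl : a = inr x := sh_inj (3 * k) ea
    exact hnr x ha
  refine ⟨Sum.elim (fun i => {inr (e.symm i).1}) (fun k => sh (3 * (k : ℕ)) '' L), ⟨?_, ?_⟩, ?_, ?_⟩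
  · rintro (i | k) -
    · exact Conn.singleton _ _
    · exact conn_sh _ b1
  · rintro (i | k) - (i' | k') - h
    · simpa [Subtype.val_inj] using h
    · exact hd _ _
    · exact (hd _ _).symm
    · exact disj_sh b4 hnr fun e => h (congrArg inr (Fin.ext (Int.natCast_inj.1 e)))
  · rintro (i | k)
    · exact Set.finite_singleton _
    · exact b2.image _
  · rintro (i | k) (i' | k') h
    · simp at h
    · exact ht _ _
    · exact (ht _ _).symm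
    · simp at h

theorem per_ach [Finite I] [Finite X] [Nonempty I] {β : ℝ} {t : ℕ}
    (hF : ∀ (W : Type) [Finite W] (K : SimpleGraph W), FinMinor K (P.gr ℤ) →
      (dn K : ℝ) ≤ 2 * β * Nat.card W)
    (h5 : ¬ FinMinor (completeBipartiteGraph (Fin 5) (Fin t)) (P.gr ℤ))
    (hw : 2 * β * Nat.card I ≤ P.wt) : Ach β := by
  refine gadget_ach (ring_RB hF) ?_ (ring_five h5)
  have h1 : ((_ : ℕ) : ℝ) ≤ _ := Nat.cast_le.2 (ring_count (P := P))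
  rw [Nat.card_prod, Nat.card_zmod]
  push_cast at h1 ⊢
  linarith

end Pool.Agent.MP_c60df9_co.H39
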