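import Pool.Agent.MP_c60df9_co.H39.Chain

set_option autoImplicit false

namespace Pool.Agent.MP_c60df9_co.H39

variable {V : Type} {G : SimpleGraph V}

/-- every proper minor keeping the vertices of `Z` apart has smaller excess -/
def SM (γ : ℝ) (G : SimpleGraph V) (Z : Set V) : Prop :=
  ∀ (J : Type) [Finite J] (B : J → Set V) (π : Z → J), ModelOn G Set.univ B →
    (∀ v, v.1 ∈ B (π v)) → Function.Injective π → Nat.card J < Nat.card V →
    (dn (tg G B) : ℝ) - γ * Nat.card J < dn G - γ * Nat.card V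

lemma SM.mono {γ : ℝ} {Z Z' : Set V} (h : SM γ G Z) (hZ : Z ⊆ Z') : SM γ G Z' := by
  intro J _ B π hB h1 h2
  exact h J B (fun v => π ⟨v.1, hZ v.2⟩) hB (fun v => h1 ⟨v.1, hZ v.2⟩)
    fun a b e => Subtype.ext (congrArg Subtype.val (h2 e) :)

lemma exists_sm (γ : ℝ) (Z : Set V) (A : Set V) (n : ℕ) : ∀ (J : Type) [Finite J] (B : J → Set V)
    (π : Z → J), Nat.card J < n → ModelOn G Set.univ B → (∀ v, v.1 ∈ B (π v)) →
    Function.Injective π → (∀ j, B j ⊆ A) →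
    ∃ (J' : Type) (_ : Finite J') (B' : J' → Set V) (π' : Z → J'), ModelOn G Set.univ B' ∧
      (∀ v, v.1 ∈ B' (π' v)) ∧ Function.Injective π' ∧ (∀ j, B' j ⊆ A) ∧
      SM γ (tg G B') (Set.range π') ∧
      (dn (tg G B) : ℝ) - γ * Nat.card J ≤ dn (tg G B') - γ * Nat.card J' := by
  induction n with
  | zero => intro J _ B π h; omega
  | succ n ih =>
    intro J _ B π hn hB h1 h2 h3
    by_cases hs : SM γ (tg G B) (Set.range π)
    · exact ⟨J, inferInstance, B, π, hB, h1, h2, h3, hs, le_rfl⟩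
    unfold SM at hs
    push Not at hs
    obtain ⟨K, _, D, κ, hD, d1, d2, d3, d4⟩ := hs
    have hm : ModelOn G Set.univ (fun k => ⋃ j ∈ D k, B j) := by
      refine ⟨fun k hk => (hD.conn k hk).biUnion B (fun j _ => hB.conn j trivial)
        fun a _ b _ h => h.2, fun i hi k hk hik => ?_⟩
      rw [Set.disjoint_left]
      intro v hv hv'
      obtain ⟨w, hw, hv⟩ := Set.mem_iUnion₂.1 hv
      obtain ⟨w', hw', hv'⟩ := Set.mem_iUnion₂.1 hv'
      by_cases h : w = w'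
      · subst h; exact Set.disjoint_left.1 (hD.disj i hi k hk hik) hw hw'
      · exact Set.disjoint_left.1 (hB.disj w trivial w' trivial h) hv hv'
    obtain ⟨J', _, B', π', e1, e2, e3, e4, e5, e6⟩ := ih K (fun k => ⋃ j ∈ D k, B j)
      (fun v => κ ⟨π v, v, rfl⟩) (by omega) hm
      (fun v => Set.mem_biUnion (d1 ⟨π v, v, rfl⟩) (h1 v))
      (fun a b e => h2 (congrArg Subtype.val (d2 e) :))
      (fun k => Set.iUnion₂_subset fun j _ => h3 j)
    refine ⟨J', inferInstance, B', π', e1, e2, e3, e4, e5, le_trans ?_ e6⟩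
    have : dn (tg (tg G B) D) ≤ dn (tg G fun k => ⋃ j ∈ D k, B j) := by
      refine Set.ncard_le_ncard ?_
      rintro p ⟨h, x, hx, y, hy, h'⟩
      exact ⟨h, h'.2.mono (fun v hv => Set.mem_biUnion hx hv) (fun v hv => Set.mem_biUnion hy hv)⟩
    have : ((_ : ℕ) : ℝ) ≤ _ := Nat.cast_le.2 this
    linarith

/-- ordered adjacent pairs with an end in `U` -/
noncomputable def dAt (G : SimpleGraph V) (U : Set V) : ℕ :=
  {p : V × V | G.Adj p.1 p.2 ∧ (p.1 ∈ U ∨ p.2 ∈ U)}.ncard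

/-- the value of a vertex set -/
noncomputable def vl (G : SimpleGraph V) (γ : ℝ) (U : Set V) : ℝ := dAt G U - γ * U.ncard

lemma SM.collapse [Finite V] {γ : ℝ} {U S U' S' : Set V} {t : V → V} (h : SM γ G U'ᶜ)
    (hU : U ⊆ U') (hd : Disjoint U S) (hd' : Disjoint U' S')
    (hc : ∀ x ∈ U, ∀ y, G.Adj x y → y ∈ U ∪ S) (hS : S ⊆ U' ∪ S')
    (hl : Lk G (U ∪ S) S (U' ∪ S') S' t) (him : t '' S = S') (hlt : U.ncard < U'.ncard) :
    vl G γ U < vl G γ U' := by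
  classical
  have hi := hl.injOn
  obtain ⟨Q, q1, q2⟩ := hl
  let B : ↥(U ∪ U'ᶜ) → Set V := fun j => {j.1} ∪ {v | ∃ u ∈ S, t u = j.1 ∧ v ∈ Q u}
  have hQ : ∀ u ∈ S, ∀ v ∈ Q u, v ∈ U ∪ U'ᶜ → v = t u := by
    intro u hu v hv hv'
    have h1 : v ∈ S' := by
      rcases (q1 u hu).2.2.2.2 hv with h | h <;> rcases hv' with h' | h'
      · exact absurd (Or.inl h') h.2
      · exact h.1.resolve_left h'
      · exact absurd h (Set.disjoint_left.1 hd h')
      · exact (hS h).resolve_left h'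
    obtain ⟨w, hw, rfl⟩ := him ▸ h1
    by_contra hne
    exact Set.disjoint_left.1 (q2 w hw u hu fun e => hne (e ▸ rfl)) (q1 w hw).2.2.1 hv
  have hB : ModelOn G Set.univ B := by
    refine ⟨fun j _ => Conn.of_cover (r := j.1) (Or.inl rfl) ?_, fun i _ j _ hij => ?_⟩
    · rintro v (rfl | ⟨u, hu, e, hv⟩)
      · exact ⟨_, Set.subset_union_left, Conn.singleton _ _, rfl, rfl⟩
      · exact ⟨Q u, fun w hw => Or.inr ⟨u, hu, e, hw⟩, (q1 u hu).1, e ▸ (q1 u hu).2.2.1, hv⟩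
    · rw [Set.disjoint_left]
      rintro v (rfl | ⟨u, hu, e, hv⟩) (e' | ⟨u', hu', e', hv'⟩)
      · exact hij (Subtype.ext e')
      · exact hij (Subtype.ext ((hQ u' hu' _ hv' i.2).trans e'))
      · obtain rfl : v = j.1 := e'
        exact hij (Subtype.ext ((hQ u hu _ hv j.2).trans e).symm)
      · by_cases hh : u = u'
        · subst hh; exact hij (Subtype.ext (e.symm.trans e'))
        · exact Set.disjoint_left.1 (q2 u hu u' hu' hh) hv hv'
  have hcard : Nat.card ↥(U ∪ U'ᶜ) + U'.ncard = Nat.card V + U.ncard := by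
    have hdj : Disjoint U U'ᶜ := Set.disjoint_left.2 fun v hv hv' => hv' (hU hv)
    rw [Nat.card_coe_set_eq, Set.ncard_union_eq hdj, ← Set.ncard_add_ncard_compl U']
    ring
  have h1 := h _ B (fun v => ⟨v.1, Or.inr v.2⟩) hB (fun v => Or.inl rfl)
    (fun a b e => Subtype.ext (congrArg Subtype.val e :)) (by omega)
  have tS : ∀ u ∈ S, t u ∉ U' := fun u hu h => Set.disjoint_left.1 hd' h (q1 u hu).2.2.2.1
  let g : V → V := fun x => if x ∈ U then x else t x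
  have hg : ∀ x ∈ U ∪ S, ∃ hx : g x ∈ U ∪ U'ᶜ, x ∈ B ⟨g x, hx⟩ := by
    intro x hx
    by_cases hxU : x ∈ U
    · simp only [g, if_pos hxU]
      exact ⟨Or.inl hxU, Or.inl rfl⟩
    · have hxS := hx.resolve_left hxU
      simp only [g, if_neg hxU]
      exact ⟨Or.inr (tS x hxS), Or.inr ⟨x, hxS, rfl, (q1 x hxS).2.1⟩⟩
  have gi : Set.InjOn g (U ∪ S) := by
    intro x hx y hy e
    by_cases hxU : x ∈ U <;> by_cases hyU : y ∈ U <;> simp only [g, hxU, hyU, if_true, if_false] at e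
    · exact e
    · exact absurd (hU hxU) (e ▸ tS y (hy.resolve_left hyU))
    · exact absurd (hU hyU) (e ▸ tS x (hx.resolve_left hxU))
    · exact hi (hx.resolve_left hxU) (hy.resolve_left hyU) e
  let E1 := {p : V × V | G.Adj p.1 p.2 ∧ (p.1 ∈ U ∨ p.2 ∈ U)}
  let E2 := {p : V × V | G.Adj p.1 p.2 ∧ p.1 ∉ U' ∧ p.2 ∉ U'}
  have hE1 : ∀ p ∈ E1, p.1 ∈ U ∪ S ∧ p.2 ∈ U ∪ S := by
    rintro p ⟨h, h' | h'⟩
    · exact ⟨Or.inl h', hc _ h' _ h⟩
    · exact ⟨hc _ h' _ h.symm, Or.inl h'⟩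
  have k1 : (Prod.map g g '' E1).ncard = dAt G U := by
    refine Set.InjOn.ncard_image fun p hp q hq e => ?_
    exact Prod.ext (gi (hE1 p hp).1 (hE1 q hq).1 (congrArg Prod.fst e))
      (gi (hE1 p hp).2 (hE1 q hq).2 (congrArg Prod.snd e))
  have k2 : Disjoint (Prod.map g g '' E1) E2 := by
    rw [Set.disjoint_left]
    rintro _ ⟨p, ⟨_, h | h⟩, rfl⟩ ⟨_, a, b⟩
    · exact a (by simpa [g, h] using hU h)
    · exact b (by simpa [g, h] using hU h)
  have k3 : (Prod.map g g '' E1 ∪ E2).ncard ≤ dn (tg G B) := by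
    refine le_trans (Set.ncard_le_ncard ?_)
      (Set.ncard_image_le (f := fun p : ↥(U ∪ U'ᶜ) × ↥(U ∪ U'ᶜ) => (p.1.1, p.2.1)))
    rintro _ (⟨p, hp, rfl⟩ | ⟨h, a, b⟩)
    · obtain ⟨a, a'⟩ := hg _ (hE1 p hp).1
      obtain ⟨b, b'⟩ := hg _ (hE1 p hp).2
      exact ⟨(⟨_, a⟩, ⟨_, b⟩), ⟨fun e => hp.1.ne (gi (hE1 p hp).1 (hE1 p hp).2
        (congrArg Subtype.val e)), _, a', _, b', hp.1⟩, rfl⟩
    · exact ⟨(⟨_, Or.inr a⟩, ⟨_, Or.inr b⟩), ⟨fun e => h.ne (congrArg Subtype.val e), _,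
        Or.inl rfl, _, Or.inl rfl, h⟩, rfl⟩
  have k4 : dn G ≤ E2.ncard + dAt G U' := by
    refine le_trans (Set.ncard_le_ncard ?_) (Set.ncard_union_le _ _)
    intro p hp
    by_cases hh : p.1 ∈ U' ∨ p.2 ∈ U'
    · exact Or.inr ⟨hp, hh⟩
    · exact Or.inl ⟨hp, not_or.1 hh⟩
  rw [Set.ncard_union_eq k2, k1] at k3
  have k3' : ((_ : ℕ) : ℝ) ≤ _ := Nat.cast_le.2 k3
  have k4' : ((_ : ℕ) : ℝ) ≤ _ := Nat.cast_le.2 k4
  have k5 : ((_ : ℕ) : ℝ) = _ := congrArg Nat.cast hcard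
  push_cast at k3' k4' k5
  have k6 : γ * (Nat.card ↥(U ∪ U'ᶜ) + U'.ncard) = γ * (Nat.card V + U.ncard) := by rw [k5]
  simp only [vl]
  linarith

lemma SM.pos [Finite V] {γ : ℝ} {U : Set V} (h : SM γ G Uᶜ) (hU : U.Nonempty) : 0 < vl G γ U := by
  have := h.collapse (U := ∅) (S := ∅) (S' := ∅) (t := id) (Set.empty_subset _) (by simp) (by simp)
    (by simp) (by simp) ⟨fun _ => ∅, by simp, by simp⟩ (by simp)
    (by simpa using (Set.ncard_pos (Set.toFinite _)).2 hU)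
  simpa [vl, dAt] using this

lemma SM.adj [Finite V] {γ : ℝ} (hγ : 0 ≤ γ) {U : Set V} (h : SM γ G Uᶜ) {v : V} (hv : v ∈ U) :
    ∃ w, G.Adj v w := by
  have := (h.mono (Z' := {v}ᶜ) (Set.compl_subset_compl.2 (by simpa using hv))).pos ⟨v, rfl⟩
  by_contra hh
  push Not at hh
  have h0 : dAt G {v} = 0 := by
    rw [dAt, Set.ncard_eq_zero (Set.toFinite _)]
    ext p
    simp only [Set.mem_singleton_iff, Set.mem_ofPred, Set.mem_empty_iff_false, iff_false]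
    rintro ⟨h, rfl | rfl⟩
    · exact hh _ h
    · exact hh _ h.symm
  simp only [vl, h0, Set.ncard_singleton] at this
  push_cast at this
  linarith

lemma dAt_le [Finite V] {U S : Set V} (hc : ∀ x ∈ U, ∀ y, G.Adj x y → y ∈ U ∪ S) :
    dAt G U ≤ dIn G (U ∪ S) := by
  refine Set.ncard_le_ncard ?_
  rintro p ⟨h, h' | h'⟩
  · exact ⟨h, Or.inl h', hc _ h' _ h⟩
  · exact ⟨h, hc _ h' _ h.symm, Or.inl h'⟩

end Pool.Agent.MP_c60df9_co.H39
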