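import Pool.Agent.MP_c60df9_co.H39.Basic

set_option autoImplicit false

namespace Pool.Agent.MP_c60df9_co.H39

open Sum

variable {I X J R : Type}

/-- rooted model: inner classes `B j`, root classes `F x` -/
structure RModel (H : SimpleGraph (I ⊕ X)) (T : Set J) (B : J → Set (I ⊕ X))
    (F : X → Set (I ⊕ X)) : Prop where
  mB : ModelOn H T B
  mF : ModelOn H Set.univ F
  root : ∀ x, inr x ∈ F x
  dBF : ∀ j ∈ T, ∀ x, Disjoint (B j) (F x)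

/-- touching pairs inner class, root class -/
def tq {V : Type} (H : SimpleGraph V) (T : Set J) (B : J → Set V) (F : X → Set V) : Set (J × X) :=
  {p | p.1 ∈ T ∧ Touch H (B p.1) (F p.2)}

/-- every rooted minor has nonpositive surplus -/
def RB (β : ℝ) (H : SimpleGraph (I ⊕ X)) : Prop :=
  ∀ (J : Type) [Finite J] (T : Set J) (B : J → Set (I ⊕ X)) (F : X → Set (I ⊕ X)),
    RModel H T B F → ((tp H T B).ncard : ℝ) + 2 * (tq H T B F).ncard ≤ 2 * β * T.ncard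

/-- inner ordered pairs -/
def ii (H : SimpleGraph (I ⊕ X)) : Set (I × I) := {p | H.Adj (inl p.1) (inl p.2)}

/-- inner-root pairs -/
def ix (H : SimpleGraph (I ⊕ X)) : Set (I × X) := {p | H.Adj (inl p.1) (inr p.2)}

/-- the copy map -/
def fm (u : I) (φ : R → X → R) (ρ : R) : I ⊕ X → R × I :=
  Sum.elim (fun v => (ρ, v)) (fun x => (φ ρ x, u))

/-- the tournament graph -/
def tour (H : SimpleGraph (I ⊕ X)) (u : I) (φ : R → X → R) : SimpleGraph (R × I) :=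
  SimpleGraph.fromRel fun p q => ∃ y, H.Adj (inl p.2) y ∧ q = fm u φ p.1 y

variable {H : SimpleGraph (I ⊕ X)} {u : I} {φ : R → X → R}

lemma tour_adj {p q : R × I} (h : (tour H u φ).Adj p q) (hp : p.2 ≠ u) :
    ∃ y, H.Adj (inl p.2) y ∧ q = fm u φ p.1 y := by
  rcases h with ⟨_, h | ⟨y, h1, h2⟩⟩
  · exact h
  · rcases y with b | x
    · obtain ⟨ρ, a⟩ := p
      obtain ⟨rfl, rfl⟩ := Prod.mk.inj h2
      exact ⟨inl q.2, h1.symm, rfl⟩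
    · exact absurd (congrArg Prod.snd h2) hp

lemma tour_adj2 {p q : R × I} (h : (tour H u φ).Adj p q) (hp : p.2 ≠ u) (hq : q.2 ≠ u) :
    p.1 = q.1 ∧ H.Adj (inl p.2) (inl q.2) := by
  obtain ⟨y, h1, h2⟩ := tour_adj h hp
  rcases y with b | x
  · subst h2; exact ⟨rfl, h1⟩
  · exact absurd (congrArg Prod.snd h2) hq

lemma tour_lower [Finite I] [Finite X] [Finite R]
    (ha : ∀ ρ v x, H.Adj (inl v) (inr x) → φ ρ x ≠ ρ)
    (hb : ∀ ρ v x x', H.Adj (inl v) (inr x) → H.Adj (inl v) (inr x') → φ ρ x = φ ρ x' → x = x')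
    (hd : ∀ ρ x x', H.Adj (inl u) (inr x) → H.Adj (inl u) (inr x') → φ (φ ρ x) x' ≠ ρ) :
    Nat.card R * ((ii H).ncard + 2 * (ix H).ncard) ≤ dn (tour H u φ) := by
  let g : R × (ii H ⊕ ix H ⊕ ix H) → {p : (R × I) × (R × I) | (tour H u φ).Adj p.1 p.2} :=
    fun z => match z with
    | (ρ, inl p) => ⟨((ρ, p.1.1), (ρ, p.1.2)),
        ⟨fun h => p.2.ne (congrArg inl (congrArg Prod.snd h)), Or.inl ⟨inl p.1.2, p.2, rfl⟩⟩⟩
    | (ρ, inr (inl p)) => ⟨((ρ, p.1.1), (φ ρ p.1.2, u)),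
        ⟨fun h => ha ρ _ _ p.2 (congrArg Prod.fst h).symm, Or.inl ⟨inr p.1.2, p.2, rfl⟩⟩⟩
    | (ρ, inr (inr p)) => ⟨((φ ρ p.1.2, u), (ρ, p.1.1)),
        ⟨fun h => ha ρ _ _ p.2 (congrArg Prod.fst h), Or.inr ⟨inr p.1.2, p.2, rfl⟩⟩⟩
  have hg : Function.Injective g := by
    rintro ⟨ρ, ⟨⟨a, b⟩, h⟩ | ⟨⟨a, b⟩, h⟩ | ⟨⟨a, b⟩, h⟩⟩
      ⟨ρ', ⟨⟨a', b'⟩, h'⟩ | ⟨⟨a', b'⟩, h'⟩ | ⟨⟨a', b'⟩, h'⟩⟩ e <;>
      simp only [g, Subtype.mk.injEq, Prod.mk.injEq] at e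
    · obtain ⟨⟨rfl, rfl⟩, -, rfl⟩ := e; rfl
    · obtain ⟨⟨rfl, rfl⟩, e, rfl⟩ := e; exact absurd e.symm (ha _ _ _ h')
    · obtain ⟨⟨e, rfl⟩, rfl, rfl⟩ := e; exact absurd e.symm (ha _ _ _ h')
    · obtain ⟨⟨rfl, rfl⟩, e, rfl⟩ := e; exact absurd e (ha _ _ _ h)
    · obtain ⟨⟨rfl, rfl⟩, e, -⟩ := e
      obtain rfl := hb _ _ _ _ h h' e; rfl
    · obtain ⟨⟨e, rfl⟩, rfl, rfl⟩ := e; exact absurd e.symm (hd _ _ _ h h')
    · obtain ⟨⟨e, rfl⟩, rfl, rfl⟩ := e; exact absurd e (ha _ _ _ h)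
    · obtain ⟨⟨rfl, rfl⟩, e, rfl⟩ := e; exact absurd e.symm (hd _ _ _ h h')
    · obtain ⟨⟨e, -⟩, rfl, rfl⟩ := e
      obtain rfl := hb _ _ _ _ h h' e; rfl
  have := Nat.card_le_card_of_injective g hg
  rw [Nat.card_prod, Nat.card_sum, Nat.card_sum, Nat.card_coe_set_eq, Nat.card_coe_set_eq,
    Nat.card_coe_set_eq] at this
  rw [dn, two_mul]
  exact this

/-- classes inside one copy -/
def Jc (u : I) (B : J → Set (R × I)) (ρ : R) : Set J :=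
  {j | (∀ σ, (σ, u) ∉ B j) ∧ ∀ p ∈ B j, p.1 = ρ}

/-- the copy survives -/
def Surv (H : SimpleGraph (I ⊕ X)) (u : I) (φ : R → X → R) (B : J → Set (R × I)) (ρ : R) : Prop :=
  ∃ j, (ρ, u) ∈ B j ∧ ∀ x, H.Adj (inl u) (inr x) → (φ ρ x, u) ∉ B j

lemma tour_copy [Finite I] [Finite X] [Finite J] {β : ℝ} (hRB : RB β H) {B : J → Set (R × I)}
    (hB : ModelOn (tour H u φ) Set.univ B) (ρ : R) :
    ({p | p ∈ tp (tour H u φ) Set.univ B ∧ (p.1 ∈ Jc u B ρ ∨ p.2 ∈ Jc u B ρ)}.ncard : ℝ) +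
      2 * (Nat.card (PLift (Surv H u φ B ρ)) * {x | H.Adj (inl u) (inr x)}.ncard) ≤
      2 * β * ((Jc u B ρ).ncard + Nat.card (PLift (Surv H u φ B ρ))) := by
  classical
  have uniq : ∀ i j p, p ∈ B i → p ∈ B j → i = j := by
    intro i j p hi hj
    by_contra h
    exact Set.disjoint_left.1 (hB.disj i trivial j trivial h) hi hj
  set PL := PLift (Surv H u φ B ρ) with hPL
  let H' : SimpleGraph (I ⊕ X) :=
    { Adj := fun a b => H.Adj a b ∧ ∃ j, fm u φ ρ a ∈ B j ∧ fm u φ ρ b ∈ B j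
      symm := ⟨fun a b ⟨h, j, h1, h2⟩ => ⟨h.symm, j, h2, h1⟩⟩
      loopless := ⟨fun a h => h.1.ne rfl⟩ }
  have hle : H' ≤ H := fun a b h => h.1
  let S : Set (I ⊕ X) := {y | (∃ j σ, (σ, u) ∈ B j ∧ fm u φ ρ y ∈ B j) ∨ ∃ x, y = inr x}
  let seed : X ⊕ PL → I ⊕ X := Sum.elim inr (fun _ => inl u)
  have hseed : Function.Injective seed := by
    rintro (x | s) (y | t) h
    · simp only [seed, elim_inl, inr.injEq] at h; rw [h]
    · simp [seed] at h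
    · simp [seed] at h
    · rw [Subsingleton.elim s t]
  have hreach : ∀ j σ, (σ, u) ∈ B j → ∀ q ∈ B j, q.1 = ρ → ∃ i, Rch H' S (seed i) (inl q.2) := by
    intro j σ hj
    have Pu : (ρ, u) ∈ B j → ∃ i, Rch H' S (seed i) (inl u) := by
      intro h
      by_cases hs : Surv H u φ B ρ
      · exact ⟨inr ⟨hs⟩, Rch.refl _ _⟩
      · obtain ⟨x, hx, hx2⟩ : ∃ x, H.Adj (inl u) (inr x) ∧ (φ ρ x, u) ∈ B j := by
          by_contra hh
          push Not at hh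
          exact hs ⟨j, h, hh⟩
        exact ⟨inl x, (Rch.refl _ _).tail ⟨hx.symm, j, hx2, h⟩ (Or.inl ⟨j, σ, hj, h⟩)⟩
    refine (hB.conn j trivial).ind hj ?_ ?_
    · rintro rfl; exact Pu hj
    · rintro a ha ⟨b1, b2⟩ hb hab h1 rfl
      by_cases hu : b2 = u
      · subst hu; exact Pu hb
      · obtain ⟨y, h2, rfl⟩ := tour_adj hab.symm hu
        rcases y with c | x
        · obtain ⟨i, h3⟩ := h1 rfl
          exact ⟨i, h3.tail ⟨h2.symm, j, ha, hb⟩ (Or.inl ⟨j, σ, hj, hb⟩)⟩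
        · exact ⟨inl x, (Rch.refl _ _).tail ⟨h2.symm, j, ha, hb⟩ (Or.inl ⟨j, σ, hj, hb⟩)⟩
  obtain ⟨K, hK, hKd, hKc⟩ := voronoi H' S (fun i => {seed i}) (fun i => Conn.singleton _ _)
    (by
      rintro (x | ⟨j, h, _⟩) y rfl
      · exact Or.inr ⟨x, rfl⟩
      · exact Or.inl ⟨j, ρ, h, h⟩)
    (fun i j hij => by simpa using fun h => hij (hseed h))
    (by
      rintro (a | x) hv
      · obtain ⟨j, σ, h1, h2⟩ | ⟨x, h⟩ := hv
        · obtain ⟨i, h⟩ := hreach j σ h1 _ h2 rfl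
          exact ⟨i, _, rfl, h⟩
        · simp at h
      · exact ⟨inl x, _, rfl, Rch.refl _ _⟩)
  have hcls : ∀ i, ∀ y ∈ K i, ∀ j, fm u φ ρ y ∈ B j ↔ fm u φ ρ (seed i) ∈ B j := by
    intro i
    refine (hK i).2.2.ind ((hK i).1 rfl) (fun _ => Iff.rfl) ?_
    rintro a _ b _ ⟨_, j0, h1, h2⟩ ih j
    rw [← ih j]
    exact ⟨fun h => uniq _ _ _ h2 h ▸ h1, fun h => uniq _ _ _ h1 h ▸ h2⟩
  let T : Set (J ⊕ PL) := {o | (∃ j ∈ Jc u B ρ, o = inl j) ∨ ∃ s, o = inr s}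
  let B' : J ⊕ PL → Set (I ⊕ X) :=
    Sum.elim (fun j => (fun p : R × I => inl p.2) '' B j) (fun s => K (inr s))
  have hne : ∀ j ∈ Jc u B ρ, ∀ p ∈ B j, p.2 ≠ u := by
    rintro j hj ⟨a, b⟩ hp rfl
    exact hj.1 a hp
  have hdis : ∀ j ∈ Jc u B ρ, ∀ i, Disjoint (B' (inl j)) (K i) := by
    intro j hj i
    rw [Set.disjoint_left]
    rintro _ ⟨⟨a, b⟩, hp, rfl⟩ h
    obtain rfl : a = ρ := hj.2 _ hp
    obtain ⟨j', σ, h1, h2⟩ | ⟨x, h⟩ := (hK i).2.1 h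
    · obtain rfl := uniq _ _ _ hp h2
      exact hj.1 σ h1
    · simp at h
  have hM : RModel H T B' (fun x => K (inl x)) := by
    refine ⟨⟨?_, ?_⟩, ⟨fun x _ => (hK _).2.2.monoG hle,
      fun x _ y _ h => hKd _ _ (by simpa using h)⟩, fun x => (hK (inl x)).1 rfl, ?_⟩
    · rintro _ (⟨j, hj, rfl⟩ | ⟨s, rfl⟩)
      · exact (hB.conn j trivial).image _ fun a ha b hb hab =>
          Or.inl (tour_adj2 hab (hne j hj a ha) (hne j hj b hb)).2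
      · exact (hK _).2.2.monoG hle
    · rintro _ (⟨j, hj, rfl⟩ | ⟨s, rfl⟩) _ (⟨j', hj', rfl⟩ | ⟨s', rfl⟩) h
      · rw [Set.disjoint_left]
        rintro _ ⟨⟨a, b⟩, hp, rfl⟩ ⟨⟨a', b'⟩, hp', e⟩
        obtain rfl : a = ρ := hj.2 _ hp
        obtain rfl : a' = a := hj'.2 _ hp'
        obtain rfl : b' = b := inl.inj e
        exact h (congrArg inl (uniq _ _ _ hp hp'))
      · exact hdis j hj _
      · exact (hdis j' hj' _).symm
      · exact absurd (congrArg inr (Subsingleton.elim s s')) h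
    · rintro _ (⟨j, hj, rfl⟩ | ⟨s, rfl⟩) x
      · exact hdis j hj _
      · exact hKd _ _ (by simp)
  have h1 := hRB _ T B' _ hM
  have hT : T.ncard = (Jc u B ρ).ncard + Nat.card PL := by
    have : T = inl '' Jc u B ρ ∪ inr '' Set.univ := by
      ext o; simp [T, eq_comm]
    rw [this, Set.ncard_union_eq (by simp [Set.disjoint_left]),
      Set.ncard_image_of_injective _ inl_injective, Set.ncard_image_of_injective _ inr_injective,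
      Set.ncard_univ]
  let cl : I ⊕ X → Option J := fun y =>
    if h : ∃ j, fm u φ ρ y ∈ B j then some h.choose else none
  have hcl : ∀ y j, fm u φ ρ y ∈ B j → cl y = some j := by
    intro y j h
    have h' : ∃ j, fm u φ ρ y ∈ B j := ⟨j, h⟩
    simp only [cl, dif_pos h']
    rw [uniq _ _ _ h h'.choose_spec]
  let κ : J ⊕ PL → Option J := Sum.elim some (fun _ => cl (inl u))
  let E := {p | p ∈ tp (tour H u φ) Set.univ B ∧ (p.1 ∈ Jc u B ρ ∨ p.2 ∈ Jc u B ρ)}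
  let N := {x | H.Adj (inl u) (inr x)}
  let Ψ : tp H T B' ⊕ tq H T B' (fun x => K (inl x)) ⊕ tq H T B' (fun x => K (inl x)) →
      (Option J × Option J) ⊕ X ⊕ X := fun l => match l with
    | inl p => inl (κ p.1.1, κ p.1.2)
    | inr (inl p) => Sum.elim (fun j => inl (some j, cl (inr p.1.2))) (fun _ => inr (inl p.1.2)) p.1.1
    | inr (inr p) => Sum.elim (fun j => inl (cl (inr p.1.2), some j)) (fun _ => inr (inr p.1.2)) p.1.1
  let ι : E ⊕ (PL × N) ⊕ (PL × N) → (Option J × Option J) ⊕ X ⊕ X := fun t => match t with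
    | inl p => inl (some p.1.1, some p.1.2)
    | inr (inl p) => inr (inl p.2.1)
    | inr (inr p) => inr (inr p.2.1)
  have hι : Function.Injective ι := by
    rintro (⟨⟨a, b⟩, h⟩ | ⟨s, x, h⟩ | ⟨s, x, h⟩) (⟨⟨a', b'⟩, h'⟩ | ⟨s', x', h'⟩ | ⟨s', x', h'⟩) e <;>
      simp only [ι, inl.injEq, inr.injEq, Prod.mk.injEq, Option.some.injEq, reduceCtorEq] at e
    · obtain ⟨rfl, rfl⟩ := e; rfl
    · subst e; rw [Subsingleton.elim s s']
    · subst e; rw [Subsingleton.elim s s']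
  have key : ∀ j ∈ Jc u B ρ, ∀ j', j ≠ j' → Touch (tour H u φ) (B j) (B j') →
      (∃ o ∈ T, inl j ≠ o ∧ κ o = some j' ∧ Touch H (B' (inl j)) (B' o)) ∨
      ∃ x, cl (inr x) = some j' ∧ Touch H (B' (inl j)) (K (inl x)) := by
    rintro j hj j' hjj ⟨p, hp, q, hq, hpq⟩
    obtain ⟨y, h2, rfl⟩ := tour_adj hpq (hne j hj p hp)
    rw [hj.2 p hp] at hq
    by_cases hj' : ∃ σ, (σ, u) ∈ B j'
    · obtain ⟨σ, hσ⟩ := hj'
      obtain ⟨i, hi⟩ := hKc y (Or.inl ⟨j', σ, hσ, hq⟩)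
      have h3 := hcl _ _ ((hcls i y hi j').1 hq)
      rcases i with x | s
      · exact Or.inr ⟨x, h3, _, ⟨p, hp, rfl⟩, y, hi, h2⟩
      · exact Or.inl ⟨inr s, Or.inr ⟨s, rfl⟩, by simp, h3, _, ⟨p, hp, rfl⟩, y, hi, h2⟩
    · push Not at hj'
      rcases y with b | x
      · refine Or.inl ⟨inl j', Or.inl ⟨j', ⟨hj', ?_⟩, rfl⟩, by simpa using hjj, rfl,
          _, ⟨p, hp, rfl⟩, _, ⟨_, hq, rfl⟩, h2⟩
        refine (hB.conn j' trivial).ind hq rfl ?_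
        rintro ⟨a1, a2⟩ ha ⟨b1, b2⟩ hb hab h
        rw [← h]
        exact (tour_adj2 hab (fun e => hj' a1 (e ▸ ha)) (fun e => hj' b1 (e ▸ hb))).1.symm
      · exact absurd hq (hj' _)
  have hsurj : ∀ t, ∃ l, Ψ l = ι t := by
    rintro (⟨⟨a, b⟩, ⟨-, -, h1, h2⟩, h | h⟩ | ⟨s, x, h⟩ | ⟨s, x, h⟩)
    · obtain ⟨o, ho, h3, h4, h5⟩ | ⟨x, h3, h4⟩ := key a h b h1 h2
      · exact ⟨inl ⟨(inl a, o), Or.inl ⟨a, h, rfl⟩, ho, h3, h5⟩, by simp [Ψ, ι, h4, κ]⟩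
      · exact ⟨inr (inl ⟨(inl a, x), Or.inl ⟨a, h, rfl⟩, h4⟩), by simp [Ψ, ι, h3]⟩
    · obtain ⟨o, ho, h3, h4, h5⟩ | ⟨x, h3, h4⟩ := key b h a h1.symm h2.symm
      · exact ⟨inl ⟨(o, inl b), ho, Or.inl ⟨b, h, rfl⟩, h3.symm, h5.symm⟩, by simp [Ψ, ι, h4, κ]⟩
      · exact ⟨inr (inr ⟨(inl b, x), Or.inl ⟨b, h, rfl⟩, h4⟩), by simp [Ψ, ι, h3]⟩
    · exact ⟨inr (inl ⟨(inr s, x), Or.inr ⟨s, rfl⟩, _, (hK (inr s)).1 rfl, _, (hK (inl x)).1 rfl, h⟩),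
        by simp [Ψ, ι]⟩
    · exact ⟨inr (inr ⟨(inr s, x), Or.inr ⟨s, rfl⟩, _, (hK (inr s)).1 rfl, _, (hK (inl x)).1 rfl, h⟩),
        by simp [Ψ, ι]⟩
  choose g hg using hsurj
  have hgi : Function.Injective g := fun a b e => hι (by rw [← hg, ← hg, e])
  have h2 := Nat.card_le_card_of_injective g hgi
  simp only [Nat.card_sum, Nat.card_prod, Nat.card_coe_set_eq] at h2
  have h3 : ((E.ncard + (Nat.card PL * N.ncard + Nat.card PL * N.ncard) : ℕ) : ℝ) ≤ _ :=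
    Nat.cast_le.2 h2
  rw [hT] at h1
  push_cast at h1 h3
  linarith

lemma RB.deg_le [Finite I] [Finite X] {β : ℝ} (hRB : RB β H) (u : I) :
    ({x | H.Adj (inl u) (inr x)}.ncard : ℝ) ≤ β := by
  have h := hRB Unit Set.univ (fun _ => {inl u}) (fun x => {inr x})
    ⟨⟨fun _ _ => Conn.singleton _ _, fun _ _ _ _ h => absurd rfl h⟩,
      ⟨fun _ _ => Conn.singleton _ _, fun _ _ _ _ h => by simpa using h⟩, fun _ => rfl,
      fun _ _ _ => by simp⟩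
  have h2 : {x | H.Adj (inl u) (inr x)}.ncard ≤
      (tq H (Set.univ : Set Unit) (fun _ => {inl u}) (fun x => {inr x})).ncard :=
    Set.ncard_le_ncard_of_injOn (fun x => ((), x)) (fun x hx => ⟨trivial, _, rfl, _, rfl, hx⟩)
      (fun x _ y _ h => congrArg Prod.snd h) (Set.toFinite _)
  have h3 : (({x | H.Adj (inl u) (inr x)}.ncard : ℕ) : ℝ) ≤ _ := Nat.cast_le.2 h2
  have h4 : (0 : ℝ) ≤ (tp H (Set.univ : Set Unit) (fun _ => {inl u})).ncard := Nat.cast_nonneg _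
  simp only [Set.ncard_univ, Nat.card_unique, Nat.cast_one] at h
  linarith

lemma ncard_offDiag_le [Finite J] (S : Set J) :
    {p : J × J | p.1 ∈ S ∧ p.2 ∈ S ∧ p.1 ≠ p.2}.ncard + S.ncard = S.ncard * S.ncard := by
  classical
  lift S to Finset J using Set.toFinite S
  have : {p : J × J | p.1 ∈ (S : Set J) ∧ p.2 ∈ (S : Set J) ∧ p.1 ≠ p.2} = S.offDiag := by
    ext p; simp
  rw [this, Set.ncard_coe_finset, Set.ncard_coe_finset, Finset.offDiag_card]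
  have := Nat.le_mul_self S.card
  omega

lemma tour_bal [Finite I] [Finite X] [Finite R] {β : ℝ} (hRB : RB β H)
    (hc : ∀ ρ σ, ρ ≠ σ → (∃ x, H.Adj (inl u) (inr x) ∧ φ ρ x = σ) ∨
      (∃ x, H.Adj (inl u) (inr x) ∧ φ σ x = ρ))
    (hR : Nat.card R ≤ 2 * {x | H.Adj (inl u) (inr x)}.ncard + 1) : Bal β (tour H u φ) := by
  classical
  have := Fintype.ofFinite R
  refine Bal.of_model fun J _ B hB => ?_
  have uniq : ∀ i j p, p ∈ B i → p ∈ B j → i = j := by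
    intro i j p hi hj
    by_contra h
    exact Set.disjoint_left.1 (hB.disj i trivial j trivial h) hi hj
  set d := {x | H.Adj (inl u) (inr x)}.ncard with hd
  let JR : Set J := {j | ∃ σ, (σ, u) ∈ B j}
  let E : R → Set (J × J) := fun ρ =>
    {p | p ∈ tp (tour H u φ) Set.univ B ∧ (p.1 ∈ Jc u B ρ ∨ p.2 ∈ Jc u B ρ)}
  have hJ : ∀ j, j ∉ JR → ∃ ρ, j ∈ Jc u B ρ := by
    intro j hj
    have hj' : ∀ σ, (σ, u) ∉ B j := fun σ h => hj ⟨σ, h⟩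
    obtain ⟨q, hq⟩ := (hB.conn j trivial).1
    refine ⟨q.1, hj', (hB.conn j trivial).ind hq rfl ?_⟩
    rintro ⟨a1, a2⟩ ha ⟨b1, b2⟩ hb hab h
    rw [← h]
    exact (tour_adj2 hab (fun e => hj' a1 (e ▸ ha)) (fun e => hj' b1 (e ▸ hb))).1.symm
  have h1 : (tp (tour H u φ) Set.univ B).ncard ≤
      {p : J × J | p.1 ∈ JR ∧ p.2 ∈ JR ∧ p.1 ≠ p.2}.ncard + ∑ ρ, (E ρ).ncard := by
    refine le_trans (Set.ncard_le_ncard (t := {p : J × J | p.1 ∈ JR ∧ p.2 ∈ JR ∧ p.1 ≠ p.2} ∪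
      ⋃ ρ, E ρ) ?_) ((Set.ncard_union_le _ _).trans
        (Nat.add_le_add_left (Set.ncard_iUnion_le_of_fintype E) _))
    intro p hp
    by_cases a1 : p.1 ∈ JR
    · by_cases a2 : p.2 ∈ JR
      · exact Or.inl ⟨a1, a2, hp.2.2.1⟩
      · obtain ⟨ρ, h⟩ := hJ _ a2
        exact Or.inr (Set.mem_iUnion.2 ⟨ρ, hp, Or.inr h⟩)
    · obtain ⟨ρ, h⟩ := hJ _ a1
      exact Or.inr (Set.mem_iUnion.2 ⟨ρ, hp, Or.inl h⟩)
  have h2 : JR.ncard + ∑ ρ, (Jc u B ρ).ncard ≤ Nat.card J := by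
    rw [← Set.ncard_add_ncard_compl JR, ← finsum_eq_sum_of_fintype,
      ← Set.ncard_iUnion_of_finite (fun _ => Set.toFinite _)]
    · refine Nat.add_le_add_left (Set.ncard_le_ncard ?_) _
      intro j hj
      obtain ⟨ρ, h⟩ := Set.mem_iUnion.1 hj
      exact fun ⟨σ, h'⟩ => h.1 σ h'
    · intro ρ σ h
      refine Set.disjoint_left.2 fun j h1 h2 => h ?_
      obtain ⟨q, hq⟩ := (hB.conn j trivial).1
      rw [← h1.2 q hq, ← h2.2 q hq]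
  have h3 : JR.ncard ≤ 2 * d + 1 := by
    refine le_trans ?_ hR
    choose g hg using fun j : JR => j.2
    rw [← Nat.card_coe_set_eq]
    exact Nat.card_le_card_of_injective g fun a b e => Subtype.ext (uniq _ _ _ (hg a) (e ▸ hg b))
  have h4 : ∑ ρ, Nat.card (PLift (Surv H u φ B ρ)) ≤ JR.ncard := by
    rw [← Nat.card_sigma, ← Nat.card_coe_set_eq]
    choose g hg using fun z : (Σ ρ, PLift (Surv H u φ B ρ)) => z.2.down
    refine Nat.card_le_card_of_injective (fun z => (⟨g z, z.1, (hg z).1⟩ : JR)) ?_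
    rintro ⟨ρ, s⟩ ⟨σ, t⟩ e
    have e' : g ⟨ρ, s⟩ = g ⟨σ, t⟩ := congrArg Subtype.val e
    obtain rfl : ρ = σ := by
      by_contra h
      obtain ⟨x, h1, h2⟩ | ⟨x, h1, h2⟩ := hc ρ σ h
      · exact (hg ⟨ρ, s⟩).2 x h1 (by rw [e']; exact h2 ▸ (hg ⟨σ, t⟩).1)
      · exact (hg ⟨σ, t⟩).2 x h1 (by rw [← e']; exact h2 ▸ (hg ⟨ρ, s⟩).1)
    rw [Subsingleton.elim s t]
  have h5 := Finset.sum_le_sum (s := Finset.univ) fun ρ _ => tour_copy (φ := φ) hRB hB ρ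
  rw [Finset.sum_add_distrib, ← Finset.mul_sum, ← Finset.mul_sum, ← Finset.sum_mul,
    Finset.sum_add_distrib] at h5
  have h6 := hRB.deg_le u
  have h7 := ncard_offDiag_le JR
  rw [← hd] at h5 h6
  have h1' : ((tp (tour H u φ) Set.univ B).ncard : ℝ) ≤ _ := Nat.cast_le.2 h1
  have h2' : ((_ : ℕ) : ℝ) ≤ _ := Nat.cast_le.2 h2
  have h3' : ((_ : ℕ) : ℝ) ≤ _ := Nat.cast_le.2 h3
  have h4' : ((_ : ℕ) : ℝ) ≤ _ := Nat.cast_le.2 h4
  have h7' : ((_ : ℕ) : ℝ) = _ := congrArg Nat.cast h7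
  push_cast at h1' h2' h3' h4' h7'
  have h0 : (0 : ℝ) ≤ d := Nat.cast_nonneg _
  have h8 : (0 : ℝ) ≤ JR.ncard := Nat.cast_nonneg _
  change ∑ ρ, ((E ρ).ncard : ℝ) + _ ≤ _ at h5
  nlinarith [mul_le_mul_of_nonneg_left h2' (h0.trans h6), mul_le_mul_of_nonneg_left h3' h8,
    mul_le_mul_of_nonneg_left h4' (sub_nonneg.2 h6)]

/-- `β` is the density of a minor-balanced graph -/
def Ach (β : ℝ) : Prop :=
  ∃ (V : Type) (_ : Finite V) (_ : Nonempty V) (G : SimpleGraph V),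
    Bal β G ∧ 2 * β * Nat.card V ≤ dn G

theorem tour_ach [Finite I] [Finite X] [Finite R] [Nonempty R] {β : ℝ} (hRB : RB β H)
    (ht : 2 * β * Nat.card I ≤ (ii H).ncard + 2 * (ix H).ncard)
    (ha : ∀ ρ v x, H.Adj (inl v) (inr x) → φ ρ x ≠ ρ)
    (hb : ∀ ρ v x x', H.Adj (inl v) (inr x) → H.Adj (inl v) (inr x') → φ ρ x = φ ρ x' → x = x')
    (hc : ∀ ρ σ, ρ ≠ σ → (∃ x, H.Adj (inl u) (inr x) ∧ φ ρ x = σ) ∨
      (∃ x, H.Adj (inl u) (inr x) ∧ φ σ x = ρ))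
    (hd : ∀ ρ x x', H.Adj (inl u) (inr x) → H.Adj (inl u) (inr x') → φ (φ ρ x) x' ≠ ρ)
    (hR : Nat.card R ≤ 2 * {x | H.Adj (inl u) (inr x)}.ncard + 1) : Ach β := by
  have : Nonempty I := ⟨u⟩
  refine ⟨R × I, inferInstance, inferInstance, tour H u φ, tour_bal hRB hc hR, ?_⟩
  have h1 : ((_ : ℕ) : ℝ) ≤ _ := Nat.cast_le.2 (tour_lower ha hb hd)
  rw [Nat.card_prod]
  push_cast at h1 ⊢
  nlinarith [mul_le_mul_of_nonneg_left ht (Nat.cast_nonneg (α := ℝ) (Nat.card R))]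

end Pool.Agent.MP_c60df9_co.H39
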