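import Pool.Agent.MP_c60df9_co.H39.SM
import Pool.Agent.MP_c60df9_co.H39.Spec2
import Pool.Agent.MP_c60df9_co.H19.ItemA
import Pool.Agent.MP_c60df9_co.H50.ItemB

set_option autoImplicit false

namespace Pool.Agent.MP_c60df9_co.H39

open Relation

variable {V : Type} {G : SimpleGraph V} {Z : Set V} {F F' : Finset (V × V)}

/-- vertices met by a dart set -/
def mt (F : Finset (V × V)) : Set V := {v | ∃ p ∈ F, v = p.1 ∨ v = p.2}

/-- vertices lying in `Z` or met by a dart outside `F` -/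
def ot (G : SimpleGraph V) (Z : Set V) (F : Finset (V × V)) : Set V :=
  {v | v ∈ Z ∨ ∃ p : V × V, G.Adj p.1 p.2 ∧ p ∉ F ∧ (v = p.1 ∨ v = p.2)}

/-- boundary of a dart set -/
def bd (G : SimpleGraph V) (Z : Set V) (F : Finset (V × V)) : Set V := mt F ∩ ot G Z F

/-- interior of a dart set -/
def it (G : SimpleGraph V) (Z : Set V) (F : Finset (V × V)) : Set V := mt F \ ot G Z F

lemma lam_eq : lam G Z F = (bd G Z F).ncard := rfl

lemma it_bd : it G Z F ∪ bd G Z F = mt F := by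
  rw [it, bd, Set.union_comm, Set.inter_union_sdiff]

lemma it_disj : Disjoint (it G Z F) (bd G Z F) :=
  Set.disjoint_left.2 fun _ h h' => h.2 h'.2

lemma mt_mono (h : F ⊆ F') : mt F ⊆ mt F' := fun _ ⟨p, hp, e⟩ => ⟨p, h hp, e⟩

lemma ot_anti (h : F ⊆ F') : ot G Z F' ⊆ ot G Z F := by
  rintro v (hv | ⟨p, h1, h2, h3⟩)
  · exact Or.inl hv
  · exact Or.inr ⟨p, h1, fun h' => h2 (h h'), h3⟩

lemma it_mono (h : F ⊆ F') : it G Z F ⊆ it G Z F' :=
  fun _ hv => ⟨mt_mono h hv.1, fun h' => hv.2 (ot_anti h h')⟩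

lemma it_dart {v : V} (hv : v ∈ it G Z F) {p : V × V} (h : G.Adj p.1 p.2)
    (e : v = p.1 ∨ v = p.2) : p ∈ F := by
  by_contra hh
  exact hv.2 (Or.inr ⟨p, h, hh, e⟩)

lemma it_nb {x : V} (hx : x ∈ it G Z F) {y : V} (h : G.Adj x y) : y ∈ mt F :=
  ⟨(x, y), it_dart hx h (Or.inl rfl), Or.inr rfl⟩

lemma it_sub : it G Z F ⊆ Zᶜ := fun _ h h' => h.2 (Or.inl h')

lemma cut_mt : Cut G (mt F) (bd G Z F) :=
  ⟨Set.inter_subset_left, fun _ hu hu' _ h => it_nb (Z := Z) ⟨hu, fun h' => hu' ⟨hu, h'⟩⟩ h⟩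

lemma nest_mt (h : F ⊆ F') : Nest (mt F) (bd G Z F) (mt F') (bd G Z F') :=
  ⟨mt_mono h, fun _ hv hv' => ⟨hv', ot_anti h hv.2⟩⟩

lemma mt_union [DecidableEq V] : mt (F ∪ F') = mt F ∪ mt F' := by
  ext v
  simp only [mt, Finset.mem_union, Set.mem_union, Set.mem_ofPred]
  constructor
  · rintro ⟨p, h | h, e⟩
    · exact Or.inl ⟨p, h, e⟩
    · exact Or.inr ⟨p, h, e⟩
  · rintro (⟨p, h, e⟩ | ⟨p, h, e⟩)
    · exact ⟨p, Or.inl h, e⟩
    · exact ⟨p, Or.inr h, e⟩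

lemma mt_le [Finite V] (h : F.card ≤ 1) : (mt F).ncard ≤ 2 := by
  rcases F.eq_empty_or_nonempty with rfl | ⟨p, hp⟩
  · simp [mt]
  · refine le_trans (Set.ncard_le_ncard (t := {p.1, p.2}) ?_) (Set.ncard_insert_le _ _ |>.trans ?_)
    · rintro v ⟨q, hq, e⟩
      rw [Finset.card_le_one.1 h q hq p hp] at e
      exact e
    · simp

lemma ncard_add_le [Finite V] {A B A' B' : Set V} (h1 : A ∪ B ⊆ A' ∪ B') (h2 : A ∩ B ⊆ A' ∩ B') :
    A.ncard + B.ncard ≤ A'.ncard + B'.ncard := by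
  rw [← Set.ncard_union_add_ncard_inter A B, ← Set.ncard_union_add_ncard_inter A' B']
  exact Nat.add_le_add (Set.ncard_le_ncard h1) (Set.ncard_le_ncard h2)

lemma lam_sub [Finite V] [DecidableEq V] (X Y : Finset (V × V)) :
    lam G Z (X ∩ Y) + lam G Z (X ∪ Y) ≤ lam G Z X + lam G Z Y := by
  have k1 : ot G Z (X ∩ Y) ⊆ ot G Z X ∪ ot G Z Y := by
    rintro v (hv | ⟨p, h1, h2, h3⟩)
    · exact Or.inl (Or.inl hv)
    · by_cases h : p ∈ X
      · exact Or.inr (Or.inr ⟨p, h1, fun h' => h2 (Finset.mem_inter.2 ⟨h, h'⟩), h3⟩)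
      · exact Or.inl (Or.inr ⟨p, h1, h, h3⟩)
  have a1 := mt_mono (Finset.inter_subset_left (s₁ := X) (s₂ := Y))
  have a2 := mt_mono (Finset.inter_subset_right (s₁ := X) (s₂ := Y))
  have a3 := ot_anti (G := G) (Z := Z) (Finset.subset_union_left (s₁ := X) (s₂ := Y))
  have a4 := ot_anti (G := G) (Z := Z) (Finset.subset_union_right (s₁ := X) (s₂ := Y))
  refine ncard_add_le ?_ ?_
  · rintro v (⟨h1, h2⟩ | ⟨h1, h2⟩)
    · exact (k1 h2).imp (fun h => ⟨a1 h1, h⟩) fun h => ⟨a2 h1, h⟩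
    · exact (mt_union.subset h1).imp (fun h => ⟨h, a3 h2⟩) fun h => ⟨h, a4 h2⟩
  · rintro v ⟨⟨h1, -⟩, -, h2⟩
    exact ⟨⟨a1 h1, a3 h2⟩, a2 h1, a4 h2⟩

lemma lam_pos [Finite V] [DecidableEq V] (X Y : Finset (V × V))
    (hX : ∀ p ∈ X, G.Adj p.1 p.2) (hY : ∀ p ∈ Y, G.Adj p.1 p.2) :
    lam G Z (X \ Y) + lam G Z (Y \ X) ≤ lam G Z X + lam G Z Y := by
  have key : ∀ X Y : Finset (V × V), (∀ p ∈ X, G.Adj p.1 p.2) →
      bd G Z (X \ Y) ⊆ bd G Z X ∪ bd G Z Y := by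
    rintro X Y hX v ⟨⟨q, hq, e⟩, h2⟩
    have hq' := Finset.mem_sdiff.1 hq
    by_cases h : v ∈ ot G Z X
    · exact Or.inl ⟨⟨q, hq'.1, e⟩, h⟩
    · rcases h2 with h2 | ⟨p, h1, h2, h3⟩
      · exact absurd (Or.inl h2) h
      · have : p ∈ X := by
          by_contra hh; exact h (Or.inr ⟨p, h1, hh, h3⟩)
        have hp : p ∈ Y := by
          by_contra hh; exact h2 (Finset.mem_sdiff.2 ⟨this, hh⟩)
        exact Or.inr ⟨⟨p, hp, h3⟩, Or.inr ⟨q, hX q hq'.1, hq'.2, e⟩⟩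
  refine ncard_add_le (Set.union_subset (key X Y hX)
    ((key Y X hY).trans (Set.union_comm _ _).subset)) ?_
  rintro v ⟨⟨⟨p, hp, e⟩, -⟩, ⟨q, hq, e'⟩, -⟩
  rw [Finset.mem_sdiff] at hp hq
  exact ⟨⟨⟨p, hp.1, e⟩, Or.inr ⟨q, hY q hq.1, hq.2, e'⟩⟩,
    ⟨q, hq.1, e'⟩, Or.inr ⟨p, hX p hp.1, hp.2, e⟩⟩

open Classical in
/-- the order function, ignoring pairs that are not darts -/
noncomputable def lam' (G : SimpleGraph V) (Z : Set V) (F : Finset (V × V)) : ℕ :=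
  lam G Z (F.filter fun p => G.Adj p.1 p.2)

lemma lam'_eq (h : ∀ p ∈ F, G.Adj p.1 p.2) : lam' G Z F = (bd G Z F).ncard := by
  classical
  rw [lam', Finset.filter_true_of_mem h, lam_eq]

lemma restrict [Finite V] [DecidableEq V] {U S : Set V} [DecidablePred (· ∈ U)] {W : ℕ}
    (hc : ∀ x ∈ U, ∀ y, G.Adj x y → y ∈ U ∪ S) (T : BT (V × V)) :
    (∀ p ∈ T.set, G.Adj p.1 p.2) → T.Valid (lam G ∅) W → ∃ T' : BT (V × V),
      T'.set = T.set.filter (fun p => p.1 ∈ U ∨ p.2 ∈ U) ∧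
      T'.Valid (lam' G Uᶜ) (W + S.ncard) := by
  have key : ∀ F : Finset (V × V), (∀ p ∈ F, G.Adj p.1 p.2) → lam G ∅ F ≤ W →
      lam' G Uᶜ (F.filter fun p => p.1 ∈ U ∨ p.2 ∈ U) ≤ W + S.ncard := by
    intro F hF h
    rw [lam'_eq fun p hp => hF p (Finset.mem_filter.1 hp).1]
    refine le_trans (Set.ncard_le_ncard (t := bd G ∅ F ∪ S) ?_)
      ((Set.ncard_union_le _ _).trans (Nat.add_le_add_right h _))
    rintro v ⟨⟨q, hq, e⟩, h2⟩
    rw [Finset.mem_filter] at hq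
    by_cases hv : v ∈ U
    · rcases h2 with h2 | ⟨p, h1, h2, h3⟩
      · exact absurd hv h2
      · refine Or.inl ⟨⟨q, hq.1, e⟩, Or.inr ⟨p, h1, fun h' => h2 (Finset.mem_filter.2 ⟨h', ?_⟩), h3⟩⟩
        exact h3.imp (fun e : v = p.1 => e ▸ hv) fun e : v = p.2 => e ▸ hv
    · right
      rcases e with rfl | rfl <;> rcases hq.2 with h | h
      · exact absurd h hv
      · exact (hc _ h _ (hF q hq.1).symm).resolve_left hv
      · exact (hc _ h _ (hF q hq.1)).resolve_left hv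
      · exact absurd h hv
  induction T with
  | leaf F =>
    intro h1 h2
    exact ⟨.leaf _, rfl, (Finset.card_filter_le _ _).trans h2.1, key F h1 h2.2⟩
  | node l r il ir =>
    intro h1 h2
    obtain ⟨l', a1, a2⟩ := il (fun p hp => h1 p (Finset.mem_union_left _ hp)) h2.2.2.1
    obtain ⟨r', b1, b2⟩ := ir (fun p hp => h1 p (Finset.mem_union_right _ hp)) h2.2.2.2
    have e : l'.set ∪ r'.set = (l.set ∪ r.set).filter fun p => p.1 ∈ U ∨ p.2 ∈ U := by
      rw [a1, b1, Finset.filter_union]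
    refine ⟨.node l' r', e, ?_, ?_, a2, b2⟩
    · rw [a1, b1]; exact Finset.disjoint_filter_filter h2.1
    · rw [e]; exact key _ h1 h2.2.1

lemma exists_linked [Finite V] [DecidableEq V] {W : ℕ} (T : BT (V × V))
    (h : T.Valid (lam' G Z) W) :
    ∃ T' : BT (V × V), T'.set = T.set ∧ T'.Valid (lam' G Z) W ∧ T'.Linked (lam' G Z) := by
  classical
  refine H19.itemA _ _ W (fun X Y => ?_) (fun X Y => ?_) T h
  · simp only [lam', Finset.filter_union, Finset.filter_inter_distrib]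
    exact lam_sub _ _
  · have e : ∀ X Y : Finset (V × V), (X \ Y).filter (fun p => G.Adj p.1 p.2) =
        X.filter (fun p => G.Adj p.1 p.2) \ Y.filter (fun p => G.Adj p.1 p.2) := by
      intro X Y; ext p; simp only [Finset.mem_filter, Finset.mem_sdiff]; tauto
    simp only [lam', e]
    exact lam_pos _ _ (fun p hp => (Finset.mem_filter.1 hp).2) fun p hp => (Finset.mem_filter.1 hp).2

lemma it_split [Finite V] [DecidableEq V] (h : Disjoint F F') (hF : ∀ p ∈ F, G.Adj p.1 p.2) :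
    Disjoint (it G Z F) (it G Z F') ∧
      it G Z (F ∪ F') \ (it G Z F ∪ it G Z F') ⊆ bd G Z F ∪ bd G Z F' := by
  refine ⟨Set.disjoint_left.2 fun v hv hv' => ?_, ?_⟩
  · obtain ⟨p, hp, e⟩ := hv.1
    exact Finset.disjoint_left.1 h hp (it_dart hv' (hF p hp) e)
  · rintro v ⟨h1, h2⟩
    rcases mt_union.subset h1.1 with h | h
    · exact Or.inl ((it_bd.superset h).resolve_left fun h' => h2 (Or.inl h'))
    · exact Or.inr ((it_bd.superset h).resolve_left fun h' => h2 (Or.inr h'))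

lemma pairs_le [Finite V] {X : Set (V × V)} {S : Set V} (h : ∀ p ∈ X, p.1 ∈ S ∧ p.2 ∈ S) :
    X.ncard ≤ S.ncard * S.ncard := by
  rw [← Set.ncard_prod]
  exact Set.ncard_le_ncard h

lemma vl_split [Finite V] [DecidableEq V] (γ : ℝ) {W : ℕ} (h : Disjoint F F')
    (hF : ∀ p ∈ F, G.Adj p.1 p.2) (h1 : (bd G Z F).ncard ≤ W) (h2 : (bd G Z F').ncard ≤ W) :
    ∃ a ≤ 2 * (W * W), ∃ b ≤ 2 * W,
      vl G γ (it G Z (F ∪ F')) - vl G γ (it G Z F) - vl G γ (it G Z F') = (a : ℕ) - γ * (b : ℕ) := by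
  obtain ⟨k1, k2⟩ := it_split (Z := Z) h hF
  have k3 : it G Z F ∪ it G Z F' ⊆ it G Z (F ∪ F') :=
    Set.union_subset (it_mono Finset.subset_union_left) (it_mono Finset.subset_union_right)
  have k4 := Set.ncard_sdiff_add_ncard_of_subset k3
  rw [Set.ncard_union_eq k1] at k4
  let D : Set V → Set (V × V) := fun U => {p | G.Adj p.1 p.2 ∧ (p.1 ∈ U ∨ p.2 ∈ U)}
  have dd : ∀ {F : Finset (V × V)}, ∀ p ∈ D (it G Z F), p ∈ F := by
    rintro F p ⟨h, h' | h'⟩
    · exact it_dart h' h (Or.inl rfl)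
    · exact it_dart h' h (Or.inr rfl)
  have d1 : Disjoint (D (it G Z F)) (D (it G Z F')) :=
    Set.disjoint_left.2 fun p hp hp' => Finset.disjoint_left.1 h (dd p hp) (dd p hp')
  have d3 : D (it G Z F) ∪ D (it G Z F') ⊆ D (it G Z (F ∪ F')) := by
    rintro p (⟨h, h'⟩ | ⟨h, h'⟩)
    · exact ⟨h, h'.imp (fun h => k3 (Or.inl h)) fun h => k3 (Or.inl h)⟩
    · exact ⟨h, h'.imp (fun h => k3 (Or.inr h)) fun h => k3 (Or.inr h)⟩
  have d4 := Set.ncard_sdiff_add_ncard_of_subset d3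
  rw [Set.ncard_union_eq d1] at d4
  have dq : ∀ {F : Finset (V × V)} (p : V × V), G.Adj p.1 p.2 → p ∈ F → p ∉ D (it G Z F) →
      p.1 ∈ bd G Z F ∧ p.2 ∈ bd G Z F := fun p a b c =>
    ⟨(it_bd.superset ⟨p, b, Or.inl rfl⟩).resolve_left fun h => c ⟨a, Or.inl h⟩,
      (it_bd.superset ⟨p, b, Or.inr rfl⟩).resolve_left fun h => c ⟨a, Or.inr h⟩⟩
  refine ⟨(D (it G Z (F ∪ F')) \ (D (it G Z F) ∪ D (it G Z F'))).ncard, ?_,
    (it G Z (F ∪ F') \ (it G Z F ∪ it G Z F')).ncard, ?_, ?_⟩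
  · refine le_trans (Set.ncard_le_ncard (t := {p | p.1 ∈ bd G Z F ∧ p.2 ∈ bd G Z F} ∪
      {p | p.1 ∈ bd G Z F' ∧ p.2 ∈ bd G Z F'}) ?_) ((Set.ncard_union_le _ _).trans ?_)
    · rintro p ⟨a, b⟩
      rcases Finset.mem_union.1 (dd p a) with c | c
      · exact Or.inl (dq p a.1 c fun h => b (Or.inl h))
      · exact Or.inr (dq p a.1 c fun h => b (Or.inr h))
    · have := (pairs_le (X := {p | p.1 ∈ bd G Z F ∧ p.2 ∈ bd G Z F}) fun p h => h).trans
        (Nat.mul_le_mul h1 h1)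
      have := (pairs_le (X := {p | p.1 ∈ bd G Z F' ∧ p.2 ∈ bd G Z F'}) fun p h => h).trans
        (Nat.mul_le_mul h2 h2)
      omega
  · have := (Set.ncard_le_ncard k2).trans (Set.ncard_union_le _ _)
    omega
  · have k4' : ((_ : ℕ) : ℝ) = _ := congrArg Nat.cast k4
    have d4' : ((_ : ℕ) : ℝ) = _ := congrArg Nat.cast d4
    push_cast at k4' d4'
    simp only [vl, dAt]
    rw [← k4', ← d4']
    ring

lemma vl_link [Finite V] [DecidableEq V] {γ : ℝ} (hs : SM γ G Z) (h : F ⊆ F')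
    (hF : ∀ p ∈ F', G.Adj p.1 p.2) (he : (bd G Z F').ncard = (bd G Z F).ncard)
    (hl : ∀ Y, F ⊆ Y → Y ⊆ F' → (bd G Z F').ncard ≤ (bd G Z Y).ncard) :
    vl G γ (it G Z F) ≤ vl G γ (it G Z F') ∧ (vl G γ (it G Z F) = vl G γ (it G Z F') →
      F'.card ≤ F.card + (bd G Z F').ncard * (bd G Z F').ncard) := by
  classical
  obtain ⟨t, t1, t2⟩ := menger (cut_mt (Z := Z) (F := F)) (cut_mt (Z := Z) (F := F'))
    (nest_mt h) he fun D Y c1 c2 c3 => by
      refine he ▸ (hl (F'.filter fun p => p.1 ∈ D ∧ p.2 ∈ D) (fun p hp => Finset.mem_filter.2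
        ⟨h hp, c2.sub ⟨p, hp, Or.inl rfl⟩, c2.sub ⟨p, hp, Or.inr rfl⟩⟩)
        (Finset.filter_subset _ _)).trans (Set.ncard_le_ncard ?_)
      rintro x ⟨⟨q, hq, e⟩, h2⟩
      rw [Finset.mem_filter] at hq
      have hx : x ∈ D := by rcases e with rfl | rfl; exacts [hq.2.1, hq.2.2]
      by_contra hY
      have hi : x ∈ it G Z F' :=
        (it_bd.superset (c3.sub hx)).resolve_right fun h' => hY (c3.bd x h' hx)
      rcases h2 with h2 | ⟨p, h1, h2, h3⟩
      · exact it_sub hi h2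
      · refine h2 (Finset.mem_filter.2 ⟨it_dart hi h1 h3, ?_⟩)
        rcases h3 with rfl | rfl
        · exact ⟨hx, c1.cl _ hx hY _ h1⟩
        · exact ⟨c1.cl _ hx hY _ h1.symm, hx⟩
  by_cases hlt : (it G Z F).ncard < (it G Z F').ncard
  · have := SM.collapse (U := it G Z F) (S := bd G Z F) (U' := it G Z F') (S' := bd G Z F') (t := t)
      (hs.mono (Set.subset_compl_comm.1 it_sub)) (it_mono h) it_disj it_disj
      (fun x hx y hy => it_bd.superset (it_nb hx hy))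
      (by rw [it_bd]; exact Set.inter_subset_left.trans (mt_mono h))
      (by rw [it_bd, it_bd]; exact t1) t2 hlt
    exact ⟨this.le, fun e => absurd e this.ne⟩
  · have e : it G Z F = it G Z F' := Set.eq_of_subset_of_ncard_le (it_mono h) (not_lt.1 hlt)
    refine ⟨by rw [e], fun _ => ?_⟩
    have := Finset.card_sdiff_add_card_eq_card h
    have k := pairs_le (X := ((F' \ F : Finset (V × V)) : Set (V × V))) (S := bd G Z F') (by
      intro p hp
      have hp := Finset.mem_sdiff.1 (Finset.mem_coe.1 hp)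
      exact ⟨(it_bd.superset ⟨p, hp.1, Or.inl rfl⟩).resolve_left fun h' =>
        hp.2 (it_dart (e ▸ h') (hF p hp.1) (Or.inl rfl)),
        (it_bd.superset ⟨p, hp.1, Or.inr rfl⟩).resolve_left fun h' =>
        hp.2 (it_dart (e ▸ h') (hF p hp.1) (Or.inr rfl))⟩)
    rw [Set.ncard_coe_finset] at k
    omega

/-- context of a node -/
structure Cx (β : ℝ) (C : ∀ V : Type, SimpleGraph V → Prop) : Type 1 where
  V : Type
  dec : DecidableEq V
  G : SimpleGraph V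
  Z : Set V
  mem : C V G
  sm : SM (2 * β) G Z

attribute [instance] Cx.dec

/-- good trees -/
def Gd [DecidableEq V] (G : SimpleGraph V) (Z : Set V) (W : ℕ) (t : BT (V × V)) : Prop :=
  (∀ p ∈ t.set, G.Adj p.1 p.2) ∧ t.Valid (lam' G Z) W ∧ t.Linked (lam' G Z)

lemma Gd.left [DecidableEq V] {W : ℕ} {l r : BT (V × V)} (h : Gd G Z W (.node l r)) :
    Gd G Z W l :=
  ⟨fun p hp => h.1 p (Finset.mem_union_left _ hp), h.2.1.2.2.1,
    fun t ht => h.2.2 t (ReflTransGen.head ⟨l, r, rfl, Or.inl rfl⟩ ht)⟩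

lemma Gd.right [DecidableEq V] {W : ℕ} {l r : BT (V × V)} (h : Gd G Z W (.node l r)) :
    Gd G Z W r :=
  ⟨fun p hp => h.1 p (Finset.mem_union_right _ hp), h.2.1.2.2.2,
    fun t ht => h.2.2 t (ReflTransGen.head ⟨l, r, rfl, Or.inr rfl⟩ ht)⟩

lemma valid_le {α : Type} [DecidableEq α] {f : Finset α → ℕ} {W : ℕ} {t : BT α}
    (h : t.Valid f W) : f t.set ≤ W := by
  cases t with
  | leaf F => exact h.2
  | node l r => exact h.2.1

lemma Gd.le [DecidableEq V] {W : ℕ} {t : BT (V × V)} (h : Gd G Z W t) :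
    (bd G Z t.set).ncard ≤ W := lam'_eq h.1 ▸ valid_le h.2.1

variable {β : ℝ} {C : ∀ V : Type, SimpleGraph V → Prop}

/-- children of a node -/
def chN (W : ℕ) : (Σ c : Cx β C, {t // Gd c.G c.Z W t}) →
    Option ((Σ c : Cx β C, {t // Gd c.G c.Z W t}) × (Σ c : Cx β C, {t // Gd c.G c.Z W t}))
  | ⟨_, .leaf _, _⟩ => none
  | ⟨c, .node l r, h⟩ => some (⟨c, l, h.left⟩, ⟨c, r, h.right⟩)

lemma tree_bound (hC : Cls β C) (hβ : 0 ≤ β) (W : ℕ) : ∃ K, ∀ (c : Cx β C) (t : BT (c.V × c.V)),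
    Gd c.G c.Z W t → t.set.card ≤ K := by
  classical
  obtain ⟨K, hK⟩ := H50.itemB (Σ c : Cx β C, {t // Gd c.G c.Z W t}) (chN W)
    (fun v => lam' v.1.G v.1.Z v.2.1.set) (fun v => vl v.1.G (2 * β) (it v.1.G v.1.Z v.2.1.set))
    (fun v => v.2.1.set.card) W (W * W + 1)
    ((Finset.range (2 * (W * W) + 5) ×ˢ Finset.range (2 * W + 3)).image
      fun p => (p.1 : ℝ) - 2 * β * p.2) (2 * β * W) (fun v => valid_le v.2.2.2.1) (by
      rintro ⟨c, t, h⟩
      have := hC.fin _ _ c.mem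
      constructor
      · rcases (it c.G c.Z t.set).eq_empty_or_nonempty with e | e
        · simp [e, vl, dAt]
        · exact ((c.sm.mono (Set.subset_compl_comm.1 it_sub)).pos e).le
      · have k1 : ((_ : ℕ) : ℝ) ≤ _ := Nat.cast_le.2 (dAt_le (G := c.G) (U := it c.G c.Z t.set)
          (S := bd c.G c.Z t.set) fun x hx y hy => it_bd.superset (it_nb hx hy))
        have k2 := hC.dIn_le c.mem (it c.G c.Z t.set ∪ bd c.G c.Z t.set)
        rw [Set.ncard_union_eq it_disj] at k2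
        have k3 : ((_ : ℕ) : ℝ) ≤ _ := Nat.cast_le.2 h.le
        push_cast at k2
        simp only [vl]
        nlinarith) (by
      rintro ⟨c, F | ⟨l, r⟩, h⟩ e
      · have := hC.fin _ _ c.mem
        refine ⟨Finset.mem_image.2 ⟨(dAt c.G (it c.G c.Z F), (it c.G c.Z F).ncard), ?_, rfl⟩,
          h.2.1.1.trans (by omega)⟩
        have k1 := mt_le h.2.1.1
        have k2 := (Set.ncard_le_ncard (Set.sdiff_subset (t := ot c.G c.Z F))).trans k1
        have k3 : dAt c.G (it c.G c.Z F) ≤ 2 * 2 :=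
          (pairs_le (S := mt F) fun p hp => hp.2.elim
            (fun h => ⟨h.1, it_nb h hp.1⟩) fun h => ⟨it_nb h hp.1.symm, h.1⟩).trans
            (Nat.mul_le_mul k1 k1)
        simp only [Finset.mem_product, Finset.mem_range]
        exact ⟨by omega, lt_of_le_of_lt k2 (by omega)⟩
      · simp [chN] at e) (by
      rintro ⟨c, F | ⟨l, r⟩, h⟩ l' r' e
      · simp [chN] at e
      · have := hC.fin _ _ c.mem
        obtain ⟨rfl, rfl⟩ := Prod.mk.inj (Option.some.inj e)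
        obtain ⟨a, ha, b, hb, k⟩ := vl_split (2 * β) h.2.1.1 h.left.1 h.left.le h.right.le
        have k1 := Finset.card_union_of_disjoint h.2.1.1
        have k2 := (h.2.2 _ ReflTransGen.refl).1
        have k3 := (k2 l ⟨l, r, rfl, Or.inl rfl⟩).card_pos
        have k4 := (k2 r ⟨l, r, rfl, Or.inr rfl⟩).card_pos
        refine ⟨Finset.mem_image.2 ⟨(a, b), ?_, k.symm⟩, ?_⟩
        · simp only [Finset.mem_product, Finset.mem_range]; omega
        · simp only [BT.set]; omega) (by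
      rintro ⟨c, t, h⟩ u hu
      have := hC.fin _ _ c.mem
      have key : ∃ t' h', u = ⟨c, t', h'⟩ ∧ t'.set ⊆ t.set ∧ ReflTransGen
          (fun a b => BT.Ch a b ∧ lam' c.G c.Z t.set ≤ lam' c.G c.Z b.set) t t' := by
        induction hu with
        | refl => exact ⟨t, h, rfl, subset_rfl, ReflTransGen.refl⟩
        | tail _ h2 ih =>
          obtain ⟨F | ⟨l, r⟩, h', rfl, i1, i2⟩ := ih
          · simp [chN] at h2
          · obtain ⟨⟨l', r', e, e'⟩, h3⟩ := h2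
            obtain ⟨rfl, rfl⟩ := Prod.mk.inj (Option.some.inj e)
            rcases e' with rfl | rfl
            · exact ⟨l, _, rfl, Finset.subset_union_left.trans i1,
                i2.tail ⟨⟨l, r, rfl, Or.inl rfl⟩, h3⟩⟩
            · exact ⟨r, _, rfl, Finset.subset_union_right.trans i1,
                i2.tail ⟨⟨l, r, rfl, Or.inr rfl⟩, h3⟩⟩
      obtain ⟨t', h', rfl, i1, i2⟩ := key
      intro e
      simp only [lam'_eq h.1, lam'_eq h'.1] at e
      obtain ⟨k1, k2⟩ := vl_link c.sm i1 h.1 e.symm fun Y y1 y2 => by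
        have := (h.2.2 _ ReflTransGen.refl).2 _ i2 Y y1 y2
        rwa [lam'_eq h.1, lam'_eq fun p hp => h.1 p (y2 hp)] at this
      refine ⟨k1, fun e => (k2 e).trans ?_⟩
      have := Nat.mul_le_mul h.le h.le
      simp only
      omega)
  exact ⟨K, fun c t h => hK ⟨c, t, h⟩⟩

theorem hang_bound (hC : Cls β C) (hβ : 0 ≤ β) {W : ℕ}
    (hW : ∀ (V : Type) [DecidableEq V] (G : SimpleGraph V), C V G → BW G W) (W1 : ℕ) :
    ∃ K, ∀ (V : Type) (G : SimpleGraph V) (U S : Set V), C V G → SM (2 * β) G Uᶜ →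
      (∀ x ∈ U, ∀ y, G.Adj x y → y ∈ U ∪ S) → S.ncard ≤ W1 → U.ncard ≤ K := by
  classical
  obtain ⟨K, hK⟩ := tree_bound hC hβ (W + W1)
  refine ⟨K, fun V G U S hG hs hc hS => ?_⟩
  have := hC.fin _ _ hG
  obtain ⟨T, t1, t2⟩ := hW V G hG
  obtain ⟨T1, a1, a2⟩ := restrict hc T (fun p hp => (t1 p).1 hp) t2
  have mono : ∀ T : BT (V × V), T.Valid (lam' G Uᶜ) (W + S.ncard) →
      T.Valid (lam' G Uᶜ) (W + W1) := by
    intro T
    induction T with
    | leaf F => exact fun h => ⟨h.1, h.2.trans (by omega)⟩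
    | node l r il ir => exact fun h => ⟨h.1, h.2.1.trans (by omega), il h.2.2.1, ir h.2.2.2⟩
  obtain ⟨T2, b1, b2, b3⟩ := exists_linked T1 (mono _ a2)
  have := hK ⟨V, inferInstance, G, Uᶜ, hG, hs⟩ T2 ⟨fun p hp => (t1 p).1 (by
    rw [b1, a1] at hp; exact (Finset.mem_filter.1 hp).1), b2, b3⟩
  refine le_trans ?_ this
  rw [← Set.ncard_coe_finset]
  refine le_trans (Set.ncard_le_ncard ?_) (Set.ncard_image_le (f := Prod.fst))
  intro v hv
  obtain ⟨w, hw⟩ := hs.adj (by positivity) hv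
  refine ⟨(v, w), ?_, rfl⟩
  rw [Finset.mem_coe, b1, a1]
  exact Finset.mem_filter.2 ⟨(t1 _).2 hw, Or.inl hv⟩

end Pool.Agent.MP_c60df9_co.H39
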